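import Pool.Agent.Lib.MP_acb0a8_nt.Moments
import Pool.Agent.Lib.MP_0bb3d8_nt.SieveFund

/-!
# The finite core of the argument
-/

open Finset

namespace Pool.Agent.ACB

/-- product of `1 - 1/q` over the primes `q ≤ y` -/
noncomputable def VP (y : ℕ) : ℝ := ∏ q ∈ (Finset.Ioc 0 y).filter Nat.Prime, (1 - 1 / (q : ℝ))

lemma VP_pos (y : ℕ) : 0 < VP y := by
  refine prod_pos fun q hq => ?_
  have h2 : (2 : ℝ) ≤ q := by exact_mod_cast (mem_filter.1 hq).2.two_le
  have : 1 / (q : ℝ) ≤ 1 / 2 := one_div_le_one_div_of_le (by norm_num) h2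
  linarith

lemma VP_le_one (y : ℕ) : VP y ≤ 1 := by
  refine prod_le_one (fun q hq => ?_) fun _ _ => ?_
  · have h2 : (2 : ℝ) ≤ q := by exact_mod_cast (mem_filter.1 hq).2.two_le
    have : 1 / (q : ℝ) ≤ 1 / 2 := one_div_le_one_div_of_le (by norm_num) h2
    linarith
  · rw [sub_le_self_iff]; positivity

/-- the product of the primes up to `y`, without `l` -/
noncomputable def MM (y l : ℕ) : ℕ := ∏ q ∈ ((Finset.Ioc 0 y).filter Nat.Prime).erase l, q

lemma MM_pos (y l : ℕ) : 0 < MM y l :=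
  prod_pos fun q hq => (mem_filter.1 (mem_of_mem_erase hq)).2.pos

lemma MM_dvd (y l : ℕ) : MM y l ∣ primorial y := by
  unfold MM primorial
  refine prod_dvd_prod_of_subset _ _ _ fun q hq => ?_
  rw [mem_erase, mem_filter, mem_Ioc] at hq
  simp only [mem_filter, mem_range]
  exact ⟨by omega, hq.2.2⟩

/-- the modulus -/
noncomputable def NN (y J : ℕ) : ℕ := primorial y * ordCompl[2] (Nat.lcmUpto J)

lemma MMj_dvd {y l J j : ℕ} (hj : j ∈ Finset.Icc 1 J) (h2 : ¬ 2 ∣ j) : MM y l * j ∣ NN y J := by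
  unfold NN
  refine mul_dvd_mul (MM_dvd y l) ?_
  have h1 : j ∣ Nat.lcmUpto J := Finset.dvd_lcm (f := id) hj
  have h3 := Nat.ordProj_mul_ordCompl_eq_self (Nat.lcmUpto J) 2
  rw [← h3] at h1
  refine Nat.Coprime.dvd_of_dvd_mul_left ?_ h1
  exact (Nat.Coprime.pow_left _ ((Nat.Prime.coprime_iff_not_dvd Nat.prime_two).2 h2)).symm

lemma not_eight (y J : ℕ) : ¬ 8 ∣ NN y J := by
  intro h
  unfold NN at h
  have hodd : Nat.Coprime 8 (ordCompl[2] (Nat.lcmUpto J)) := by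
    have h1 := Nat.coprime_ordCompl Nat.prime_two (Nat.lcmUpto_ne_zero J)
    have : (8 : ℕ) = 2 ^ 3 := by norm_num
    rw [this]
    exact Nat.Coprime.pow_left 3 h1
  have h2 : 8 ∣ primorial y := hodd.dvd_of_dvd_mul_right h
  have hsq : Squarefree (primorial y) := by
    unfold primorial
    exact Pool.Agent.Lib.MP_0bb3d8_nt.squarefree_prod_primes fun p hp => (mem_filter.1 hp).2
  have h3 : 2 * 2 ∣ primorial y := (by norm_num : 2 * 2 ∣ 8).trans h2
  have := hsq 2 h3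
  exact absurd (Nat.isUnit_iff.1 this) (by norm_num)

lemma NN_pos (y J : ℕ) : 0 < NN y J := by
  unfold NN
  exact Nat.mul_pos (primorial_pos y) (Nat.ordCompl_pos 2 (Nat.lcmUpto_ne_zero J))

open Classical in
/-- the finite core -/
lemma core {bs : ℕ} (hbs : Real.exp (66 * 8) ≤ 4 ^ bs) {c : ℝ} (hc : 0 < c) {N y z J l K : ℕ}
    {C3 b : ℝ} (hl : l.Prime) (hl2 : l ≠ 2) (hy : 4 ≤ y) (hyz : y ≤ z) (hN : 2 ≤ N)
    (hAP : ∀ q, q ∣ NN y J → ¬ l ∣ q → ∀ b : ZMod q, IsUnit b → ∀ x' : ℝ, (N : ℝ) ≤ x' →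
      x' ≤ (N : ℝ) ^ 2 → c * x' / (Nat.totient q * Real.log x') ≤ Lnk.pc q b x')
    (hK : primorial y * J ≤ K) (hKN : K ≤ N)
    (h64 : 64 * (K : ℝ) ^ 2 ≤ c * N / (6 * Real.log N))
    (hC3 : 4 * (Real.log (64 * (K : ℝ) ^ 5) / Real.log y / y) ≤ C3)
    (hb : z + (4 * (N + 1) * ((VP z / VP y) ^ 2 * Real.exp C3) +
      Real.exp (12 * (bs + 1) * Real.log z + 1)) ≤ b) :
    ∃ U : Finset ℕ, U ⊆ Finset.Icc 1 N ∧
      (∀ n ∈ U, ∃ k, 1 ≤ k ∧ k ≤ K ∧ (k * n + pk k).Prime) ∧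
      ∀ J₀ : ℝ, 0 < J₀ → J₀ ≤ ((J / 4 : ℕ) : ℝ) →
      J₀ * (c * N / (6 * VP y * Real.log N)) ^ 2 / (c * N / (6 * VP y * Real.log N) + J₀ * b) ≤
        U.card := by
  have hNR : (2 : ℝ) ≤ N := by exact_mod_cast hN
  have hL : 0 < Real.log N := Real.log_pos (by linarith)
  have hV := VP_pos y
  have hV1 := VP_le_one y
  set a := c * N / (6 * VP y * Real.log N) with ha
  have ha0 : 0 < a := by positivity
  have hl3 : 3 ≤ l := by
    have := hl.two_le
    omega
  set JJ := (Finset.Icc 1 J).filter fun j => ¬ 2 ∣ j ∧ ¬ l ∣ j with hJJ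
  have hJJp : ∀ j ∈ JJ, j ∈ Finset.Icc 1 J ∧ ¬ 2 ∣ j ∧ ¬ l ∣ j := fun j hj => by
    rw [hJJ, mem_filter] at hj; exact hj
  set kk : ℕ → ℕ := fun j => MM y l * j with hkk
  have hM0 := MM_pos y l
  have hk1 : ∀ j ∈ JJ, 1 ≤ kk j := fun j hj => by
    have := (mem_Icc.1 (hJJp j hj).1).1
    exact Nat.mul_pos hM0 this
  have hkK : ∀ j ∈ JJ, kk j ≤ K := fun j hj => by
    have h1 := (mem_Icc.1 (hJJp j hj).1).2
    have h2 := Nat.le_of_dvd (primorial_pos y) (MM_dvd y l)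
    exact (Nat.mul_le_mul h2 h1).trans hK
  have hkinj : ∀ i j, kk i = kk j → i = j := fun i j h => Nat.eq_of_mul_eq_mul_left hM0 h
  have hldvd : ∀ j ∈ JJ, ¬ l ∣ kk j := by
    intro j hj h
    rcases (Nat.Prime.dvd_mul hl).1 h with h1 | h1
    · obtain ⟨q, hq, hlq⟩ := (Prime.dvd_finsetProd_iff hl.prime _).1 h1
      rw [mem_erase, mem_filter] at hq
      exact hq.1 ((Nat.prime_dvd_prime_iff_eq hl hq.2.2).1 hlq).symm
    · exact (hJJp j hj).2.2 h1
  set S : ℕ → Finset ℕ := fun j => (Finset.Icc 1 N).filter fun n => (kk j * n + pk (kk j)).Prime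
    with hS
  -- first moment
  have hfirst : ∀ j ∈ JJ, a ≤ (S j).card := by
    intro j hj
    have hk := hk1 j hj
    have hkR : (1 : ℝ) ≤ kk j := by exact_mod_cast hk
    have hkKR : (kk j : ℝ) ≤ K := by exact_mod_cast hkK j hj
    have hKNR : (K : ℝ) ≤ N := by exact_mod_cast hKN
    have hunit : IsUnit ((pk (kk j) : ℕ) : ZMod (kk j)) :=
      (ZMod.isUnit_iff_coprime _ _).2 (coprime_pk hk)
    have h1 := hAP (kk j) (MMj_dvd (hJJp j hj).1 (hJJp j hj).2.1) (hldvd j hj) _ hunit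
      ((kk j * N : ℕ) : ℝ) (by push_cast; nlinarith) (by push_cast; nlinarith)
    have h2 := first_moment (N := N) hk
    have h2' : (Lnk.pc (kk j) ((pk (kk j) : ℕ) : ZMod (kk j)) ((kk j * N : ℕ) : ℝ) : ℝ) ≤
        pk (kk j) + (S j).card := by exact_mod_cast h2
    have h3 : (pk (kk j) : ℝ) ≤ 64 * (K : ℝ) ^ 2 := by
      have h4 := pk_le hk
      have h5 : (pk (kk j) : ℝ) ≤ 64 * (kk j : ℝ) ^ 2 := by exact_mod_cast h4
      refine h5.trans ?_
      gcongr
    have hphi := phi_le (k := kk j) (y := y) (l := l) hk hl3 (fun q hq hqy hql => by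
      refine Dvd.dvd.mul_right ?_ _
      unfold MM
      refine dvd_prod_of_mem (f := fun q => q) ?_
      rw [mem_erase, mem_filter, mem_Ioc]
      exact ⟨hql, ⟨hq.pos, hqy⟩, hq⟩)
    change _ ≤ (kk j : ℝ) * (3 / 2 * VP y) at hphi
    have hphi0 : (0 : ℝ) < Nat.totient (kk j) := by exact_mod_cast Nat.totient_pos.2 hk
    have hlogle : Real.log ((kk j * N : ℕ) : ℝ) ≤ 2 * Real.log N := by
      have : ((kk j * N : ℕ) : ℝ) ≤ (N : ℝ) ^ 2 := by push_cast; nlinarith
      calc Real.log ((kk j * N : ℕ) : ℝ) ≤ Real.log ((N : ℝ) ^ 2) :=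
            Real.log_le_log (by push_cast; nlinarith) this
        _ = 2 * Real.log N := by rw [Real.log_pow]; norm_num
    have hlogpos : 0 < Real.log ((kk j * N : ℕ) : ℝ) := by
      apply Real.log_pos
      push_cast
      nlinarith
    have h5 : c * N / (3 * VP y * Real.log N) ≤
        c * ((kk j * N : ℕ) : ℝ) / (Nat.totient (kk j) * Real.log ((kk j * N : ℕ) : ℝ)) := by
      rw [div_le_div_iff₀ (by positivity) (by positivity)]
      have h6 : (Nat.totient (kk j) : ℝ) * Real.log ((kk j * N : ℕ) : ℝ) ≤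
          (kk j : ℝ) * (3 / 2 * VP y) * (2 * Real.log N) :=
        mul_le_mul hphi hlogle hlogpos.le (by positivity)
      calc c * N * ((Nat.totient (kk j) : ℝ) * Real.log ((kk j * N : ℕ) : ℝ))
          ≤ c * N * ((kk j : ℝ) * (3 / 2 * VP y) * (2 * Real.log N)) :=
            mul_le_mul_of_nonneg_left h6 (by positivity)
        _ = c * ((kk j * N : ℕ) : ℝ) * (3 * VP y * Real.log N) := by push_cast; ring
    have h7 : c * N / (3 * VP y * Real.log N) = 2 * a := by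
      rw [ha]; field_simp; ring
    have h8 : c * N / (6 * Real.log N) ≤ a := by
      rw [ha]
      apply div_le_div_of_nonneg_left (by positivity) (by positivity)
      nlinarith
    linarith
  -- pairs
  have hbpos : 0 ≤ b := by
    refine le_trans ?_ hb
    positivity
  have hpair : ∀ i ∈ JJ, ∀ j ∈ JJ, i ≠ j → ((S i ∩ S j).card : ℝ) ≤ b := by
    intro i hi j hj hij
    have hki := hk1 i hi
    have hkj := hk1 j hj
    have hkne : kk i ≠ kk j := fun h => hij (hkinj i j h)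
    have hcr := cross_ne hki hkj hkne
    have h1 := pair_bound hbs hki hkj hcr hy hyz N
    have h2 : S i ∩ S j = (Finset.Icc 1 N).filter fun n => (kk i * n + pk (kk i)).Prime ∧
        (kk j * n + pk (kk j)).Prime := by
      rw [hS]
      ext n
      simp only [mem_inter, mem_filter]
      tauto
    rw [h2]
    refine h1.trans (le_trans ?_ hb)
    have hyR : (0 : ℝ) < y := by
      have : 0 < y := by omega
      exact_mod_cast this
    have h2l : 0 < Real.log y := Real.log_pos (by exact_mod_cast (by omega : 1 < y))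
    have hh : ((kk j : ℤ) * (pk (kk i) : ℕ) - kk i * (pk (kk j) : ℕ)).natAbs ≤ 64 * K ^ 3 := by
      have e1 : kk j * pk (kk i) ≤ 64 * K ^ 3 := by
        calc kk j * pk (kk i) ≤ K * (64 * kk i ^ 2) := Nat.mul_le_mul (hkK j hj) (pk_le hki)
          _ ≤ K * (64 * K ^ 2) := by
              gcongr
              exact hkK i hi
          _ = 64 * K ^ 3 := by ring
      have e2 : kk i * pk (kk j) ≤ 64 * K ^ 3 := by
        calc kk i * pk (kk j) ≤ K * (64 * kk j ^ 2) := Nat.mul_le_mul (hkK i hi) (pk_le hkj)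
          _ ≤ K * (64 * K ^ 2) := by
              gcongr
              exact hkK j hj
          _ = 64 * K ^ 3 := by ring
      have e1' : ((kk j : ℤ) * (pk (kk i) : ℕ)) ≤ ((64 * K ^ 3 : ℕ) : ℤ) := by exact_mod_cast e1
      have e2' : ((kk i : ℤ) * (pk (kk j) : ℕ)) ≤ ((64 * K ^ 3 : ℕ) : ℤ) := by exact_mod_cast e2
      have e3 : (0 : ℤ) ≤ (kk j : ℤ) * (pk (kk i) : ℕ) := by positivity
      have e4 : (0 : ℤ) ≤ (kk i : ℤ) * (pk (kk j) : ℕ) := by positivity
      omega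
    have hm : ((kk i * kk j * ((kk j : ℤ) * (pk (kk i) : ℕ) -
        kk i * (pk (kk j) : ℕ)).natAbs : ℕ) : ℝ) ≤ 64 * (K : ℝ) ^ 5 := by
      have : kk i * kk j * ((kk j : ℤ) * (pk (kk i) : ℕ) -
        kk i * (pk (kk j) : ℕ)).natAbs ≤ 64 * K ^ 5 := by
        calc _ ≤ K * K * (64 * K ^ 3) :=
              Nat.mul_le_mul (Nat.mul_le_mul (hkK i hi) (hkK j hj)) hh
          _ = 64 * K ^ 5 := by ring
      exact_mod_cast this
    have hm0 : (0 : ℝ) < ((kk i * kk j * ((kk j : ℤ) * (pk (kk i) : ℕ) -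
        kk i * (pk (kk j) : ℕ)).natAbs : ℕ) : ℝ) := by
      have : 0 < kk i * kk j * ((kk j : ℤ) * (pk (kk i) : ℕ) -
        kk i * (pk (kk j) : ℕ)).natAbs :=
        Nat.mul_pos (Nat.mul_pos hki hkj) (Int.natAbs_pos.2 hcr)
      exact_mod_cast this
    have hlog := Real.log_le_log hm0 hm
    have hexp : Real.exp (4 * (Real.log ((kk i * kk j * ((kk j : ℤ) * (pk (kk i) : ℕ) -
        kk i * (pk (kk j) : ℕ)).natAbs : ℕ) : ℝ) / Real.log y / y)) ≤ Real.exp C3 := by
      apply Real.exp_le_exp.2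
      refine le_trans ?_ hC3
      gcongr
    have hX : 4 * ((N : ℝ) + 1) * ((VP z / VP y) ^ 2 * Real.exp (4 * (Real.log
        ((kk i * kk j * ((kk j : ℤ) * (pk (kk i) : ℕ) -
        kk i * (pk (kk j) : ℕ)).natAbs : ℕ) : ℝ) / Real.log y / y))) ≤
        4 * ((N : ℝ) + 1) * ((VP z / VP y) ^ 2 * Real.exp C3) := by
      gcongr
    unfold VP at hX ⊢
    linarith
  refine ⟨JJ.biUnion S, ?_, ?_, ?_⟩
  · rw [biUnion_subset]
    exact fun j _ => filter_subset _ _
  · intro n hn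
    rw [mem_biUnion] at hn
    obtain ⟨j, hj, hnj⟩ := hn
    rw [hS, mem_filter] at hnj
    exact ⟨kk j, hk1 j hj, hkK j hj, hnj.2⟩
  · intro J₀ hJ₀ hJ₀J
    have hcard := card_odd J l hl hl2
    have hJc : J₀ ≤ (JJ.card : ℝ) := by
      refine hJ₀J.trans ?_
      exact_mod_cast hcard
    have hJc0 : (0 : ℝ) < JJ.card := lt_of_lt_of_le hJ₀ hJc
    have hcs := cs JJ S
    set T := ∑ j ∈ JJ, ((S j).card : ℝ) with hT
    have hTa : (JJ.card : ℝ) * a ≤ T := by
      rw [hT, ← nsmul_eq_mul, ← sum_const]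
      exact sum_le_sum hfirst
    have hdouble : ∑ i ∈ JJ, ∑ j ∈ JJ, ((S i ∩ S j).card : ℝ) ≤ T + (JJ.card : ℝ) ^ 2 * b := by
      have h1 : ∀ i ∈ JJ, ∑ j ∈ JJ, ((S i ∩ S j).card : ℝ) ≤ (S i).card + JJ.card * b := by
        intro i hi
        rw [← add_sum_erase JJ _ hi, inter_self]
        have h2 : ∑ j ∈ JJ.erase i, ((S i ∩ S j).card : ℝ) ≤ ∑ _j ∈ JJ.erase i, b := by
          refine sum_le_sum fun j hj => ?_
          rw [mem_erase] at hj
          exact hpair i hi j hj.2 hj.1.symm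
        rw [sum_const, nsmul_eq_mul] at h2
        have h3 : ((JJ.erase i).card : ℝ) ≤ JJ.card := by
          exact_mod_cast card_le_card (erase_subset _ _)
        have h4 := mul_le_mul_of_nonneg_right h3 hbpos
        linarith
      calc _ ≤ ∑ i ∈ JJ, (((S i).card : ℝ) + JJ.card * b) := sum_le_sum h1
        _ = T + (JJ.card : ℝ) ^ 2 * b := by
            rw [sum_add_distrib, sum_const, nsmul_eq_mul]; ring
    have hfin := cs_final (U := ((JJ.biUnion S).card : ℝ)) hJc0 ha0 hbpos hTa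
      (hcs.trans (mul_le_mul_of_nonneg_left hdouble (Nat.cast_nonneg _)))
    refine le_trans ?_ hfin
    have hd1 : 0 < a + J₀ * b := by
      have := mul_nonneg hJ₀.le hbpos
      linarith
    have hd2 : 0 < a + (JJ.card : ℝ) * b := by
      have := mul_nonneg hJc0.le hbpos
      linarith
    rw [div_le_div_iff₀ hd1 hd2]
    have h9 : 0 ≤ ((JJ.card : ℝ) - J₀) * a ^ 3 := mul_nonneg (by linarith) (by positivity)
    nlinarith

end Pool.Agent.ACB
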