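import Pool.Agent.Lib.MP_acb0a8_nt.Param
import Pool.Agent.Lib.MP_5b0a7e_nt.Mertens

/-!
# Positive proportion of `n` with a prime `k n + p_k`, `k ≤ (log n)^(1 + A / log log log n)`
-/

open Finset Filter

namespace Pool.Agent.ACB

open Classical in
/-- removal of the small `n` -/
lemma remove_small {a : ℝ} (N K : ℕ) (hN : 0 < N) (U : Finset ℕ)
    (hU1 : U ⊆ Finset.Icc 1 N) (hU2 : ∀ n ∈ U, ∃ k, 1 ≤ k ∧ k ≤ K ∧ (k * n + pk k).Prime)
    (h32 : 32 ≤ Real.log N) (hKq : (K : ℝ) ≤ Real.exp (1 / 4 * Real.log N))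
    (hKe : (K : ℝ) ≤ Real.exp (2 * (a * Real.log (Real.log N) /
      Real.log (Real.log (Real.log N))) + Real.log (Real.log N)))
    (hlast : ∀ n : ℝ, Real.exp (1 / 2 * Real.log N) < n → n ≤ Real.exp (Real.log N) →
      Real.exp (2 * (a * Real.log (Real.log N) /
        Real.log (Real.log (Real.log N))) + Real.log (Real.log N)) ≤
      Real.log n ^ (1 + 4 * a / Real.log (Real.log (Real.log n)))) :
    (U.card : ℝ) ≤ (((Finset.Icc 16 N).filter fun n : ℕ => ∃ k : ℕ, 1 ≤ k ∧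
      (k : ℝ) < 3 * √(n : ℝ) ∧
      (k : ℝ) ≤ Real.log n ^ (1 + 4 * a / Real.log (Real.log (Real.log n))) ∧
      (k * n + Nat.nth Nat.Prime (k - 1)).Prime).card : ℝ) + Real.exp (1 / 2 * Real.log N) := by
  have hN0 : (0 : ℝ) < N := by exact_mod_cast hN
  have hNL : Real.exp (Real.log N) = (N : ℝ) := Real.exp_log hN0
  set L := Real.log (N : ℝ) with hL
  set W := (Finset.Icc 16 N).filter fun n : ℕ => ∃ k : ℕ, 1 ≤ k ∧ (k : ℝ) < 3 * √(n : ℝ) ∧
      (k : ℝ) ≤ Real.log n ^ (1 + 4 * a / Real.log (Real.log (Real.log n))) ∧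
      (k * n + Nat.nth Nat.Prime (k - 1)).Prime with hW
  have hUW : U ⊆ W ∪ Finset.Icc 1 ⌊Real.exp (1 / 2 * L)⌋₊ := by
    intro n hn
    rw [mem_union]
    have hn1 := mem_Icc.1 (hU1 hn)
    by_cases hsm : n ≤ ⌊Real.exp (1 / 2 * L)⌋₊
    · right; exact mem_Icc.2 ⟨hn1.1, hsm⟩
    · left
      have hbig : Real.exp (1 / 2 * L) < n := by
        rw [not_le] at hsm
        exact (Nat.floor_lt (Real.exp_pos _).le).1 hsm
      obtain ⟨k, hk1, hkK, hkp⟩ := hU2 n hn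
      have hkKR : (k : ℝ) ≤ K := by exact_mod_cast hkK
      have hnN : (n : ℝ) ≤ Real.exp L := by rw [hNL]; exact_mod_cast hn1.2
      rw [hW, mem_filter, mem_Icc]
      have hn16 : 16 ≤ n := by
        have h3 := Real.add_one_le_exp (1 / 2 * L)
        have h4 : (16 : ℝ) ≤ n := by linarith
        exact_mod_cast h4
      refine ⟨⟨hn16, hn1.2⟩, k, hk1, ?_, ?_, hkp⟩
      · have h1 : Real.exp (1 / 4 * L) ≤ √(n : ℝ) := by
          apply Real.le_sqrt_of_sq_le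
          rw [← Real.exp_nat_mul]
          refine le_trans (Real.exp_le_exp.2 ?_) hbig.le
          push_cast; linarith
        have h2 := Real.exp_pos (1 / 4 * L)
        linarith
      · exact (hkKR.trans hKe).trans (hlast n hbig hnN)
  have hcard := (card_le_card hUW).trans (card_union_le _ _)
  rw [Nat.card_Icc] at hcard
  have h1 : (U.card : ℝ) ≤ W.card + (⌊Real.exp (1 / 2 * L)⌋₊ : ℝ) := by
    have : U.card ≤ W.card + ⌊Real.exp (1 / 2 * L)⌋₊ := by omega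
    exact_mod_cast this
  have h2 := Nat.floor_le (Real.exp_pos (1 / 2 * L)).le
  linarith

open Classical in
theorem main (A : ℝ) (hA : 0 < A) : ∃ c : ℝ, 0 < c ∧ ∀ᶠ N : ℕ in atTop,
    c * N ≤ (((Finset.Icc 16 N).filter fun n : ℕ => ∃ k : ℕ, 1 ≤ k ∧ (k : ℝ) < 3 * √(n : ℝ) ∧
      (k : ℝ) ≤ Real.log n ^ (1 + A / Real.log (Real.log (Real.log n))) ∧
      (k * n + Nat.nth Nat.Prime (k - 1)).Prime).card : ℝ) := by
  obtain ⟨δ, c, x₀, hδ0, hδ1, hc, hx₀, hAP⟩ := Lnk.primesAP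
  obtain ⟨bs, hbs'⟩ := pow_unbounded_of_one_lt (Real.exp (66 * 8)) (by norm_num : (1 : ℝ) < 4)
  have hbs := hbs'.le
  have hbs0 : (0 : ℝ) ≤ bs := Nat.cast_nonneg bs
  obtain ⟨η, hη0, hη4, hBη⟩ : ∃ η : ℝ, 0 < η ∧ η ≤ 1 / 4 ∧ 12 * ((bs : ℝ) + 1) * η = 1 / 4 := by
    refine ⟨1 / (4 * (12 * ((bs : ℝ) + 1))), by positivity, ?_, by field_simp⟩
    apply one_div_le_one_div_of_le (by norm_num)
    linarith
  have hlog4 : 0 < Real.log 4 := Real.log_pos (by norm_num)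
  obtain ⟨C₀, hC₀0, hC₀1, hC₀δ⟩ : ∃ C₀ : ℝ, 0 < C₀ ∧ C₀ ≤ 1 ∧ (Real.log 4 + 4) * C₀ ≤ δ / 2 := by
    refine ⟨min 1 (δ / (2 * (Real.log 4 + 4))), lt_min one_pos (by positivity), min_le_left _ _, ?_⟩
    calc (Real.log 4 + 4) * min 1 (δ / (2 * (Real.log 4 + 4)))
        ≤ (Real.log 4 + 4) * (δ / (2 * (Real.log 4 + 4))) :=
          mul_le_mul_of_nonneg_left (min_le_right _ _) (by positivity)
      _ = δ / 2 := by field_simp
  obtain ⟨a, ha0, haA⟩ : ∃ a : ℝ, 0 < a ∧ A = 4 * a := ⟨A / 4, by positivity, by ring⟩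
  subst haA
  set C2 : ℝ := 8 * Real.exp (4 * (64 / a)) / η ^ 2 + 1 with hC2
  have hC20 : 0 < C2 := by positivity
  have hτ0 : 0 < C₀ / 8 := by positivity
  set cf : ℝ := C₀ / 8 * c ^ 2 / (36 * (c / 6 + C₀ / 8 * C2)) with hcf
  have hcf0 : 0 < cf := by positivity
  refine ⟨cf / 2, by positivity, ?_⟩
  have hT : Tendsto (fun N : ℕ => Real.log (N : ℝ)) atTop atTop :=
    Real.tendsto_log_atTop.comp tendsto_natCast_atTop_atTop
  have F4 : ∀ᶠ L : ℝ in atTop, L ^ (2 : ℝ) ≤ 1 / 4 * Real.exp (3 / 4 * L) :=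
    rpow_le_exp_ev _ _ _ (by norm_num) (by norm_num)
  have F7 : ∀ᶠ L : ℝ in atTop, L ^ (0 : ℝ) ≤ cf / 2 * Real.exp (1 / 2 * L) :=
    rpow_le_exp_ev _ _ _ (by norm_num) (by positivity)
  filter_upwards [hT.eventually (params ha0 hδ0 hc hC₀0 hC₀1 hC₀δ hη0),
    hT.eventually (last_step ha0), hT.eventually F4, hT.eventually F7,
    hT.eventually (eventually_ge_atTop 32),
    tendsto_natCast_atTop_atTop.eventually_ge_atTop x₀, eventually_ge_atTop 2] with
    N hpar hlast f4 f7 f32 f10 f11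
  obtain ⟨y, z, J, hy4, hyz, hz1, hz2, hJq, hKe, hKq, h64, hC3', hNN⟩ := hpar
  have hN2 : (2 : ℝ) ≤ N := by exact_mod_cast f11
  have hN0 : (0 : ℝ) < N := by linarith
  have hNL : Real.exp (Real.log N) = (N : ℝ) := Real.exp_log hN0
  have hL0 : 0 < Real.log (N : ℝ) := by linarith
  have hKN : primorial y * J ≤ N := by
    have h1 : ((primorial y * J : ℕ) : ℝ) ≤ N := by
      rw [← hNL]
      exact hKq.trans (Real.exp_le_exp.2 (by linarith))
    exact_mod_cast h1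
  have hNN' : ((NN y J : ℕ) : ℝ) ≤ (N : ℝ) ^ δ := by
    rw [Real.rpow_def_of_pos hN0, mul_comm]
    exact hNN
  rw [hNL] at h64
  obtain ⟨l, hl, hl2, hprog⟩ := hAP N f10 (NN y J) (NN_pos y J) hNN' (not_eight y J)
  have hV := VP_pos y
  have hV1 := VP_le_one y
  have hVz : VP z ≤ 1 / (η * Real.log N) := by
    have h1 := LPAP.prod_one_sub_le z (by omega)
    have h2 : VP z ≤ 1 / Real.log ((z : ℝ) + 1) := h1
    refine h2.trans ?_
    apply one_div_le_one_div_of_le (by positivity)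
    rw [Real.le_log_iff_exp_le (by positivity)]
    exact hz2.le
  have hz0 : (0 : ℝ) < z := by
    have : 0 < z := by omega
    exact_mod_cast this
  have hbb := b_bound (C3 := 4 * (64 / a)) hL0 hNL.symm hN2 hbs0 hV hV1 (VP_pos z) hη0 hη4 hBη hVz
    hz0 hz1 f4
  rw [← hC2] at hbb
  obtain ⟨U, hU1, hU2, hU3⟩ := core hbs hc hl hl2 hy4 hyz f11
    hprog le_rfl hKN h64 hC3' hbb
  have hU4 := hU3 (C₀ / 8 * Real.log N) (by positivity) hJq
  have hlow := (alg_low hτ0 hc hC20 hN0 hV hV1 hL0).trans hU4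
  rw [← hcf] at hlow
  have hrem := remove_small (a := a) N (primorial y * J) (by omega) U hU1 hU2 f32 hKq hKe hlast
  have hsmall : Real.exp (1 / 2 * Real.log N) ≤ cf / 2 * N := by
    rw [Real.rpow_zero] at f7
    calc Real.exp (1 / 2 * Real.log N) = Real.exp (1 / 2 * Real.log N) * 1 := (mul_one _).symm
      _ ≤ Real.exp (1 / 2 * Real.log N) * (cf / 2 * Real.exp (1 / 2 * Real.log N)) :=
          mul_le_mul_of_nonneg_left f7 (Real.exp_pos _).le
      _ = cf / 2 * (Real.exp (1 / 2 * Real.log N) * Real.exp (1 / 2 * Real.log N)) := by ring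
      _ = cf / 2 * N := by
          rw [← Real.exp_add, ← hNL, Real.log_exp]
          congr 2; ring
  have e : cf * (N : ℝ) = cf / 2 * N + cf / 2 * N := by ring
  linarith

end Pool.Agent.ACB
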