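import Pool.Agent.Lib.MP_acb0a8_nt.H13Avg

set_option autoImplicit false

namespace Pool.Agent.ACB13

open Finset Pool.Agent.Lib.MP_0bb3d8_nt

private lemma sum_union_le' (A B : Finset ℕ) :
    ∑ p ∈ A ∪ B, 1 / (p : ℝ) ≤ ∑ p ∈ A, 1 / (p : ℝ) + ∑ p ∈ B, 1 / (p : ℝ) := by
  have h3 := sum_union_inter (s₁ := A) (s₂ := B) (f := fun p : ℕ => 1 / (p : ℝ))
  have h4 : 0 ≤ ∑ p ∈ A ∩ B, 1 / (p : ℝ) := sum_nonneg fun p _ => by positivity
  linarith

theorem bs_cut : ∃ J₀ : ℕ, ∀ J : ℕ, J₀ ≤ J → ∀ (z : ℝ) (H : ℕ), H ≠ 0 → H ≤ 64 * J ^ 5 →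
    Real.exp (4 * bs z H) ≤ Real.exp 64 * (CQ * (1 + ∑ q ∈ (PQ (Real.sqrt (Real.log J))).filter
      (fun p => p ∣ H), lam q * (q : ℝ) ^ (1 / 8 : ℝ))) := by
  refine ⟨⌈Real.exp 8⌉₊, fun J hJ z H hH hHJ => ?_⟩
  have hJr : Real.exp 8 ≤ J := (Nat.le_ceil _).trans (by exact_mod_cast hJ)
  have hJ0 : (0 : ℝ) < J := lt_of_lt_of_le (Real.exp_pos _) hJr
  set L := Real.log J with hL
  have hL8 : 8 ≤ L := by
    rw [hL, Real.le_log_iff_exp_le hJ0]; exact hJr
  set w := Real.sqrt L with hw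
  have hw2 : w ^ 2 = L := Real.sq_sqrt (by linarith)
  have hw1 : 1 ≤ w := by
    rw [hw]; exact Real.one_le_sqrt.2 (by linarith)
  set D := H.primeFactors.filter (fun p : ℕ => L < (p : ℝ)) with hD
  have hsub : (pr 4 z).filter (fun p => p ∣ H) ⊆
      (pr 4 Q0 ∪ (PQ w).filter (fun p => p ∣ H)) ∪ (pr w (w ^ 2) ∪ D) := by
    intro p hp
    rw [mem_filter, mem_pr (by norm_num)] at hp
    obtain ⟨⟨h4, hz, hpp⟩, hd⟩ := hp
    rw [mem_union, mem_union, mem_union, mem_pr (by norm_num), mem_filter, mem_PQ,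
      mem_pr (by linarith), hD, mem_filter, Nat.mem_primeFactors]
    rcases le_or_gt (p : ℝ) Q0 with h | h
    · left; left; exact ⟨h4, h, hpp⟩
    · rcases le_or_gt (p : ℝ) w with h' | h'
      · left; right; exact ⟨⟨h, h', hpp⟩, hd⟩
      · rcases le_or_gt (p : ℝ) L with h'' | h''
        · right; left; exact ⟨h', by rw [hw2]; exact h'', hpp⟩
        · right; right; exact ⟨⟨hpp, hd, hH⟩, h''⟩
  have hDsum : ∑ p ∈ D, 1 / (p : ℝ) ≤ 8 := by
    have h1 : ∑ p ∈ D, 1 / (p : ℝ) ≤ (D.card : ℝ) * (1 / L) := by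
      calc ∑ p ∈ D, 1 / (p : ℝ) ≤ ∑ p ∈ D, 1 / L := by
            refine sum_le_sum fun p hp => ?_
            rw [hD, mem_filter] at hp
            exact one_div_le_one_div_of_le (by linarith) hp.2.le
        _ = _ := by rw [sum_const, nsmul_eq_mul]
    have h2 : (D.card : ℝ) ≤ (H.primeFactors.card : ℝ) := by
      exact_mod_cast card_le_card (filter_subset _ _)
    have h3 := card_pf_le H hH
    have h4 : Real.log H ≤ Real.log 64 + 5 * L := by
      have e1 : (H : ℝ) ≤ 64 * (J : ℝ) ^ 5 := by exact_mod_cast hHJ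
      have e2 : (0 : ℝ) < H := by exact_mod_cast Nat.pos_of_ne_zero hH
      calc Real.log H ≤ Real.log (64 * (J : ℝ) ^ 5) := Real.log_le_log e2 e1
        _ = _ := by
          rw [Real.log_mul (by norm_num) (by positivity), Real.log_pow]
          push_cast
          rfl
    have h5 : Real.log 64 = 6 * Real.log 2 := by
      rw [show (64 : ℝ) = 2 ^ 6 by norm_num, Real.log_pow]
      push_cast
      ring
    have h6 : (0.6931 : ℝ) ≤ Real.log 2 := by linarith [Real.log_two_gt_d9]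
    have h7 : (D.card : ℝ) ≤ 8 * L := by
      have h8 : (D.card : ℝ) * Real.log 2 ≤ 8 * L * Real.log 2 := by
        calc (D.card : ℝ) * Real.log 2 ≤ (H.primeFactors.card : ℝ) * Real.log 2 := by gcongr
          _ ≤ Real.log 64 + 5 * L := h3.trans h4
          _ ≤ 8 * L * Real.log 2 := by
            rw [h5]
            nlinarith
      exact le_of_mul_le_mul_right h8 (by linarith)
    calc ∑ p ∈ D, 1 / (p : ℝ) ≤ (D.card : ℝ) * (1 / L) := h1
      _ ≤ 8 * L * (1 / L) := by gcongr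
      _ = 8 := by field_simp
  have hsq := sum_pr_sq_le hw1
  have hbs : bs z H ≤ ∑ p ∈ pr 4 Q0, 1 / (p : ℝ) +
      ∑ p ∈ (PQ w).filter (fun p => p ∣ H), 1 / (p : ℝ) + 16 := by
    unfold bs
    have e1 := sum_le_sum_of_subset_of_nonneg hsub
      (f := fun p : ℕ => 1 / (p : ℝ)) (fun p _ _ => by positivity)
    have e2 := sum_union_le' (pr 4 Q0 ∪ (PQ w).filter (fun p => p ∣ H)) (pr w (w ^ 2) ∪ D)
    have e3 := sum_union_le' (pr 4 Q0) ((PQ w).filter (fun p => p ∣ H))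
    have e4 := sum_union_le' (pr w (w ^ 2)) D
    linarith
  have hcv := conv ((PQ w).filter (fun p => p ∣ H)) (fun q hq => by
    rw [mem_filter, mem_PQ] at hq
    exact ⟨hq.1.2.2, hq.1.1⟩)
  calc Real.exp (4 * bs z H) ≤ Real.exp (64 + (4 * ∑ p ∈ pr 4 Q0, 1 / (p : ℝ) +
        4 * ∑ p ∈ (PQ w).filter (fun p => p ∣ H), 1 / (p : ℝ))) := by
        apply Real.exp_le_exp.2; linarith
    _ = Real.exp 64 * (CQ * Real.exp (4 * ∑ p ∈ (PQ w).filter (fun p => p ∣ H), 1 / (p : ℝ))) := by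
        rw [Real.exp_add, Real.exp_add]; rfl
    _ ≤ _ := by
        refine mul_le_mul_of_nonneg_left ?_ (Real.exp_pos _).le
        exact mul_le_mul_of_nonneg_left hcv CQ_pos.le

end Pool.Agent.ACB13
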