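import Pool.Agent.Lib.MP_acb0a8_nt.H13Avg

/-!
# Row A: the average over pairs
-/

set_option autoImplicit false

namespace Pool.Agent.ACB13

open Finset Pool.Agent.Lib.MP_0bb3d8_nt

/-- the number whose prime factors matter -/
noncomputable def HH (i j : ℕ) : ℕ :=
  i * j * ((i : ℤ) * (ACB.pk j : ℕ) - j * (ACB.pk i : ℕ)).natAbs

lemma card_dvd (J p : ℕ) : (((Icc 1 J).filter fun j => p ∣ j).card : ℝ) ≤ (J : ℝ) / p := by
  have h : Icc 1 J = Ioc 0 J := by ext a; simp; omega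
  rw [h, Nat.Ioc_filter_dvd_card_eq_div]
  exact Nat.cast_div_le

lemma card_row (J p i : ℕ) (hp : p.Prime) (hi : ¬ p ∣ i) (B : ℝ)
    (hB : ∀ a : ZMod p, (((range J).filter fun j => ((Nat.nth Nat.Prime j : ℕ) : ZMod p) =
      a * ((j + 1 : ℕ) : ZMod p)).card : ℝ) ≤ B) :
    ((((Icc 1 J).erase i).filter fun j => p ∣ HH i j).card : ℝ) ≤ (J : ℝ) / p + B := by
  have := Fact.mk hp
  have hi0 : ((i : ℕ) : ZMod p) ≠ 0 := by
    rw [Ne, ZMod.natCast_eq_zero_iff]; exact hi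
  set a : ZMod p := ((ACB.pk i : ℕ) : ZMod p) * ((i : ZMod p))⁻¹ with ha
  set T := (range J).filter fun j => ((Nat.nth Nat.Prime j : ℕ) : ZMod p) =
      a * ((j + 1 : ℕ) : ZMod p) with hT
  have hsub : ((Icc 1 J).erase i).filter (fun j => p ∣ HH i j) ⊆
      (Icc 1 J).filter (fun j => p ∣ j) ∪ T.image (fun j => j + 1) := by
    intro j hj
    rw [mem_filter, mem_erase, mem_Icc] at hj
    obtain ⟨⟨_, hj1, hjJ⟩, hd⟩ := hj
    rw [mem_union, mem_filter, mem_Icc]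
    by_cases hpj : p ∣ j
    · left; exact ⟨⟨hj1, hjJ⟩, hpj⟩
    · right
      unfold HH at hd
      have h1 : p ∣ ((i : ℤ) * (ACB.pk j : ℕ) - j * (ACB.pk i : ℕ)).natAbs := by
        rcases (Nat.Prime.dvd_mul hp).1 hd with h | h
        · rcases (Nat.Prime.dvd_mul hp).1 h with h | h
          · exact absurd h hi
          · exact absurd h hpj
        · exact h
      have h2 : (((i : ℤ) * (ACB.pk j : ℕ) - j * (ACB.pk i : ℕ) : ℤ) : ZMod p) = 0 := by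
        rw [ZMod.intCast_zmod_eq_zero_iff_dvd]
        exact Int.natCast_dvd.2 h1
      push_cast at h2
      rw [sub_eq_zero] at h2
      rw [mem_image]
      refine ⟨j - 1, ?_, by omega⟩
      rw [hT, mem_filter, mem_range]
      refine ⟨by omega, ?_⟩
      have e1 : j - 1 + 1 = j := by omega
      rw [e1, ha]
      show ((ACB.pk j : ℕ) : ZMod p) = _
      field_simp
      rw [mul_comm] at h2
      rw [h2, mul_comm]
  calc ((((Icc 1 J).erase i).filter fun j => p ∣ HH i j).card : ℝ)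
      ≤ (((Icc 1 J).filter (fun j => p ∣ j) ∪ T.image (fun j => j + 1)).card : ℝ) := by
        exact_mod_cast card_le_card hsub
    _ ≤ (((Icc 1 J).filter (fun j => p ∣ j)).card : ℝ) + ((T.image (fun j => j + 1)).card : ℝ) := by
        exact_mod_cast card_union_le _ _
    _ ≤ (J : ℝ) / p + B := by
        refine add_le_add (card_dvd J p) ?_
        refine le_trans ?_ (hB a)
        exact_mod_cast card_image_le

lemma pair_count (J p : ℕ) (hp : p.Prime) (C : ℝ) (hC : 0 < C)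
    (hB : ∀ a : ZMod p, (((range J).filter fun j => ((Nat.nth Nat.Prime j : ℕ) : ZMod p) =
      a * ((j + 1 : ℕ) : ZMod p)).card : ℝ) ≤ C * J * (p : ℝ) ^ (-(1 / 8) : ℝ)) :
    ∑ i ∈ Icc 1 J, ((((Icc 1 J).erase i).filter fun j => p ∣ HH i j).card : ℝ) ≤
      (2 + C) * (J : ℝ) ^ 2 * (p : ℝ) ^ (-(1 / 8) : ℝ) := by
  have hp1 : (1 : ℝ) ≤ p := by exact_mod_cast hp.one_lt.le
  have hp0 : (0 : ℝ) < p := by linarith
  have hinv : (1 : ℝ) / p ≤ (p : ℝ) ^ (-(1 / 8) : ℝ) := by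
    calc (1 : ℝ) / p = (p : ℝ) ^ (-1 : ℝ) := by rw [Real.rpow_neg_one, one_div]
      _ ≤ _ := Real.rpow_le_rpow_of_exponent_le hp1 (by norm_num)
  have h1 : ∀ i ∈ Icc 1 J, ((((Icc 1 J).erase i).filter fun j => p ∣ HH i j).card : ℝ) ≤
      (if p ∣ i then (J : ℝ) else 0) + ((J : ℝ) / p + C * J * (p : ℝ) ^ (-(1 / 8) : ℝ)) := by
    intro i hi
    split_ifs with hd
    · have e1 : ((((Icc 1 J).erase i).filter fun j => p ∣ HH i j).card : ℝ) ≤ J := by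
        have e2 : (((Icc 1 J).erase i).filter fun j => p ∣ HH i j).card ≤ (Icc 1 J).card :=
          card_le_card ((filter_subset _ _).trans (erase_subset _ _))
        rw [Nat.card_Icc] at e2
        exact_mod_cast e2.trans (by omega)
      have e3 : (0 : ℝ) ≤ (J : ℝ) / p + C * J * (p : ℝ) ^ (-(1 / 8) : ℝ) := by positivity
      linarith
    · rw [zero_add]
      exact card_row J p i hp hd _ hB
  calc ∑ i ∈ Icc 1 J, ((((Icc 1 J).erase i).filter fun j => p ∣ HH i j).card : ℝ)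
      ≤ ∑ i ∈ Icc 1 J, ((if p ∣ i then (J : ℝ) else 0) +
          ((J : ℝ) / p + C * J * (p : ℝ) ^ (-(1 / 8) : ℝ))) := sum_le_sum h1
    _ = (((Icc 1 J).filter fun j => p ∣ j).card : ℝ) * J +
          J * ((J : ℝ) / p + C * J * (p : ℝ) ^ (-(1 / 8) : ℝ)) := by
        rw [sum_add_distrib, ← sum_filter, sum_const, sum_const, Nat.card_Icc, nsmul_eq_mul,
          nsmul_eq_mul]
        simp
    _ ≤ (J : ℝ) / p * J + J * ((J : ℝ) / p + C * J * (p : ℝ) ^ (-(1 / 8) : ℝ)) := by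
        have := mul_le_mul_of_nonneg_right (card_dvd J p) (Nat.cast_nonneg J)
        linarith
    _ = 2 * (J : ℝ) ^ 2 * (1 / p) + C * (J : ℝ) ^ 2 * (p : ℝ) ^ (-(1 / 8) : ℝ) := by ring
    _ ≤ 2 * (J : ℝ) ^ 2 * (p : ℝ) ^ (-(1 / 8) : ℝ) + C * (J : ℝ) ^ 2 * (p : ℝ) ^ (-(1 / 8) : ℝ) := by
        gcongr
    _ = _ := by ring

/-- the row, from `N_card` and `bs_cut` -/
theorem avg_bad_of
    (hN : ∃ C : ℝ, 0 < C ∧ ∃ J₀ : ℕ, ∀ J : ℕ, J₀ ≤ J → ∀ p : ℕ, p.Prime → Q0 < p →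
      (p : ℝ) ^ 2 ≤ Real.log J → ∀ a : ZMod p,
      (((range J).filter fun j => ((Nat.nth Nat.Prime j : ℕ) : ZMod p) =
        a * ((j + 1 : ℕ) : ZMod p)).card : ℝ) ≤ C * J * (p : ℝ) ^ (-(1 / 8) : ℝ))
    (hcut : ∃ J₀ : ℕ, ∀ J : ℕ, J₀ ≤ J → ∀ (z : ℝ) (H : ℕ), H ≠ 0 → H ≤ 64 * J ^ 5 →
      Real.exp (4 * bs z H) ≤ Real.exp 64 * (CQ * (1 + ∑ q ∈ (PQ (Real.sqrt (Real.log J))).filter
        (fun p => p ∣ H), lam q * (q : ℝ) ^ (1 / 8 : ℝ)))) :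
    ∃ C : ℝ, 0 < C ∧ ∃ J₀ : ℕ, ∀ J : ℕ, J₀ ≤ J → ∀ z : ℝ,
    ∑ i ∈ Icc 1 J, ∑ j ∈ (Icc 1 J).erase i,
      Real.exp (4 * bs z (i * j * ((i : ℤ) * (ACB.pk j : ℕ) - j * (ACB.pk i : ℕ)).natAbs)) ≤
        C * (J : ℝ) ^ 2 := by
  obtain ⟨C, hC, J₁, hN⟩ := hN
  obtain ⟨J₂, hcut⟩ := hcut
  refine ⟨Real.exp 64 * (CQ * (3 + C)), by have := CQ_pos; positivity, max J₁ J₂, fun J hJ z => ?_⟩
  have hJ1 : J₁ ≤ J := (le_max_left _ _).trans hJ
  have hJ2 : J₂ ≤ J := (le_max_right _ _).trans hJ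
  set W := PQ (Real.sqrt (Real.log J)) with hW
  have hterm : ∀ i ∈ Icc 1 J, ∀ j ∈ (Icc 1 J).erase i,
      Real.exp (4 * bs z (i * j * ((i : ℤ) * (ACB.pk j : ℕ) - j * (ACB.pk i : ℕ)).natAbs)) ≤
      Real.exp 64 * (CQ * (1 + ∑ q ∈ W, if q ∣ HH i j then lam q * (q : ℝ) ^ (1 / 8 : ℝ) else 0)) := by
    intro i hi j hj
    rw [mem_erase, mem_Icc] at hj
    rw [mem_Icc] at hi
    obtain ⟨hji, hj1, hjJ⟩ := hj
    have hne : HH i j ≠ 0 := by
      unfold HH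
      have e1 := ACB.cross_ne hi.1 hj1 (Ne.symm hji)
      have e2 : ((i : ℤ) * (ACB.pk j : ℕ) - j * (ACB.pk i : ℕ)).natAbs ≠ 0 := by
        rw [Ne, Int.natAbs_eq_zero]
        first
          | exact e1
          | (intro h0; exact e1 (by linarith))
      exact Nat.mul_ne_zero (Nat.mul_ne_zero (by omega) (by omega)) e2
    have hle : HH i j ≤ 64 * J ^ 5 := by
      unfold HH
      have e1 : i * ACB.pk j ≤ 64 * J ^ 3 := by
        calc i * ACB.pk j ≤ J * (64 * j ^ 2) := Nat.mul_le_mul hi.2 (ACB.pk_le hj1)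
          _ ≤ J * (64 * J ^ 2) := by gcongr
          _ = 64 * J ^ 3 := by ring
      have e2 : j * ACB.pk i ≤ 64 * J ^ 3 := by
        calc j * ACB.pk i ≤ J * (64 * i ^ 2) := Nat.mul_le_mul hjJ (ACB.pk_le hi.1)
          _ ≤ J * (64 * J ^ 2) := by gcongr; exact hi.2
          _ = 64 * J ^ 3 := by ring
      have e1' : ((i : ℤ) * (ACB.pk j : ℕ)) ≤ ((64 * J ^ 3 : ℕ) : ℤ) := by exact_mod_cast e1
      have e2' : ((j : ℤ) * (ACB.pk i : ℕ)) ≤ ((64 * J ^ 3 : ℕ) : ℤ) := by exact_mod_cast e2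
      have e3 : (0 : ℤ) ≤ (i : ℤ) * (ACB.pk j : ℕ) := by positivity
      have e4 : (0 : ℤ) ≤ (j : ℤ) * (ACB.pk i : ℕ) := by positivity
      have e5 : ((i : ℤ) * (ACB.pk j : ℕ) - j * (ACB.pk i : ℕ)).natAbs ≤ 64 * J ^ 3 := by
        omega
      calc i * j * ((i : ℤ) * (ACB.pk j : ℕ) - j * (ACB.pk i : ℕ)).natAbs
          ≤ J * J * (64 * J ^ 3) := Nat.mul_le_mul (Nat.mul_le_mul hi.2 hjJ) e5
        _ = 64 * J ^ 5 := by ring
    have h := hcut J hJ2 z (HH i j) hne hle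
    rw [sum_filter] at h
    exact h
  have hcount : ∀ q ∈ W, ∑ i ∈ Icc 1 J, ((((Icc 1 J).erase i).filter fun j => q ∣ HH i j).card : ℝ) ≤
      (2 + C) * (J : ℝ) ^ 2 * (q : ℝ) ^ (-(1 / 8) : ℝ) := by
    intro q hq
    rw [hW, mem_PQ] at hq
    obtain ⟨hq0, hqw, hqp⟩ := hq
    have hq1 : (0 : ℝ) < q := by exact_mod_cast hqp.pos
    have hlog : 0 ≤ Real.log J := Real.log_natCast_nonneg J
    have hsq : (q : ℝ) ^ 2 ≤ Real.log J := by
      calc (q : ℝ) ^ 2 ≤ (Real.sqrt (Real.log J)) ^ 2 := by gcongr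
        _ = Real.log J := Real.sq_sqrt hlog
    exact pair_count J q hqp C hC (hN J hJ1 q hqp hq0 hsq)
  have hsl : ∑ q ∈ W, lam q ≤ 1 := sum_lam W (fun q hq => ⟨(mem_PQ.1 hq).2.2, (mem_PQ.1 hq).1⟩)
  have hcard : ∑ i ∈ Icc 1 J, (((Icc 1 J).erase i).card : ℝ) ≤ (J : ℝ) ^ 2 := by
    calc ∑ i ∈ Icc 1 J, (((Icc 1 J).erase i).card : ℝ) ≤ ∑ i ∈ Icc 1 J, (J : ℝ) := by
          refine sum_le_sum fun i _ => ?_
          have e2 : ((Icc 1 J).erase i).card ≤ (Icc 1 J).card := card_le_card (erase_subset _ _)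
          rw [Nat.card_Icc] at e2
          exact_mod_cast e2.trans (by omega)
      _ = (J : ℝ) ^ 2 := by
          rw [sum_const, Nat.card_Icc, nsmul_eq_mul]
          simp [sq]
  have hmain : ∑ i ∈ Icc 1 J, ∑ j ∈ (Icc 1 J).erase i,
      (1 + ∑ q ∈ W, if q ∣ HH i j then lam q * (q : ℝ) ^ (1 / 8 : ℝ) else 0) ≤
      (3 + C) * (J : ℝ) ^ 2 := by
    have e1 : ∀ i ∈ Icc 1 J, ∑ j ∈ (Icc 1 J).erase i,
        (1 + ∑ q ∈ W, if q ∣ HH i j then lam q * (q : ℝ) ^ (1 / 8 : ℝ) else 0) =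
        (((Icc 1 J).erase i).card : ℝ) + ∑ q ∈ W, lam q * (q : ℝ) ^ (1 / 8 : ℝ) *
          ((((Icc 1 J).erase i).filter fun j => q ∣ HH i j).card : ℝ) := by
      intro i _
      rw [sum_add_distrib, sum_comm]
      congr 1
      · simp
      · refine sum_congr rfl fun q _ => ?_
        rw [← sum_filter, sum_const, nsmul_eq_mul, mul_comm]
    rw [sum_congr rfl e1, sum_add_distrib, sum_comm]
    have e2 : ∑ q ∈ W, ∑ i ∈ Icc 1 J, lam q * (q : ℝ) ^ (1 / 8 : ℝ) *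
          ((((Icc 1 J).erase i).filter fun j => q ∣ HH i j).card : ℝ) ≤
        ∑ q ∈ W, lam q * ((2 + C) * (J : ℝ) ^ 2) := by
      refine sum_le_sum fun q hq => ?_
      have hqp := (mem_PQ.1 hq).2.2
      have hq1 : (0 : ℝ) < q := by exact_mod_cast hqp.pos
      rw [← mul_sum, mul_assoc]
      refine mul_le_mul_of_nonneg_left ?_ (lam_nonneg q)
      calc (q : ℝ) ^ (1 / 8 : ℝ) * ∑ i ∈ Icc 1 J,
            ((((Icc 1 J).erase i).filter fun j => q ∣ HH i j).card : ℝ)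
          ≤ (q : ℝ) ^ (1 / 8 : ℝ) * ((2 + C) * (J : ℝ) ^ 2 * (q : ℝ) ^ (-(1 / 8) : ℝ)) :=
            mul_le_mul_of_nonneg_left (hcount q hq) (by positivity)
        _ = (2 + C) * (J : ℝ) ^ 2 * ((q : ℝ) ^ (1 / 8 : ℝ) * (q : ℝ) ^ (-(1 / 8) : ℝ)) := by ring
        _ = (2 + C) * (J : ℝ) ^ 2 := by
            rw [← Real.rpow_add hq1]
            norm_num
    have e3 : ∑ q ∈ W, lam q * ((2 + C) * (J : ℝ) ^ 2) ≤ 1 * ((2 + C) * (J : ℝ) ^ 2) := by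
      rw [← sum_mul]
      exact mul_le_mul_of_nonneg_right hsl (by positivity)
    nlinarith [sq_nonneg (J : ℝ)]
  calc ∑ i ∈ Icc 1 J, ∑ j ∈ (Icc 1 J).erase i,
        Real.exp (4 * bs z (i * j * ((i : ℤ) * (ACB.pk j : ℕ) - j * (ACB.pk i : ℕ)).natAbs))
      ≤ ∑ i ∈ Icc 1 J, ∑ j ∈ (Icc 1 J).erase i,
        Real.exp 64 * (CQ * (1 + ∑ q ∈ W, if q ∣ HH i j then lam q * (q : ℝ) ^ (1 / 8 : ℝ) else 0)) :=
        sum_le_sum fun i hi => sum_le_sum fun j hj => hterm i hi j hj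
    _ = Real.exp 64 * (CQ * ∑ i ∈ Icc 1 J, ∑ j ∈ (Icc 1 J).erase i,
        (1 + ∑ q ∈ W, if q ∣ HH i j then lam q * (q : ℝ) ^ (1 / 8 : ℝ) else 0)) := by
        simp only [mul_sum]
    _ ≤ Real.exp 64 * (CQ * ((3 + C) * (J : ℝ) ^ 2)) := by
        refine mul_le_mul_of_nonneg_left ?_ (Real.exp_pos _).le
        exact mul_le_mul_of_nonneg_left hmain CQ_pos.le
    _ = _ := by ring

end Pool.Agent.ACB13
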