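import Pool.Agent.Lib.MP_acb0a8_nt.H13N
import Pool.Agent.Lib.MP_acb0a8_nt.H13A1
import Pool.Agent.Lib.MP_acb0a8_nt.H13A2

/-!
# The average over pairs
-/

set_option autoImplicit false

namespace Pool.Agent.ACB13

open Finset Pool.Agent.Lib.MP_0bb3d8_nt

theorem avg_bad : ∃ C : ℝ, 0 < C ∧ ∃ J₀ : ℕ, ∀ J : ℕ, J₀ ≤ J → ∀ z : ℝ,
    ∑ i ∈ Icc 1 J, ∑ j ∈ (Icc 1 J).erase i,
      Real.exp (4 * bs z (i * j * ((i : ℤ) * (ACB.pk j : ℕ) - j * (ACB.pk i : ℕ)).natAbs)) ≤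
        C * (J : ℝ) ^ 2 := avg_bad_of N_card bs_cut

end Pool.Agent.ACB13
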