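import Pool.Agent.Lib.MP_acb0a8_nt.Pair
import Pool.Agent.Lib.Linnik.Main

/-!
# First moment, sizes, and the Cauchy-Schwarz argument
-/

open Finset

namespace Pool.Agent.ACB

/-- the `k`-th prime -/
noncomputable abbrev pk (k : ℕ) : ℕ := Nat.nth Nat.Prime (k - 1)

lemma pk_prime (k : ℕ) : (pk k).Prime := Nat.prime_nth_prime _

lemma lt_pk {k : ℕ} (hk : 1 ≤ k) : k < pk k := by
  have := Nat.add_two_le_nth_prime (k - 1)
  unfold pk
  omega

lemma coprime_pk {k : ℕ} (hk : 1 ≤ k) : Nat.Coprime (pk k) k :=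
  (Nat.Prime.coprime_iff_not_dvd (pk_prime k)).2 (Nat.not_dvd_of_pos_of_lt hk (lt_pk hk))

lemma pk_inj {k k' : ℕ} (hk : 1 ≤ k) (hk' : 1 ≤ k') (h : pk k = pk k') : k = k' := by
  have := Nat.nth_injective Nat.infinite_setOfPred_prime h
  omega

lemma cross_ne {k k' : ℕ} (hk : 1 ≤ k) (hk' : 1 ≤ k') (hne : k ≠ k') :
    (k' : ℤ) * (pk k : ℕ) - k * (pk k' : ℕ) ≠ 0 := by
  intro h
  have h1 : k' * pk k = k * pk k' := by
    have : (k' : ℤ) * (pk k : ℕ) = k * (pk k' : ℕ) := by linarith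
    exact_mod_cast this
  have h2 : pk k ∣ k * pk k' := h1 ▸ Dvd.intro_left _ rfl
  have h3 : pk k ∣ pk k' := (coprime_pk hk).dvd_of_dvd_mul_left h2
  exact hne (pk_inj hk hk' ((Nat.prime_dvd_prime_iff_eq (pk_prime k) (pk_prime k')).1 h3))

lemma pi_lower (X : ℕ) (hX : 4 ≤ X) : (X : ℝ) / (4 * Real.log X) ≤ Nat.primeCounting X := by
  refine le_trans ?_ (Chebyshev.pi_ge X)
  have hX4 : (4 : ℝ) ≤ X := by exact_mod_cast hX
  have hlog : 0 < Real.log X := Real.log_pos (by linarith)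
  have h1 : Real.log (X + 1) ≤ X / 8 + 5 / 4 := by
    have h2 : Real.log (X + 1) = Real.log ((X + 1) / 8) + 3 * Real.log 2 := by
      rw [Real.log_div (by positivity) (by norm_num)]
      have : Real.log 8 = 3 * Real.log 2 := by
        rw [show (8 : ℝ) = 2 ^ 3 by norm_num, Real.log_pow]; norm_num
      rw [this]; ring
    have h3 := Real.log_le_sub_one_of_pos (show (0 : ℝ) < ((X : ℝ) + 1) / 8 by positivity)
    have h4 := Real.log_two_lt_d9
    rw [h2]
    linarith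
  have h5 := Real.log_two_gt_d9
  rw [div_le_div_iff₀ (by positivity) hlog]
  have h6 : (X : ℝ) ≤ 4 * (X * Real.log 2 - Real.log (X + 1)) := by nlinarith
  nlinarith

lemma pk_le {k : ℕ} (hk : 1 ≤ k) : pk k ≤ 64 * k ^ 2 := by
  have hkR : (1 : ℝ) ≤ k := by exact_mod_cast hk
  have h1 := pi_lower (64 * k ^ 2) (by nlinarith [Nat.one_le_pow 2 k hk])
  have h2 : Real.log ((64 * k ^ 2 : ℕ) : ℝ) ≤ 2 * (8 * k) := by
    push_cast
    have : (64 * (k : ℝ) ^ 2) = (8 * k) ^ 2 := by ring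
    rw [this, Real.log_pow]
    push_cast
    have h3 := Real.log_le_sub_one_of_pos (show (0 : ℝ) < 8 * k by positivity)
    linarith
  have hpos : 0 < Real.log ((64 * k ^ 2 : ℕ) : ℝ) := by
    apply Real.log_pos
    push_cast
    nlinarith
  have h3 : (k : ℝ) ≤ Nat.primeCounting (64 * k ^ 2) := by
    refine le_trans ?_ h1
    rw [le_div_iff₀ (by positivity)]
    push_cast at h2 ⊢
    nlinarith
  have h4 : k ≤ Nat.primeCounting (64 * k ^ 2) := by exact_mod_cast h3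
  have h5 : k - 1 < Nat.count Nat.Prime (64 * k ^ 2 + 1) := by
    unfold Nat.primeCounting Nat.primeCounting' at h4
    omega
  have := Nat.nth_lt_of_lt_count h5
  unfold pk
  omega

open Classical in
lemma first_moment {k N : ℕ} (hk : 1 ≤ k) :
    Lnk.pc k (pk k : ZMod k) ((k * N : ℕ) : ℝ) ≤
      pk k + ((Finset.Icc 1 N).filter fun n => (k * n + pk k).Prime).card := by
  unfold Lnk.pc
  rw [Nat.floor_natCast]
  set A := (Finset.Icc 1 (k * N)).filter fun p : ℕ => p.Prime ∧ ((p : ℕ) : ZMod k) = (pk k : ZMod k)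
    with hA
  set S := (Finset.Icc 1 N).filter fun n => (k * n + pk k).Prime with hS
  have h1 : A ⊆ Finset.Icc 1 (pk k) ∪ S.image (fun n => k * n + pk k) := by
    intro p hp
    rw [hA, mem_filter, mem_Icc] at hp
    obtain ⟨⟨hp1, hp2⟩, hpp, hpc⟩ := hp
    rw [mem_union]
    by_cases hle : p ≤ pk k
    · left; exact mem_Icc.2 ⟨hp1, hle⟩
    · right
      have hlt : pk k < p := by omega
      have hdvd : k ∣ p - pk k := by
        rw [← ZMod.natCast_eq_zero_iff, Nat.cast_sub hlt.le, hpc, sub_self]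
      obtain ⟨n, hn⟩ := hdvd
      rw [mem_image]
      have hpe : p = k * n + pk k := by omega
      refine ⟨n, ?_, hpe.symm⟩
      rw [hS, mem_filter, mem_Icc]
      refine ⟨⟨?_, ?_⟩, hpe ▸ hpp⟩
      · by_contra h0
        have : n = 0 := by omega
        subst this
        omega
      · have : k * n ≤ k * N := by omega
        exact Nat.le_of_mul_le_mul_left this hk
  have h2 := (card_le_card h1).trans (card_union_le _ _)
  rw [Nat.card_Icc] at h2
  have h3 := card_image_le (s := S) (f := fun n => k * n + pk k)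
  omega

lemma phi_le {k y l : ℕ} (hk : 0 < k) (hl3 : 3 ≤ l)
    (hdiv : ∀ q, q.Prime → q ≤ y → q ≠ l → q ∣ k) :
    (Nat.totient k : ℝ) ≤
      k * (3 / 2 * ∏ q ∈ (Finset.Ioc 0 y).filter Nat.Prime, (1 - 1 / (q : ℝ))) := by
  have h0 : (Nat.totient k : ℝ) = k * ∏ p ∈ k.primeFactors, (1 - 1 / (p : ℝ)) := by
    have h := Nat.totient_eq_mul_prod_factors k
    have h' : ((Nat.totient k : ℚ) : ℝ) = ((k * ∏ p ∈ k.primeFactors, (1 - (p : ℚ)⁻¹) : ℚ) : ℝ) := by
      rw [h]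
    push_cast at h'
    rw [h']
    simp only [one_div]
  rw [h0]
  refine mul_le_mul_of_nonneg_left ?_ (Nat.cast_nonneg k)
  have hpos : ∀ q : ℕ, q.Prime → (0 : ℝ) < 1 - 1 / (q : ℝ) := by
    intro q hq
    have h2 : (2 : ℝ) ≤ q := by exact_mod_cast hq.two_le
    have : 1 / (q : ℝ) ≤ 1 / 2 := one_div_le_one_div_of_le (by norm_num) h2
    linarith
  have hle1 : ∀ q : ℕ, (1 : ℝ) - 1 / (q : ℝ) ≤ 1 := fun q => by
    have : (0 : ℝ) ≤ 1 / q := by positivity
    linarith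
  set T := (Finset.Ioc 0 y).filter Nat.Prime with hT
  have h1 : ∏ p ∈ k.primeFactors, (1 - 1 / (p : ℝ)) ≤ ∏ p ∈ T.erase l, (1 - 1 / (p : ℝ)) := by
    refine prod_le_prod_of_subset_of_le_one ?_ (fun p hp => (hpos p (Nat.prime_of_mem_primeFactors hp)).le)
      fun p _ _ => hle1 p
    intro q hq
    rw [mem_erase, hT, mem_filter, mem_Ioc] at hq
    exact Nat.mem_primeFactors.2 ⟨hq.2.2, hdiv q hq.2.2 hq.2.1.2 hq.1, hk.ne'⟩
  refine h1.trans ?_
  by_cases hlT : l ∈ T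
  · rw [← mul_prod_erase T _ hlT]
    have hl3R : (3 : ℝ) ≤ l := by exact_mod_cast hl3
    have h2 : 1 ≤ 3 / 2 * (1 - 1 / (l : ℝ)) := by
      have : 1 / (l : ℝ) ≤ 1 / 3 := one_div_le_one_div_of_le (by norm_num) hl3R
      linarith
    have h3 : 0 ≤ ∏ p ∈ T.erase l, (1 - 1 / (p : ℝ)) :=
      prod_nonneg fun q hq => (hpos q (mem_filter.1 (mem_of_mem_erase hq)).2).le
    nlinarith
  · rw [erase_eq_of_notMem hlT]
    have h3 : 0 ≤ ∏ p ∈ T, (1 - 1 / (p : ℝ)) :=
      prod_nonneg fun q hq => (hpos q (mem_filter.1 hq).2).le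
    linarith

open Classical in
lemma cs {ι : Type*} [DecidableEq ι] (J : Finset ι) (S : ι → Finset ℕ) :
    (∑ j ∈ J, ((S j).card : ℝ)) ^ 2 ≤
      ((J.biUnion S).card : ℝ) * ∑ i ∈ J, ∑ j ∈ J, ((S i ∩ S j).card : ℝ) := by
  set U := J.biUnion S with hU
  have h1 : ∀ j ∈ J, ((S j).card : ℝ) = ∑ n ∈ U, if n ∈ S j then (1 : ℝ) else 0 := by
    intro j hj
    rw [sum_ite_mem, inter_eq_right.2 (subset_biUnion_of_mem S hj)]
    simp
  have h2 : ∑ j ∈ J, ((S j).card : ℝ) = ∑ n ∈ U, ∑ j ∈ J, if n ∈ S j then (1 : ℝ) else 0 := by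
    rw [sum_comm]
    exact sum_congr rfl h1
  rw [h2]
  refine (sq_sum_le_card_mul_sum_sq).trans (le_of_eq ?_)
  congr 1
  have h3 : ∀ i ∈ J, ∀ j ∈ J, ((S i ∩ S j).card : ℝ) =
      ∑ n ∈ U, (if n ∈ S i then (1 : ℝ) else 0) * if n ∈ S j then (1 : ℝ) else 0 := by
    intro i hi j _
    have h4 : ∀ n ∈ U, ((if n ∈ S i then (1 : ℝ) else 0) * if n ∈ S j then (1 : ℝ) else 0) =
        if n ∈ S i ∩ S j then 1 else 0 := by
      intro n _
      by_cases h5 : n ∈ S i <;> by_cases h6 : n ∈ S j <;> simp [h5, h6]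
    rw [sum_congr rfl h4, sum_ite_mem,
      inter_eq_right.2 (inter_subset_left.trans (subset_biUnion_of_mem S hi))]
    simp
  rw [sum_congr rfl fun i hi => sum_congr rfl fun j hj => h3 i hi j hj]
  have h5 : ∀ n ∈ U, (∑ j ∈ J, if n ∈ S j then (1 : ℝ) else 0) ^ 2 =
      ∑ i ∈ J, ∑ j ∈ J, (if n ∈ S i then (1 : ℝ) else 0) * if n ∈ S j then (1 : ℝ) else 0 := by
    intro n _
    rw [sq, sum_mul_sum]
  rw [sum_congr rfl h5, sum_comm]
  refine sum_congr rfl fun i _ => ?_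
  rw [sum_comm]

lemma cs_final {U T a J' b : ℝ} (hJ : 0 < J') (ha : 0 < a) (hb : 0 ≤ b)
    (hT : J' * a ≤ T) (h : T ^ 2 ≤ U * (T + J' ^ 2 * b)) : J' * a ^ 2 / (a + J' * b) ≤ U := by
  set B := J' ^ 2 * b with hB
  have hB0 : 0 ≤ B := by positivity
  set T0 := J' * a with hT0
  have hT00 : 0 < T0 := by positivity
  have hT1 : 0 < T := lt_of_lt_of_le hT00 hT
  have h1 : T ^ 2 / (T + B) ≤ U := by
    rw [div_le_iff₀ (by linarith)]; exact h
  refine le_trans ?_ h1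
  have h2 : J' * a ^ 2 / (a + J' * b) = T0 ^ 2 / (T0 + B) := by
    have h4 : 0 < a + J' * b := by
      have := mul_nonneg hJ.le hb
      linarith
    rw [div_eq_div_iff h4.ne' (by linarith), hT0, hB]
    ring
  rw [h2, div_le_div_iff₀ (by linarith) (by linarith)]
  nlinarith [mul_nonneg hT00.le (mul_nonneg hT1.le (sub_nonneg.2 hT)),
    mul_nonneg hB0 (mul_nonneg (sub_nonneg.2 hT) (by linarith : 0 ≤ T + T0))]

/-- many odd `j ≤ J` which are not divisible by `l` -/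
lemma card_odd (J l : ℕ) (hl : l.Prime) (hl2 : l ≠ 2) :
    J / 4 ≤ ((Finset.Icc 1 J).filter fun j => ¬ 2 ∣ j ∧ ¬ l ∣ j).card := by
  classical
  set f : ℕ → ℕ := fun i => if l ∣ 4 * i + 1 then 4 * i + 3 else 4 * i + 1 with hf
  have hf4 : ∀ i, f i / 4 = i ∧ f i % 4 % 2 = 1 ∧ 1 ≤ f i ∧ f i ≤ 4 * i + 3 := by
    intro i
    simp only [hf]
    split_ifs <;> omega
  have h1 : (range (J / 4)).image f ⊆
      (Finset.Icc 1 J).filter fun j => ¬ 2 ∣ j ∧ ¬ l ∣ j := by
    intro j hj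
    rw [mem_image] at hj
    obtain ⟨i, hi, rfl⟩ := hj
    rw [mem_range] at hi
    obtain ⟨a1, a2, a3, a4⟩ := hf4 i
    rw [mem_filter, mem_Icc]
    refine ⟨⟨a3, by omega⟩, by omega, ?_⟩
    simp only [hf]
    split_ifs with h
    · intro h3
      have h4 : l ∣ 2 := by
        have : l ∣ (4 * i + 3) - (4 * i + 1) := Nat.dvd_sub h3 h
        have e : (4 * i + 3) - (4 * i + 1) = 2 := by omega
        rwa [e] at this
      exact hl2 ((Nat.prime_dvd_prime_iff_eq hl Nat.prime_two).1 h4)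
    · exact h
  have h2 : ((range (J / 4)).image f).card = J / 4 := by
    rw [card_image_of_injOn, card_range]
    intro i _ i' _ hii
    have e1 := (hf4 i).1
    have e2 := (hf4 i').1
    have e3 : f i = f i' := hii
    omega
  rw [← h2]
  exact card_le_card h1

end Pool.Agent.ACB
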