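import Pool.Agent.Lib.MP_acb0a8_nt.H13Pair
import Pool.Agent.Lib.MP_acb0a8_nt.Moments

/-!
# Averages of the singular factor
-/

set_option autoImplicit false

namespace Pool.Agent.ACB13

open Finset Pool.Agent.Lib.MP_0bb3d8_nt

/-- the threshold -/
noncomputable def Q0 : ℝ := Real.exp 256

lemma Q0_ge : (4 : ℝ) ≤ Q0 := by
  unfold Q0
  have := Real.add_one_le_exp (256 : ℝ)
  linarith

/-- the weights -/
noncomputable def lam (q : ℕ) : ℝ := 32 / ((q : ℝ) * Real.log q)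

lemma lam_nonneg (q : ℕ) : 0 ≤ lam q := by
  unfold lam
  rcases Nat.eq_zero_or_pos q with rfl | h
  · simp
  · have : 0 ≤ Real.log q := Real.log_nonneg (by exact_mod_cast h)
    positivity

lemma sum_lam (S : Finset ℕ) (hS : ∀ q ∈ S, q.Prime ∧ Q0 < q) : ∑ q ∈ S, lam q ≤ 1 := by
  have h := Hoh.sum_recip_log_finset (y := Q0) (by linarith [Q0_ge]) S hS
  have h1 : ∑ q ∈ S, lam q = 32 * ∑ q ∈ S, (1 : ℝ) / (q * Real.log q) := by
    rw [mul_sum]
    refine sum_congr rfl fun q _ => ?_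
    unfold lam; ring
  rw [h1]
  have h2 : Real.log Q0 = 256 := Real.log_exp 256
  rw [h2] at h
  linarith

/-- convexity -/
lemma conv (S : Finset ℕ) (hS : ∀ q ∈ S, q.Prime ∧ Q0 < q) :
    Real.exp (4 * ∑ q ∈ S, 1 / (q : ℝ)) ≤ 1 + ∑ q ∈ S, lam q * (q : ℝ) ^ (1 / 8 : ℝ) := by
  have h0 : (0 : ℕ) ∉ S := fun h => (hS 0 h).1.ne_zero rfl
  set Λ := ∑ q ∈ S, lam q with hΛ
  have hΛ1 : Λ ≤ 1 := sum_lam S hS
  set w : ℕ → ℝ := fun q => if q = 0 then 1 - Λ else lam q with hw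
  set t : ℕ → ℝ := fun q => 1 / 8 * Real.log q with ht
  have hwS : ∀ q ∈ S, w q = lam q := fun q hq => by
    rw [hw]; simp only; rw [if_neg (hS q hq).1.ne_zero]
  have hsum : ∑ q ∈ insert 0 S, w q = 1 := by
    rw [sum_insert h0, sum_congr rfl hwS]
    simp only [hw, if_true]
    linarith
  have hnn : ∀ q ∈ insert 0 S, 0 ≤ w q := by
    intro q _
    simp only [hw]
    split_ifs
    · linarith
    · exact lam_nonneg q
  have h := convexOn_exp.map_sum_le (t := insert 0 S) (w := w) (p := t) hnn hsum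
    (fun _ _ => Set.mem_univ _)
  simp only [smul_eq_mul] at h
  rw [sum_insert h0, sum_insert h0] at h
  have e1 : w 0 * t 0 + ∑ q ∈ S, w q * t q = 4 * ∑ q ∈ S, 1 / (q : ℝ) := by
    have : t 0 = 0 := by simp [ht]
    rw [this, mul_zero, zero_add, mul_sum]
    refine sum_congr rfl fun q hq => ?_
    rw [hwS q hq]
    have h1 : (1 : ℝ) < q := by exact_mod_cast (hS q hq).1.one_lt
    have h2 : 0 < Real.log q := Real.log_pos h1
    simp only [ht, lam]
    field_simp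
    norm_num
  have e2 : w 0 * Real.exp (t 0) + ∑ q ∈ S, w q * Real.exp (t q) ≤
      1 + ∑ q ∈ S, lam q * (q : ℝ) ^ (1 / 8 : ℝ) := by
    have a1 : t 0 = 0 := by simp [ht]
    have a2 : w 0 = 1 - Λ := by simp [hw]
    have a3 : 0 ≤ Λ := sum_nonneg fun q _ => lam_nonneg q
    rw [a1, a2, Real.exp_zero, mul_one]
    have a4 : ∑ q ∈ S, w q * Real.exp (t q) = ∑ q ∈ S, lam q * (q : ℝ) ^ (1 / 8 : ℝ) := by
      refine sum_congr rfl fun q hq => ?_
      rw [hwS q hq]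
      have h1 : (0 : ℝ) < q := by exact_mod_cast (hS q hq).1.pos
      rw [Real.rpow_def_of_pos h1]
      simp only [ht]
      rw [mul_comm (Real.log (q : ℝ))]
    rw [a4]
    linarith
  rw [e1] at h
  exact h.trans e2

/-- sum over the small primes dividing `H` -/
noncomputable def bs (z : ℝ) (H : ℕ) : ℝ := ∑ p ∈ (pr 4 z).filter (fun p => p ∣ H), 1 / (p : ℝ)

/-- the primes above `Q0` -/
noncomputable def PQ (w : ℝ) : Finset ℕ := pr Q0 w

lemma mem_PQ {w : ℝ} {p : ℕ} : p ∈ PQ w ↔ Q0 < p ∧ (p : ℝ) ≤ w ∧ p.Prime :=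
  mem_pr (by linarith [Q0_ge])

/-- constant -/
noncomputable def CQ : ℝ := Real.exp (4 * ∑ p ∈ pr 4 Q0, 1 / (p : ℝ))

lemma CQ_pos : 0 < CQ := Real.exp_pos _

lemma bs_le (z w : ℝ) (H : ℕ) (hH : H ≠ 0) (hw : ∀ p : ℕ, p.Prime → p ∣ H → (p : ℝ) ≤ w) :
    Real.exp (4 * bs z H) ≤ CQ * (1 + ∑ q ∈ (PQ w).filter (fun p => p ∣ H), lam q * (q : ℝ) ^ (1 / 8 : ℝ)) := by
  have h1 : bs z H ≤ ∑ p ∈ pr 4 Q0, 1 / (p : ℝ) + ∑ p ∈ (PQ w).filter (fun p => p ∣ H), 1 / (p : ℝ) := by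
    unfold bs
    have h2 : (pr 4 z).filter (fun p => p ∣ H) ⊆ pr 4 Q0 ∪ (PQ w).filter (fun p => p ∣ H) := by
      intro p hp
      rw [mem_filter, mem_pr (by norm_num)] at hp
      rw [mem_union, mem_pr (by norm_num), mem_filter, mem_PQ]
      rcases le_or_gt (p : ℝ) Q0 with h | h
      · left; exact ⟨hp.1.1, h, hp.1.2.2⟩
      · right; exact ⟨⟨h, hw p hp.1.2.2 hp.2, hp.1.2.2⟩, hp.2⟩
    refine (sum_le_sum_of_subset_of_nonneg h2 fun p _ _ => by positivity).trans ?_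
    have h3 := sum_union_inter (s₁ := pr 4 Q0) (s₂ := (PQ w).filter (fun p => p ∣ H)) (f := fun p : ℕ => 1 / (p : ℝ))
    have h4 : 0 ≤ ∑ p ∈ pr 4 Q0 ∩ (PQ w).filter (fun p => p ∣ H), 1 / (p : ℝ) :=
      sum_nonneg fun p _ => by positivity
    linarith
  have h5 := conv ((PQ w).filter (fun p => p ∣ H)) (fun q hq => by
    rw [mem_filter, mem_PQ] at hq
    exact ⟨hq.1.2.2, hq.1.1⟩)
  calc Real.exp (4 * bs z H) ≤ Real.exp (4 * ∑ p ∈ pr 4 Q0, 1 / (p : ℝ) +
        4 * ∑ p ∈ (PQ w).filter (fun p => p ∣ H), 1 / (p : ℝ)) := by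
        apply Real.exp_le_exp.2; linarith
    _ = CQ * Real.exp (4 * ∑ p ∈ (PQ w).filter (fun p => p ∣ H), 1 / (p : ℝ)) := by
        rw [Real.exp_add]; rfl
    _ ≤ _ := mul_le_mul_of_nonneg_left h5 CQ_pos.le

/-- a set of integers in `[1, G]` in one class modulo `m` -/
lemma class_card (S : Finset ℕ) (G m : ℕ) (hm : 0 < m) (hS : S ⊆ Icc 1 G)
    (hc : ∀ a ∈ S, ∀ b ∈ S, a ≡ b [MOD m]) : (S.card : ℝ) ≤ (G : ℝ) / m + 1 := by
  have h1 : S.card ≤ (range (G / m + 1)).card := by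
    refine card_le_card_of_injOn (fun a => a / m) ?_ ?_
    · intro a ha
      have := mem_Icc.1 (hS ha)
      simp only [coe_range, Set.mem_Iio]
      exact Nat.lt_succ_of_le (Nat.div_le_div_right this.2)
    · intro a ha b hb hab
      simp only at hab
      have h2 : a % m = b % m := hc a ha b hb
      rw [← Nat.div_add_mod a m, ← Nat.div_add_mod b m, hab, h2]
  rw [card_range] at h1
  have h2 : ((G / m : ℕ) : ℝ) ≤ (G : ℝ) / m := Nat.cast_div_le
  calc (S.card : ℝ) ≤ ((G / m + 1 : ℕ) : ℝ) := by exact_mod_cast h1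
    _ = ((G / m : ℕ) : ℝ) + 1 := by push_cast; ring
    _ ≤ _ := by linarith

open scoped Classical in
/-- the average of the singular factor over a class modulo `p` -/
lemma E_sum (z : ℝ) (G p : ℕ) (hp : p.Prime) (hG : p ^ 2 ≤ G) (c : ZMod p) (hc : c ≠ 0) :
    ∑ g ∈ (Icc 1 G).filter (fun g : ℕ => (g : ZMod p) = c), Real.exp (4 * bs z g) ≤
      CQ * (4 * (G : ℝ) / p) := by
  have := Fact.mk hp
  set S := (Icc 1 G).filter (fun g : ℕ => (g : ZMod p) = c) with hS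
  have hp2 : (2 : ℝ) ≤ p := by exact_mod_cast hp.two_le
  have hp0 : (0 : ℝ) < p := by linarith
  have hGr : (p : ℝ) ^ 2 ≤ G := by exact_mod_cast hG
  have hG1 : (1 : ℝ) ≤ G := by nlinarith
  have hG0 : (0 : ℝ) < G := by linarith
  have h1 : (S.card : ℝ) ≤ (G : ℝ) / p + 1 := by
    apply class_card S G p hp.pos (filter_subset _ _)
    intro a ha b hb
    rw [hS, mem_filter] at ha hb
    rw [← ZMod.natCast_eq_natCast_iff]
    rw [ha.2, hb.2]
  have h2 : ∀ q ∈ PQ (G : ℝ), ((S.filter fun g => q ∣ g).card : ℝ) ≤ (G : ℝ) / (p * q) + 1 := by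
    intro q hq
    rw [mem_PQ] at hq
    by_cases hqp : q = p
    · have : S.filter (fun g => q ∣ g) = ∅ := by
        rw [filter_eq_empty_iff]
        intro g hg hd
        rw [hS, mem_filter] at hg
        rw [hqp] at hd
        apply hc
        rw [← hg.2, ZMod.natCast_eq_zero_iff]
        exact hd
      rw [this, card_empty]
      push_cast
      positivity
    · have h3 := class_card (S.filter fun g => q ∣ g) G (p * q) (Nat.mul_pos hp.pos hq.2.2.pos)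
        ((filter_subset _ _).trans (filter_subset _ _)) (by
          intro a ha b hb
          rw [mem_filter, hS, mem_filter] at ha hb
          have hco : Nat.Coprime p q := (Nat.coprime_primes hp hq.2.2).2 (fun h => hqp h.symm)
          rw [← Nat.modEq_and_modEq_iff_modEq_mul hco]
          constructor
          · rw [← ZMod.natCast_eq_natCast_iff, ha.1.2, hb.1.2]
          · exact ((Nat.modEq_zero_iff_dvd).2 ha.2).trans ((Nat.modEq_zero_iff_dvd).2 hb.2).symm)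
      push_cast at h3
      exact h3
  have hgle : ∀ g ∈ S, ∀ q : ℕ, q.Prime → q ∣ g → (q : ℝ) ≤ (G : ℝ) := by
    intro g hg q hq hd
    rw [hS, mem_filter, mem_Icc] at hg
    exact_mod_cast (Nat.le_of_dvd (by omega) hd).trans hg.1.2
  have h4 : ∀ g ∈ S, Real.exp (4 * bs z g) ≤
      CQ * (1 + ∑ q ∈ PQ (G : ℝ), (if q ∣ g then lam q * (q : ℝ) ^ (1 / 8 : ℝ) else 0)) := by
    intro g hg
    have h5 := bs_le z G g (by rw [hS, mem_filter, mem_Icc] at hg; omega) (hgle g hg)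
    rw [sum_filter] at h5
    exact h5
  have hlamq : ∀ q ∈ PQ (G : ℝ), 0 ≤ lam q * (q : ℝ) ^ (1 / 8 : ℝ) := fun q _ =>
    mul_nonneg (lam_nonneg q) (by positivity)
  have h6 : ∑ g ∈ S, Real.exp (4 * bs z g) ≤
      CQ * (S.card + ∑ q ∈ PQ (G : ℝ), lam q * (q : ℝ) ^ (1 / 8 : ℝ) * ((S.filter fun g => q ∣ g).card : ℝ)) := by
    calc ∑ g ∈ S, Real.exp (4 * bs z g) ≤ ∑ g ∈ S,
          CQ * (1 + ∑ q ∈ PQ (G : ℝ), (if q ∣ g then lam q * (q : ℝ) ^ (1 / 8 : ℝ) else 0)) :=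
          sum_le_sum h4
      _ = _ := by
          rw [← mul_sum, sum_add_distrib, sum_comm]
          congr 2
          · simp
          · refine sum_congr rfl fun q _ => ?_
            rw [← sum_filter, sum_const, nsmul_eq_mul, mul_comm]
  have hPQ : ∀ q ∈ PQ (G : ℝ), q.Prime ∧ Q0 < q := fun q hq => ⟨(mem_PQ.1 hq).2.2, (mem_PQ.1 hq).1⟩
  have hsl := sum_lam (PQ (G : ℝ)) hPQ
  have h7 : ∑ q ∈ PQ (G : ℝ), lam q * (q : ℝ) ^ (1 / 8 : ℝ) * ((S.filter fun g => q ∣ g).card : ℝ) ≤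
      (G : ℝ) / p + (G : ℝ) ^ (1 / 8 : ℝ) := by
    calc _ ≤ ∑ q ∈ PQ (G : ℝ), lam q * ((G : ℝ) / p + (G : ℝ) ^ (1 / 8 : ℝ)) := by
          refine sum_le_sum fun q hq => ?_
          have hq1 : (1 : ℝ) ≤ q := by exact_mod_cast (hPQ q hq).1.one_lt.le
          have hq0 : (0 : ℝ) < q := by linarith
          have hqG := (mem_PQ.1 hq).2.1
          rw [mul_assoc]
          refine mul_le_mul_of_nonneg_left ?_ (lam_nonneg q)
          have e1 : (q : ℝ) ^ (1 / 8 : ℝ) ≤ q := by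
            calc (q : ℝ) ^ (1 / 8 : ℝ) ≤ (q : ℝ) ^ (1 : ℝ) :=
                  Real.rpow_le_rpow_of_exponent_le hq1 (by norm_num)
              _ = q := Real.rpow_one _
          have e2 : (q : ℝ) ^ (1 / 8 : ℝ) ≤ (G : ℝ) ^ (1 / 8 : ℝ) :=
            Real.rpow_le_rpow hq0.le hqG (by norm_num)
          calc (q : ℝ) ^ (1 / 8 : ℝ) * ((S.filter fun g => q ∣ g).card : ℝ)
              ≤ (q : ℝ) ^ (1 / 8 : ℝ) * ((G : ℝ) / (p * q) + 1) :=
                mul_le_mul_of_nonneg_left (h2 q hq) (by positivity)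
            _ = (q : ℝ) ^ (1 / 8 : ℝ) * ((G : ℝ) / (p * q)) + (q : ℝ) ^ (1 / 8 : ℝ) := by ring
            _ ≤ q * ((G : ℝ) / (p * q)) + (G : ℝ) ^ (1 / 8 : ℝ) :=
                add_le_add (mul_le_mul_of_nonneg_right e1 (by positivity)) e2
            _ = (G : ℝ) / p + (G : ℝ) ^ (1 / 8 : ℝ) := by field_simp
      _ = (∑ q ∈ PQ (G : ℝ), lam q) * ((G : ℝ) / p + (G : ℝ) ^ (1 / 8 : ℝ)) := by rw [sum_mul]
      _ ≤ 1 * ((G : ℝ) / p + (G : ℝ) ^ (1 / 8 : ℝ)) :=
          mul_le_mul_of_nonneg_right hsl (by positivity)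
      _ = _ := one_mul _
  have h8 : (p : ℝ) ≤ (G : ℝ) ^ (1 / 2 : ℝ) := by
    rw [← Real.sqrt_eq_rpow]
    exact Real.le_sqrt_of_sq_le hGr
  have h9 : (G : ℝ) ^ (1 / 2 : ℝ) ≤ (G : ℝ) / p := by
    rw [le_div_iff₀ hp0]
    calc (G : ℝ) ^ (1 / 2 : ℝ) * p ≤ (G : ℝ) ^ (1 / 2 : ℝ) * (G : ℝ) ^ (1 / 2 : ℝ) :=
          mul_le_mul_of_nonneg_left h8 (by positivity)
      _ = G := by rw [← Real.rpow_add hG0]; norm_num
  have h10 : (G : ℝ) ^ (1 / 8 : ℝ) ≤ (G : ℝ) / p :=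
    (Real.rpow_le_rpow_of_exponent_le hG1 (by norm_num)).trans h9
  have h11 : (1 : ℝ) ≤ (G : ℝ) / p := by
    rw [le_div_iff₀ hp0]; nlinarith
  calc ∑ g ∈ S, Real.exp (4 * bs z g) ≤ CQ * (S.card + ∑ q ∈ PQ (G : ℝ), lam q * (q : ℝ) ^ (1 / 8 : ℝ) *
        ((S.filter fun g => q ∣ g).card : ℝ)) := h6
    _ ≤ CQ * (4 * (G : ℝ) / p) := by
        refine mul_le_mul_of_nonneg_left ?_ CQ_pos.le
        have : 4 * (G : ℝ) / p = 4 * ((G : ℝ) / p) := by ring
        rw [this]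
        linarith

open scoped Classical in
/-- the pair sieve with `y = 4` -/
theorem pair4 : ∃ C : ℝ, 0 < C ∧ ∀ (N k r k' r' : ℕ), 4 ^ 16 ≤ N → 0 < k → 0 < k' →
    (((Icc 1 N).filter fun n => (k * n + r).Prime ∧ (k' * n + r').Prime).card : ℝ) ≤
      3 * (N : ℝ) ^ (1 / 2 : ℝ) + C * N / Real.log N ^ 2 *
        Real.exp (4 * bs ((N : ℝ) ^ (1 / 16 : ℝ)) (k * k' * ((k : ℤ) * r' - k' * r).natAbs)) := by
  obtain ⟨C, hC, hprod⟩ := prod_good
  refine ⟨Real.exp K2 * (C * 256 * Real.log 4 ^ 2), by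
    have : 0 < Real.log 4 := Real.log_pos (by norm_num)
    positivity, fun N k r k' r' hN hk hk' => ?_⟩
  set z : ℝ := (N : ℝ) ^ (1 / 16 : ℝ) with hz
  have hNr : (4 : ℝ) ^ 16 ≤ N := by exact_mod_cast hN
  have hz4 : 4 ≤ z := by
    calc (4 : ℝ) = ((4 : ℝ) ^ 16) ^ (1 / 16 : ℝ) := by
          rw [← Real.rpow_natCast, ← Real.rpow_mul (by norm_num)]; norm_num
      _ ≤ z := Real.rpow_le_rpow (by norm_num) hNr (by norm_num)
  have hN1' : (1 : ℝ) ≤ N := by
    refine le_trans ?_ hNr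
    norm_num
  have hlogz : Real.log z = Real.log N / 16 := by
    rw [hz, Real.log_rpow (by linarith)]; ring
  have hcard : ((Icc 1 N).filter fun n => (k * n + r).Prime ∧ (k' * n + r').Prime).card ≤
      ((range N).filter fun n => (k * n + (r + k)).Prime ∧ (k' * n + (r' + k')).Prime).card := by
    refine card_le_card_of_injOn (fun n => n - 1) ?_ ?_
    · intro n hn
      rw [mem_coe, mem_filter, mem_Icc] at hn
      obtain ⟨⟨h1, h2⟩, h3, h4⟩ := hn
      obtain ⟨m, rfl⟩ : ∃ m, n = m + 1 := ⟨n - 1, by omega⟩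
      rw [mem_coe, mem_filter, mem_range]
      simp only [Nat.add_sub_cancel]
      refine ⟨by omega, ?_, ?_⟩
      · convert h3 using 1; ring
      · convert h4 using 1; ring
    · intro a ha b hb hab
      rw [mem_coe, mem_filter, mem_Icc] at ha hb
      simp only at hab
      omega
  have h1 := pair_range N k (r + k) k' (r' + k') 4 z le_rfl (by linarith) hk hk'
  have h2 := hprod k (r + k) k' (r' + k') 4 z le_rfl hz4
  have h4 : (k : ℤ) * ((r' + k' : ℕ) : ℤ) - k' * ((r + k : ℕ) : ℤ) = (k : ℤ) * r' - k' * r := by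
    push_cast; ring
  set h : ℕ := ((k : ℤ) * r' - k' * r).natAbs with hh
  set Bs := ∑ p ∈ (pr 4 z).filter (fun p => ¬ Gd 4 k (r + k) k' (r' + k') p), 1 / (p : ℝ) with hBs
  have h3 : Bs ≤ bs z (k * k' * h) := by
    unfold bs
    refine sum_le_sum_of_subset_of_nonneg ?_ fun p _ _ => by positivity
    intro p hp
    rw [mem_filter] at hp ⊢
    refine ⟨hp.1, ?_⟩
    by_contra hcon
    apply hp.2
    have hp4 := ((mem_pr (by norm_num)).1 hp.1).1
    refine ⟨hp4, fun h5 => hcon ?_, fun h5 => hcon ?_, fun h5 => hcon ?_⟩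
    · exact Dvd.dvd.mul_right (Dvd.dvd.mul_right h5 _) _
    · exact Dvd.dvd.mul_right (Dvd.dvd.mul_left h5 _) _
    · rw [h4] at h5
      exact Dvd.dvd.mul_left (Int.natCast_dvd.1 h5) _
  have h5 : Real.exp (4 * Bs) ≤ Real.exp (4 * bs z (k * k' * h)) :=
    Real.exp_le_exp.2 (by linarith)
  have h6 : ∏ p ∈ (pr 0 z).filter (Gd 4 k (r + k) k' (r' + k')), (1 - g2 p) ≤
      C * (Real.log 4 / Real.log z) ^ 2 * Real.exp (4 * bs z (k * k' * h)) :=
    h2.trans (mul_le_mul_of_nonneg_left h5 (by positivity))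
  have h7 : (N : ℝ) * (Real.exp K2 * ∏ p ∈ (pr 0 z).filter (Gd 4 k (r + k) k' (r' + k')), (1 - g2 p)) ≤
      Real.exp K2 * (C * 256 * Real.log 4 ^ 2) * N / Real.log N ^ 2 * Real.exp (4 * bs z (k * k' * h)) := by
    calc _ ≤ (N : ℝ) * (Real.exp K2 * (C * (Real.log 4 / Real.log z) ^ 2 * Real.exp (4 * bs z (k * k' * h)))) := by
          gcongr
      _ = _ := by
          rw [hlogz]
          have : Real.log 4 / (Real.log N / 16) = 16 * (Real.log 4 / Real.log N) := by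
            rw [div_div_eq_mul_div]; ring
          rw [this, mul_pow, div_pow]; ring
  have h8 : (z + 1) + (z ^ (4 : ℝ)) ^ 2 ≤ 3 * (N : ℝ) ^ (1 / 2 : ℝ) := by
    have a1 : (z ^ (4 : ℝ)) ^ 2 = (N : ℝ) ^ (1 / 2 : ℝ) := by
      rw [hz, ← Real.rpow_mul (by linarith), ← Real.rpow_natCast, ← Real.rpow_mul (by linarith)]
      norm_num
    have a2 : z ≤ (N : ℝ) ^ (1 / 2 : ℝ) := by
      rw [hz]; exact Real.rpow_le_rpow_of_exponent_le hN1' (by norm_num)
    have a3 : (1 : ℝ) ≤ z := by linarith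
    rw [a1]
    linarith
  have h9 : (((Icc 1 N).filter fun n => (k * n + r).Prime ∧ (k' * n + r').Prime).card : ℝ) ≤
      (((range N).filter fun n => (k * n + (r + k)).Prime ∧ (k' * n + (r' + k')).Prime).card : ℝ) := by
    exact_mod_cast hcard
  linarith

end Pool.Agent.ACB13
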