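import Pool.Agent.Lib.MP_acb0a8_nt.Core

/-!
# Parameters and asymptotic inequalities
-/

open Finset Filter

namespace Pool.Agent.ACB

lemma rpow_le_exp_ev (s t u : ℝ) (ht : 0 < t) (hu : 0 < u) :
    ∀ᶠ L : ℝ in atTop, L ^ s ≤ u * Real.exp (t * L) := by
  have h := (isLittleO_rpow_exp_pos_mul_atTop s ht).def hu
  filter_upwards [h, eventually_ge_atTop 0] with L h1 h2
  rw [Real.norm_of_nonneg (Real.rpow_nonneg h2 _), Real.norm_of_nonneg (Real.exp_pos _).le] at h1
  exact h1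

lemma log_le_ev (s t : ℝ) (hs : 0 < s) (ht : 0 < t) :
    ∀ᶠ L : ℝ in atTop, s * Real.log L ≤ t * L := by
  have h := Real.isLittleO_log_id_atTop.def (c := t / s) (by positivity)
  filter_upwards [h, eventually_ge_atTop 1] with L h1 h2
  rw [Real.norm_of_nonneg (Real.log_nonneg h2), id_eq, Real.norm_of_nonneg (by linarith)] at h1
  calc s * Real.log L ≤ s * (t / s * L) := mul_le_mul_of_nonneg_left h1 hs.le
    _ = t * L := by field_simp

lemma alg_low {τ c C2 N V L : ℝ} (hτ : 0 < τ) (hc : 0 < c) (hC2 : 0 < C2) (hN : 0 < N)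
    (hV : 0 < V) (hV1 : V ≤ 1) (hL : 0 < L) :
    τ * c ^ 2 / (36 * (c / 6 + τ * C2)) * N ≤ τ * L * (c * N / (6 * V * L)) ^ 2 /
      (c * N / (6 * V * L) + τ * L * (C2 * N / (V ^ 2 * L ^ 2))) := by
  rw [le_div_iff₀ (by positivity)]
  have g2 : c * N / (6 * V * L) ≤ N / (V ^ 2 * L) * (c / 6) := by
    have g3 : N / (V ^ 2 * L) * (c / 6) = c * N / (6 * V * L) / V := by field_simp
    rw [g3, le_div_iff₀ hV]
    have h1 : 0 ≤ c * N / (6 * V * L) := by positivity
    exact mul_le_of_le_one_right h1 hV1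
  have g4 : τ * L * (C2 * N / (V ^ 2 * L ^ 2)) = N / (V ^ 2 * L) * (τ * C2) := by field_simp
  have g1 : c * N / (6 * V * L) + τ * L * (C2 * N / (V ^ 2 * L ^ 2)) ≤
      N / (V ^ 2 * L) * (c / 6 + τ * C2) := by
    rw [g4, mul_add]
    exact add_le_add_left g2 _
  calc τ * c ^ 2 / (36 * (c / 6 + τ * C2)) * N *
        (c * N / (6 * V * L) + τ * L * (C2 * N / (V ^ 2 * L ^ 2)))
      ≤ τ * c ^ 2 / (36 * (c / 6 + τ * C2)) * N * (N / (V ^ 2 * L) * (c / 6 + τ * C2)) :=
        mul_le_mul_of_nonneg_left g1 (by positivity)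
    _ = τ * L * (c * N / (6 * V * L)) ^ 2 := by field_simp; norm_num

lemma b_bound {L N V W z η bs C3 : ℝ} (hL : 0 < L) (hNL : N = Real.exp L) (hN2 : 2 ≤ N)
    (hbs : 0 ≤ bs) (hV : 0 < V) (hV1 : V ≤ 1) (hW0 : 0 < W) (hη0 : 0 < η) (hη4 : η ≤ 1 / 4)
    (hBη : 12 * (bs + 1) * η = 1 / 4) (hW : W ≤ 1 / (η * L)) (hz0 : 0 < z)
    (hz1 : z ≤ Real.exp (η * L)) (f4 : L ^ (2 : ℝ) ≤ 1 / 4 * Real.exp (3 / 4 * L)) :
    z + (4 * (N + 1) * ((W / V) ^ 2 * Real.exp C3) +
      Real.exp (12 * (bs + 1) * Real.log z + 1)) ≤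
      (8 * Real.exp C3 / η ^ 2 + 1) * N / (V ^ 2 * L ^ 2) := by
  have hzq : z ≤ Real.exp (1 / 4 * L) :=
    hz1.trans (Real.exp_le_exp.2 (mul_le_mul_of_nonneg_right hη4 hL.le))
  have e1 : 4 * (N + 1) * ((W / V) ^ 2 * Real.exp C3) ≤
      8 * Real.exp C3 / η ^ 2 * (N / (V ^ 2 * L ^ 2)) := by
    have e2 : (W / V) ^ 2 ≤ (1 / (η * L) / V) ^ 2 := by gcongr
    calc 4 * (N + 1) * ((W / V) ^ 2 * Real.exp C3)
        ≤ (8 * N) * ((1 / (η * L) / V) ^ 2 * Real.exp C3) := by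
          have e3 : 4 * (N + 1) ≤ 8 * N := by linarith
          gcongr
      _ = _ := by field_simp
  have e4 : Real.exp (12 * (bs + 1) * Real.log z + 1) ≤ 3 * Real.exp (1 / 4 * L) := by
    have e5 : Real.log z ≤ η * L := by
      rw [Real.log_le_iff_le_exp hz0]
      exact hz1
    have e6 : 12 * (bs + 1) * Real.log z + 1 ≤ 1 + 1 / 4 * L := by
      have : 12 * (bs + 1) * Real.log z ≤ 12 * (bs + 1) * (η * L) :=
        mul_le_mul_of_nonneg_left e5 (by positivity)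
      rw [← mul_assoc, hBη] at this
      linarith
    calc Real.exp (12 * (bs + 1) * Real.log z + 1) ≤ Real.exp (1 + 1 / 4 * L) :=
          Real.exp_le_exp.2 e6
      _ = Real.exp 1 * Real.exp (1 / 4 * L) := Real.exp_add _ _
      _ ≤ 3 * Real.exp (1 / 4 * L) := by
          have h1 := Real.exp_one_lt_d9
          exact mul_le_mul_of_nonneg_right (by linarith) (Real.exp_pos _).le
  have e7 : 4 * Real.exp (1 / 4 * L) ≤ N / (V ^ 2 * L ^ 2) := by
    have hVL : V ^ 2 * L ^ 2 ≤ L ^ (2 : ℝ) := by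
      have e9 : L ^ (2 : ℝ) = L ^ 2 := by norm_cast
      rw [e9]
      exact mul_le_of_le_one_left (sq_nonneg L) (pow_le_one₀ hV.le hV1)
    rw [le_div_iff₀ (by positivity)]
    calc 4 * Real.exp (1 / 4 * L) * (V ^ 2 * L ^ 2)
        ≤ 4 * Real.exp (1 / 4 * L) * (1 / 4 * Real.exp (3 / 4 * L)) :=
          mul_le_mul_of_nonneg_left (hVL.trans f4) (by positivity)
      _ = Real.exp (1 / 4 * L) * Real.exp (3 / 4 * L) := by ring
      _ = N := by
          rw [← Real.exp_add, hNL]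
          congr 1; ring
  have e10 : (8 * Real.exp C3 / η ^ 2 + 1) * N / (V ^ 2 * L ^ 2) =
      8 * Real.exp C3 / η ^ 2 * (N / (V ^ 2 * L ^ 2)) + N / (V ^ 2 * L ^ 2) := by
    ring
  rw [e10]
  linarith

lemma last_step {a : ℝ} (ha0 : 0 < a) : ∀ᶠ L : ℝ in atTop, ∀ n : ℝ,
    Real.exp (1 / 2 * L) < n → n ≤ Real.exp L →
    Real.exp (2 * (a * Real.log L / Real.log (Real.log L)) + Real.log L) ≤
      Real.log n ^ (1 + 4 * a / Real.log (Real.log (Real.log n))) := by
  have hlog2 : 0 < Real.log 2 := Real.log_pos (by norm_num)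
  have F1 : ∀ᶠ L : ℝ in atTop, 4 * Real.log 2 + 3 ≤ Real.log L :=
    Real.tendsto_log_atTop.eventually_ge_atTop _
  have F1d : ∀ᶠ L : ℝ in atTop, Real.log 2 * Real.log (Real.log L) ≤ a * Real.log L :=
    Real.tendsto_log_atTop.eventually (log_le_ev _ _ hlog2 ha0)
  filter_upwards [F1, F1d, eventually_gt_atTop 0] with L f1 f1d hL0 n hbig hnL
  have h2d := Real.log_two_lt_d9
  set LL := Real.log L with hLL
  set LLL := Real.log LL with hLLL
  have hLL3 : 3 ≤ LL := by linarith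
  have hLLL0 : 0 < LLL := Real.log_pos (by linarith)
  have hn0 : 0 < n := lt_trans (Real.exp_pos _) hbig
  have h1 : 1 / 2 * L ≤ Real.log n := by
    rw [Real.le_log_iff_exp_le hn0]
    exact hbig.le
  have h2 : Real.log n ≤ L := by
    rw [Real.log_le_iff_le_exp hn0]
    exact hnL
  set u := Real.log n with hu
  have hu0 : 0 < u := by linarith
  have h3 : LL - Real.log 2 ≤ Real.log u := by
    rw [hLL, ← Real.log_div hL0.ne' (by norm_num)]
    exact Real.log_le_log (by positivity) (by linarith)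
  have h4 : Real.log u ≤ LL := Real.log_le_log hu0 h2
  have hlu1 : 1 < Real.log u := by linarith
  have h5 : Real.log (Real.log u) ≤ LLL := Real.log_le_log (by linarith) h4
  have h6 : 0 < Real.log (Real.log u) := Real.log_pos hlu1
  have h7 : 4 * a / LLL ≤ 4 * a / Real.log (Real.log u) :=
    div_le_div_of_nonneg_left (by positivity) h6 h5
  rw [Real.rpow_def_of_pos hu0]
  refine Real.exp_le_exp.2 ?_
  calc 2 * (a * LL / LLL) + LL ≤ (LL - Real.log 2) * (1 + 4 * a / LLL) := by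
        have e2 : (LL - Real.log 2) * (1 + 4 * a / LLL) - (2 * (a * LL / LLL) + LL) =
            (2 * a * LL - 4 * a * Real.log 2 - Real.log 2 * LLL) / LLL := by
          field_simp
          ring
        have e3 : 0 ≤ (2 * a * LL - 4 * a * Real.log 2 - Real.log 2 * LLL) / LLL := by
          apply div_nonneg _ hLLL0.le
          have e4 : a * (4 * Real.log 2) ≤ a * LL :=
            mul_le_mul_of_nonneg_left (by linarith) ha0.le
          linarith
        linarith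
    _ ≤ Real.log u * (1 + 4 * a / Real.log (Real.log u)) := by
        have e5 : 0 < 4 * a / LLL := by positivity
        exact mul_le_mul h3 (by linarith) (by linarith) (by linarith)

lemma params {a δ c C₀ η : ℝ} (ha0 : 0 < a) (hδ0 : 0 < δ) (hc : 0 < c) (hC₀0 : 0 < C₀)
    (hC₀1 : C₀ ≤ 1) (hC₀δ : (Real.log 4 + 4) * C₀ ≤ δ / 2) (hη0 : 0 < η) :
    ∀ᶠ L : ℝ in atTop, ∃ y z J : ℕ, 4 ≤ y ∧ y ≤ z ∧ (z : ℝ) ≤ Real.exp (η * L) ∧
      Real.exp (η * L) < z + 1 ∧ C₀ / 8 * L ≤ ((J / 4 : ℕ) : ℝ) ∧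
      ((primorial y * J : ℕ) : ℝ) ≤
        Real.exp (2 * (a * Real.log L / Real.log (Real.log L)) + Real.log L) ∧
      ((primorial y * J : ℕ) : ℝ) ≤ Real.exp (1 / 4 * L) ∧
      64 * ((primorial y * J : ℕ) : ℝ) ^ 2 ≤ c * Real.exp L / (6 * L) ∧
      4 * (Real.log (64 * ((primorial y * J : ℕ) : ℝ) ^ 5) / Real.log y / y) ≤ 4 * (64 / a) ∧
      ((NN y J : ℕ) : ℝ) ≤ Real.exp (δ * L) := by
  have hlog4 : 0 < Real.log 4 := Real.log_pos (by norm_num)
  have hlog4' : Real.log 4 ≤ 2 := by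
    have : Real.log 4 = 2 * Real.log 2 := by
      rw [show (4 : ℝ) = 2 ^ 2 by norm_num, Real.log_pow]; norm_num
    rw [this]
    linarith [Real.log_two_lt_d9]
  have hTT : Tendsto (fun L : ℝ => Real.log (Real.log L)) atTop atTop :=
    Real.tendsto_log_atTop.comp Real.tendsto_log_atTop
  have F1 : ∀ᶠ L : ℝ in atTop, Real.log 64 + 2 ≤ Real.log L :=
    Real.tendsto_log_atTop.eventually_ge_atTop _
  have F1a : ∀ᶠ L : ℝ in atTop, 8 / a * Real.log (Real.log L) ≤ 1 * Real.log L :=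
    Real.tendsto_log_atTop.eventually (log_le_ev _ _ (by positivity) one_pos)
  have F1b : ∀ᶠ L : ℝ in atTop, 1 + 4 * |Real.log (a / 2)| + a ≤ Real.log (Real.log L) :=
    hTT.eventually_ge_atTop _
  have F1c : ∀ᶠ L : ℝ in atTop, 1 * Real.log (Real.log (Real.log L)) ≤
      1 / 4 * Real.log (Real.log L) :=
    hTT.eventually (log_le_ev _ _ one_pos (by norm_num))
  have F2 : ∀ᶠ L : ℝ in atTop, L ^ (2 * a + 1) ≤ 1 * Real.exp (1 / 4 * L) :=
    rpow_le_exp_ev _ _ _ (by norm_num) one_pos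
  have F3 : ∀ᶠ L : ℝ in atTop, L ^ (4 * a + 3) ≤ c / 384 * Real.exp (1 * L) :=
    rpow_le_exp_ev _ _ _ one_pos (by positivity)
  have F5 : ∀ᶠ L : ℝ in atTop, 2 * a * Real.log L ≤ δ / 2 * L :=
    log_le_ev _ _ (by positivity) (by positivity)
  have F8 : ∀ᶠ L : ℝ in atTop, a * Real.log L ≤ η * L :=
    log_le_ev _ _ (by positivity) hη0
  have F9 : ∀ᶠ L : ℝ in atTop, 8 / C₀ + 1 ≤ L := eventually_ge_atTop _
  filter_upwards [F1, F1a, F1b, F1c, F2, F3, F5, F8, F9] with L f1 f1a f1b f1c f2 f3 f5 f8 f9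
  have h8C : 0 < 8 / C₀ := by positivity
  have hL1 : 1 < L := by linarith
  have hL0 : 0 < L := by linarith
  set LL := Real.log L with hLL
  set LLL := Real.log LL with hLLL
  have hlog64 : 0 ≤ Real.log 64 := Real.log_nonneg (by norm_num)
  have hLL1 : 2 ≤ LL := by linarith
  have hLL0 : 0 < LL := by linarith
  have habs : 0 ≤ |Real.log (a / 2)| := abs_nonneg _
  have hLLL1 : 1 ≤ LLL := by linarith
  have hLLL0 : 0 < LLL := by linarith
  have haLLL : a ≤ LLL := by linarith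
  have hq8 : 8 ≤ a * LL / LLL := by
    rw [le_div_iff₀ hLLL0]
    calc 8 * LLL = a * (8 / a * LLL) := by field_simp
      _ ≤ a * (1 * LL) := mul_le_mul_of_nonneg_left f1a ha0.le
      _ = a * LL := by ring
  have hqa : a * LL / LLL ≤ a * LL := div_le_self (by positivity) hLLL1
  have hqLL : a * LL / LLL ≤ LL := by
    rw [div_le_iff₀ hLLL0, mul_comm]
    exact mul_le_mul_of_nonneg_left haLLL hLL0.le
  set q := a * LL / LLL with hq
  have hy1 : ((⌊q⌋₊ : ℕ) : ℝ) ≤ q := Nat.floor_le (by linarith)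
  have hy2 : q - 1 < (⌊q⌋₊ : ℕ) := Nat.sub_one_lt_floor _
  set y := ⌊q⌋₊ with hy
  have hy4R : (4 : ℝ) ≤ y := by linarith
  have hy4 : 4 ≤ y := by exact_mod_cast hy4R
  have hy8 : q / 2 ≤ y := by linarith
  have hylog : LLL / 2 ≤ Real.log y := by
    have h1 : Real.log (q / 2) ≤ Real.log y := Real.log_le_log (by linarith) hy8
    have h2 : Real.log (q / 2) = Real.log (a / 2) + LLL - Real.log LLL := by
      have : q / 2 = a / 2 * LL / LLL := by rw [hq]; ring
      rw [this, Real.log_div (by positivity) hLLL0.ne', Real.log_mul (by positivity) hLL0.ne']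
    have h3 := neg_abs_le (Real.log (a / 2))
    linarith
  have hz1 : ((⌊Real.exp (η * L)⌋₊ : ℕ) : ℝ) ≤ Real.exp (η * L) := Nat.floor_le (Real.exp_pos _).le
  have hz2 : Real.exp (η * L) < (⌊Real.exp (η * L)⌋₊ : ℕ) + 1 := Nat.lt_floor_add_one _
  have hyz : y ≤ ⌊Real.exp (η * L)⌋₊ := by
    apply Nat.le_floor
    have := Real.add_one_le_exp (η * L)
    linarith
  have hJ1 : ((⌊C₀ * L⌋₊ : ℕ) : ℝ) ≤ C₀ * L := Nat.floor_le (by positivity)
  have hJ2 : C₀ * L - 1 < (⌊C₀ * L⌋₊ : ℕ) := Nat.sub_one_lt_floor _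
  have hC₀L : 8 ≤ C₀ * L := by
    have h1 : 8 / C₀ ≤ L := by linarith
    rw [div_le_iff₀ hC₀0] at h1
    linarith
  set J := ⌊C₀ * L⌋₊ with hJ
  have hJ4R : (1 : ℝ) ≤ J := by linarith
  have hJL : (J : ℝ) ≤ L := hJ1.trans (mul_le_of_le_one_left hL0.le hC₀1)
  have hJq : C₀ / 8 * L ≤ ((J / 4 : ℕ) : ℝ) := by
    have h1 : J ≤ 4 * (J / 4) + 3 := by omega
    have h2 : (J : ℝ) ≤ 4 * ((J / 4 : ℕ) : ℝ) + 3 := by exact_mod_cast h1
    linarith
  have hprim : ((primorial y : ℕ) : ℝ) ≤ Real.exp (2 * q) := by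
    have h1 : ((primorial y : ℕ) : ℝ) ≤ (4 : ℝ) ^ y := by exact_mod_cast primorial_le_four_pow y
    refine h1.trans ?_
    have h2 : (4 : ℝ) ^ y = Real.exp (y * Real.log 4) := by
      rw [Real.exp_nat_mul, Real.exp_log (by norm_num)]
    rw [h2]
    apply Real.exp_le_exp.2
    calc (y : ℝ) * Real.log 4 ≤ q * 2 := mul_le_mul hy1 hlog4' hlog4.le (by linarith)
      _ = 2 * q := by ring
  have hKe : ((primorial y * J : ℕ) : ℝ) ≤ Real.exp (2 * q + LL) := by
    rw [Real.exp_add, Real.exp_log hL0]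
    push_cast
    exact mul_le_mul hprim hJL (Nat.cast_nonneg J) (Real.exp_pos _).le
  have hK1R : (1 : ℝ) ≤ ((primorial y * J : ℕ) : ℝ) := by
    have h1 : 1 ≤ primorial y * J :=
      Nat.mul_pos (primorial_pos y) (by exact_mod_cast (by linarith : (0 : ℝ) < J))
    exact_mod_cast h1
  set K := primorial y * J with hK
  have hKr : (K : ℝ) ≤ L ^ (2 * a + 1) := by
    refine hKe.trans ?_
    rw [Real.rpow_def_of_pos hL0]
    apply Real.exp_le_exp.2
    have : LL * (2 * a + 1) = 2 * (a * LL) + LL := by ring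
    rw [this]
    linarith
  have h64 : 64 * (K : ℝ) ^ 2 ≤ c * Real.exp L / (6 * L) := by
    rw [le_div_iff₀ (by positivity)]
    have h1 : L ^ (4 * a + 3) = (L ^ (2 * a + 1)) ^ 2 * L := by
      rw [sq, ← Real.rpow_add hL0, ← Real.rpow_add_one hL0.ne']
      congr 1; ring
    have h2 : (K : ℝ) ^ 2 ≤ (L ^ (2 * a + 1)) ^ 2 := pow_le_pow_left₀ (Nat.cast_nonneg K) hKr 2
    rw [one_mul] at f3
    calc 64 * (K : ℝ) ^ 2 * (6 * L) = 384 * ((K : ℝ) ^ 2 * L) := by ring
      _ ≤ 384 * ((L ^ (2 * a + 1)) ^ 2 * L) :=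
          mul_le_mul_of_nonneg_left (mul_le_mul_of_nonneg_right h2 hL0.le) (by norm_num)
      _ = 384 * L ^ (4 * a + 3) := by rw [h1]
      _ ≤ 384 * (c / 384 * Real.exp L) := mul_le_mul_of_nonneg_left f3 (by norm_num)
      _ = c * Real.exp L := by ring
  have hC3' : 4 * (Real.log (64 * (K : ℝ) ^ 5) / Real.log y / y) ≤ 4 * (64 / a) := by
    have h1 : Real.log (64 * (K : ℝ) ^ 5) ≤ 16 * LL := by
      rw [Real.log_mul (by norm_num) (by positivity), Real.log_pow]
      have h2 : Real.log (K : ℝ) ≤ 2 * q + LL := by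
        rw [Real.log_le_iff_le_exp (by linarith)]
        exact hKe
      push_cast
      linarith
    refine mul_le_mul_of_nonneg_left ?_ (by norm_num)
    calc Real.log (64 * (K : ℝ) ^ 5) / Real.log y / y
        ≤ (16 * LL) / (LLL / 2) / (q / 2) := by
          have hnum : Real.log (64 * (K : ℝ) ^ 5) / Real.log y ≤ 16 * LL / (LLL / 2) :=
            div_le_div₀ (by positivity) h1 (by positivity) hylog
          exact div_le_div₀ (by positivity) hnum (by linarith) hy8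
      _ = 64 / a := by rw [hq]; field_simp; norm_num
  have hNN : ((NN y J : ℕ) : ℝ) ≤ Real.exp (δ * L) := by
    have h1 : Real.exp (δ * L) = Real.exp (δ / 2 * L) * Real.exp (δ / 2 * L) := by
      rw [← Real.exp_add]
      congr 1; ring
    rw [h1]
    unfold NN
    push_cast
    refine mul_le_mul ?_ ?_ (by positivity) (Real.exp_pos _).le
    · refine hprim.trans (Real.exp_le_exp.2 (le_trans ?_ f5))
      linarith
    · have h2 : ((Nat.lcmUpto J : ℕ) : ℝ) ≤ Real.exp (δ / 2 * L) := by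
        have h3 : (0 : ℝ) < Nat.lcmUpto J := by exact_mod_cast Nat.lcmUpto_pos J
        rw [← Real.exp_log h3, ← Chebyshev.psi_eq_log_lcmUpto]
        apply Real.exp_le_exp.2
        refine (Chebyshev.psi_le_const_mul_self (Nat.cast_nonneg J)).trans ?_
        calc (Real.log 4 + 4) * (J : ℝ) ≤ (Real.log 4 + 4) * (C₀ * L) :=
              mul_le_mul_of_nonneg_left hJ1 (by linarith)
          _ = ((Real.log 4 + 4) * C₀) * L := by ring
          _ ≤ δ / 2 * L := mul_le_mul_of_nonneg_right hC₀δ hL0.le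
      refine le_trans ?_ h2
      exact_mod_cast Nat.ordCompl_le _ 2
  exact ⟨y, _, J, hy4, hyz, hz1, hz2, hJq, hKe, hKr.trans (f2.trans (by rw [one_mul])), h64,
    hC3', hNN⟩

end Pool.Agent.ACB
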