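import Pool.Agent.Lib.MP_acb0a8_nt.H13Avg
import Pool.Agent.Lib.MP_acb0a8_nt.Param

/-!
# Positive proportion of `n` with a prime `k n + p_k`, `k ≤ A log n`: assembly
-/

set_option autoImplicit false

open Finset Filter

namespace Pool.Agent.ACB13

open Pool.Agent.Lib.MP_0bb3d8_nt Pool.Agent.ACB

/-- the average of the singular factor over all pairs -/
def AvgBad : Prop := ∃ C : ℝ, 0 < C ∧ ∃ J₀ : ℕ, ∀ J : ℕ, J₀ ≤ J → ∀ z : ℝ,
    ∑ i ∈ Icc 1 J, ∑ j ∈ (Icc 1 J).erase i,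
      Real.exp (4 * bs z (i * j * ((i : ℤ) * (ACB.pk j : ℕ) - j * (ACB.pk i : ℕ)).natAbs)) ≤
        C * (J : ℝ) ^ 2

/-- the modulus -/
noncomputable def MO (J : ℕ) : ℕ := ordCompl[2] (Nat.lcmUpto J)

lemma dvd_MO {J j : ℕ} (hj : j ∈ Icc 1 J) (h2 : ¬ 2 ∣ j) : j ∣ MO J := by
  unfold MO
  have h1 : j ∣ Nat.lcmUpto J := Finset.dvd_lcm (f := id) hj
  have h3 := Nat.ordProj_mul_ordCompl_eq_self (Nat.lcmUpto J) 2
  rw [← h3] at h1
  refine Nat.Coprime.dvd_of_dvd_mul_left ?_ h1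
  exact (Nat.Coprime.pow_left _ ((Nat.Prime.coprime_iff_not_dvd Nat.prime_two).2 h2)).symm

lemma not_eight_MO (J : ℕ) : ¬ 8 ∣ MO J := by
  intro h
  have h1 := Nat.coprime_ordCompl Nat.prime_two (Nat.lcmUpto_ne_zero J)
  have h2 : 2 ∣ MO J := (by norm_num : 2 ∣ 8).trans h
  have h3 := Nat.Coprime.eq_one_of_dvd h1 h2
  omega

open Classical in
/-- the finite core -/
lemma core13 {c : ℝ} (hc : 0 < c) {N J l : ℕ} {t B : ℝ} (hl : l.Prime) (hl2 : l ≠ 2)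
    (hN : 2 ≤ N) (hAP : ∀ q, q ∣ MO J → ¬ l ∣ q → ∀ b : ZMod q, IsUnit b → ∀ x' : ℝ,
      (N : ℝ) ≤ x' → x' ≤ (N : ℝ) ^ 2 → c * x' / (Nat.totient q * Real.log x') ≤ Lnk.pc q b x')
    (hJN : J ≤ N) (h64 : 64 * (J : ℝ) ^ 2 ≤ c * N / (4 * Real.log N)) (ht : 0 < t)
    (htJ : t ≤ ((J / 4 : ℕ) : ℝ) * (c * N / (4 * Real.log N)))
    (hB : ∑ i ∈ Icc 1 J, ∑ j ∈ (Icc 1 J).erase i,
      (((Icc 1 N).filter fun n => (i * n + pk i).Prime ∧ (j * n + pk j).Prime).card : ℝ) ≤ B) :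
    ∃ U : Finset ℕ, U ⊆ Finset.Icc 1 N ∧
      (∀ n ∈ U, ∃ k, 1 ≤ k ∧ k ≤ J ∧ (k * n + pk k).Prime) ∧ t ^ 2 / (t + B) ≤ U.card := by
  have hNR : (2 : ℝ) ≤ N := by exact_mod_cast hN
  have hL : 0 < Real.log N := Real.log_pos (by linarith)
  set a := c * N / (4 * Real.log N) with ha
  have ha0 : 0 < a := by positivity
  set JJ := (Finset.Icc 1 J).filter fun j => ¬ 2 ∣ j ∧ ¬ l ∣ j with hJJ
  have hJJp : ∀ j ∈ JJ, j ∈ Finset.Icc 1 J ∧ ¬ 2 ∣ j ∧ ¬ l ∣ j := fun j hj => by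
    rw [hJJ, mem_filter] at hj; exact hj
  set S : ℕ → Finset ℕ := fun j => (Finset.Icc 1 N).filter fun n => (j * n + pk j).Prime
    with hS
  have hfirst : ∀ j ∈ JJ, a ≤ (S j).card := by
    intro j hj
    obtain ⟨hj1, hj2⟩ := mem_Icc.1 (hJJp j hj).1
    have hkR : (1 : ℝ) ≤ j := by exact_mod_cast hj1
    have hkJR : (j : ℝ) ≤ J := by exact_mod_cast hj2
    have hJNR : (J : ℝ) ≤ N := by exact_mod_cast hJN
    have hunit : IsUnit ((pk j : ℕ) : ZMod j) :=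
      (ZMod.isUnit_iff_coprime _ _).2 (coprime_pk hj1)
    have h1 := hAP j (dvd_MO (hJJp j hj).1 (hJJp j hj).2.1) (hJJp j hj).2.2 _ hunit
      ((j * N : ℕ) : ℝ) (by push_cast; nlinarith) (by push_cast; nlinarith)
    have h2 := first_moment (N := N) hj1
    have h2' : (Lnk.pc j ((pk j : ℕ) : ZMod j) ((j * N : ℕ) : ℝ) : ℝ) ≤
        pk j + (S j).card := by exact_mod_cast h2
    have h3 : (pk j : ℝ) ≤ 64 * (J : ℝ) ^ 2 := by
      have h4 := pk_le hj1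
      have h5 : (pk j : ℝ) ≤ 64 * (j : ℝ) ^ 2 := by exact_mod_cast h4
      refine h5.trans ?_
      gcongr
    have hphi : (Nat.totient j : ℝ) ≤ j := by exact_mod_cast Nat.totient_le j
    have hphi0 : (0 : ℝ) < Nat.totient j := by exact_mod_cast Nat.totient_pos.2 hj1
    have hlogle : Real.log ((j * N : ℕ) : ℝ) ≤ 2 * Real.log N := by
      have : ((j * N : ℕ) : ℝ) ≤ (N : ℝ) ^ 2 := by push_cast; nlinarith
      calc Real.log ((j * N : ℕ) : ℝ) ≤ Real.log ((N : ℝ) ^ 2) :=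
            Real.log_le_log (by push_cast; nlinarith) this
        _ = 2 * Real.log N := by rw [Real.log_pow]; norm_num
    have hlogpos : 0 < Real.log ((j * N : ℕ) : ℝ) := by
      apply Real.log_pos
      push_cast
      nlinarith
    have h5 : c * N / (2 * Real.log N) ≤
        c * ((j * N : ℕ) : ℝ) / (Nat.totient j * Real.log ((j * N : ℕ) : ℝ)) := by
      rw [div_le_div_iff₀ (by positivity) (by positivity)]
      have h6 : (Nat.totient j : ℝ) * Real.log ((j * N : ℕ) : ℝ) ≤ (j : ℝ) * (2 * Real.log N) :=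
        mul_le_mul hphi hlogle hlogpos.le (by positivity)
      calc c * N * ((Nat.totient j : ℝ) * Real.log ((j * N : ℕ) : ℝ))
          ≤ c * N * ((j : ℝ) * (2 * Real.log N)) :=
            mul_le_mul_of_nonneg_left h6 (by positivity)
        _ = c * ((j * N : ℕ) : ℝ) * (2 * Real.log N) := by push_cast; ring
    have h7 : c * N / (2 * Real.log N) = 2 * a := by
      rw [ha]; field_simp; norm_num
    linarith
  refine ⟨JJ.biUnion S, ?_, ?_, ?_⟩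
  · rw [biUnion_subset]
    exact fun j _ => filter_subset _ _
  · intro n hn
    rw [mem_biUnion] at hn
    obtain ⟨j, hj, hnj⟩ := hn
    rw [hS, mem_filter] at hnj
    obtain ⟨hj1, hj2⟩ := mem_Icc.1 (hJJp j hj).1
    exact ⟨j, hj1, hj2, hnj.2⟩
  · have hcs := cs JJ S
    set T := ∑ j ∈ JJ, ((S j).card : ℝ) with hT
    have hTa : t ≤ T := by
      refine htJ.trans ?_
      have h1 : ((J / 4 : ℕ) : ℝ) ≤ JJ.card := by exact_mod_cast card_odd J l hl hl2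
      calc ((J / 4 : ℕ) : ℝ) * a ≤ (JJ.card : ℝ) * a := mul_le_mul_of_nonneg_right h1 ha0.le
        _ ≤ T := by
            rw [hT, ← nsmul_eq_mul, ← sum_const]
            exact sum_le_sum hfirst
    have hdouble : ∑ i ∈ JJ, ∑ j ∈ JJ, ((S i ∩ S j).card : ℝ) ≤ T + B := by
      have h1 : ∀ i ∈ JJ, ∑ j ∈ JJ, ((S i ∩ S j).card : ℝ) =
          (S i).card + ∑ j ∈ JJ.erase i, ((S i ∩ S j).card : ℝ) := by
        intro i hi
        rw [← add_sum_erase JJ _ hi, inter_self]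
      rw [sum_congr rfl h1, sum_add_distrib]
      have h2 : ∑ i ∈ JJ, ∑ j ∈ JJ.erase i, ((S i ∩ S j).card : ℝ) ≤ B := by
        refine le_trans ?_ hB
        have h3 : ∀ i j, S i ∩ S j = (Icc 1 N).filter fun n => (i * n + pk i).Prime ∧
            (j * n + pk j).Prime := by
          intro i j
          rw [hS]
          ext n
          simp only [mem_inter, mem_filter]
          tauto
        simp only [h3]
        refine (sum_le_sum fun i _ => sum_le_sum_of_subset_of_nonneg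
          (erase_subset_erase i (filter_subset _ _)) fun _ _ _ => Nat.cast_nonneg _).trans ?_
        exact sum_le_sum_of_subset_of_nonneg (filter_subset _ _)
          fun _ _ _ => sum_nonneg fun _ _ => Nat.cast_nonneg _
      linarith
    have hB0 : 0 ≤ B := le_trans (sum_nonneg fun _ _ => sum_nonneg fun _ _ => Nat.cast_nonneg _) hB
    have hfin := cs_final (U := ((JJ.biUnion S).card : ℝ)) (T := T) (a := t) (J' := 1) (b := B)
      one_pos ht hB0 (by rw [one_mul]; exact hTa)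
      (hcs.trans (mul_le_mul_of_nonneg_left (by rw [one_pow, one_mul]; exact hdouble)
        (Nat.cast_nonneg _)))
    rw [one_mul, one_mul] at hfin
    exact hfin

open Classical in
lemma off_bound {C C' : ℝ} (hC : 0 < C) {N J : ℕ} {L : ℝ} (hL : L = Real.log N) (hL0 : 0 < L)
    (hN : 4 ^ 16 ≤ N)
    (hp : ∀ (N k r k' r' : ℕ), 4 ^ 16 ≤ N → 0 < k → 0 < k' →
    (((Icc 1 N).filter fun n => (k * n + r).Prime ∧ (k' * n + r').Prime).card : ℝ) ≤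
      3 * (N : ℝ) ^ (1 / 2 : ℝ) + C * N / Real.log N ^ 2 *
        Real.exp (4 * bs ((N : ℝ) ^ (1 / 16 : ℝ)) (k * k' * ((k : ℤ) * r' - k' * r).natAbs)))
    (ha : ∀ z : ℝ, ∑ i ∈ Icc 1 J, ∑ j ∈ (Icc 1 J).erase i,
      Real.exp (4 * bs z (i * j * ((i : ℤ) * (ACB.pk j : ℕ) - j * (ACB.pk i : ℕ)).natAbs)) ≤
        C' * (J : ℝ) ^ 2)
    (h3 : 3 * (N : ℝ) ^ (1 / 2 : ℝ) ≤ N / L ^ 2) :
    ∑ i ∈ Icc 1 J, ∑ j ∈ (Icc 1 J).erase i,
      (((Icc 1 N).filter fun n => (i * n + pk i).Prime ∧ (j * n + pk j).Prime).card : ℝ) ≤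
      (1 + C * C') * N * (J : ℝ) ^ 2 / L ^ 2 := by
  have h1 : ∑ i ∈ Icc 1 J, ∑ j ∈ (Icc 1 J).erase i,
      (((Icc 1 N).filter fun n => (i * n + pk i).Prime ∧ (j * n + pk j).Prime).card : ℝ) ≤
      ∑ i ∈ Icc 1 J, ∑ j ∈ (Icc 1 J).erase i, (N / L ^ 2 + C * N / L ^ 2 *
        Real.exp (4 * bs ((N : ℝ) ^ (1 / 16 : ℝ))
          (i * j * ((i : ℤ) * (pk j : ℕ) - j * (pk i : ℕ)).natAbs))) := by
    refine sum_le_sum fun i hi => sum_le_sum fun j hj => ?_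
    rw [mem_Icc] at hi
    rw [mem_erase, mem_Icc] at hj
    have h2 := hp N i (pk i) j (pk j) hN (by omega) (by omega)
    rw [← hL] at h2
    linarith
  refine h1.trans ?_
  simp only [sum_add_distrib, ← mul_sum]
  have h4 : ∑ i ∈ Icc 1 J, ∑ _j ∈ (Icc 1 J).erase i, (N / L ^ 2 : ℝ) ≤ N / L ^ 2 * (J : ℝ) ^ 2 := by
    have h5 : ∀ i ∈ Icc 1 J, ∑ _j ∈ (Icc 1 J).erase i, (N / L ^ 2 : ℝ) ≤ J * (N / L ^ 2) := by
      intro i _
      rw [sum_const, nsmul_eq_mul]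
      have h6 : (((Icc 1 J).erase i).card : ℝ) ≤ J := by
        have : ((Icc 1 J).erase i).card ≤ (Icc 1 J).card := card_le_card (erase_subset _ _)
        rw [Nat.card_Icc] at this
        exact_mod_cast (by omega : ((Icc 1 J).erase i).card ≤ J)
      exact mul_le_mul_of_nonneg_right h6 (by positivity)
    refine (sum_le_sum h5).trans (le_of_eq ?_)
    rw [sum_const, Nat.card_Icc, nsmul_eq_mul, Nat.add_sub_cancel]
    ring
  have h7 := mul_le_mul_of_nonneg_left (ha ((N : ℝ) ^ (1 / 16 : ℝ)))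
    (show (0 : ℝ) ≤ C * N / L ^ 2 by positivity)
  have h8 : (1 + C * C') * N * (J : ℝ) ^ 2 / L ^ 2 =
      N / L ^ 2 * (J : ℝ) ^ 2 + C * N / L ^ 2 * (C' * (J : ℝ) ^ 2) := by ring
  rw [h8]
  linarith

open Classical in
/-- removal of the small `n` -/
lemma remove_small13 {C₀ : ℝ} (hC₀ : 0 < C₀) (N J : ℕ) (hN : 0 < N) (U : Finset ℕ)
    (hU1 : U ⊆ Finset.Icc 1 N) (hU2 : ∀ n ∈ U, ∃ k, 1 ≤ k ∧ k ≤ J ∧ (k * n + pk k).Prime)
    (hJq : (J : ℝ) ≤ Real.exp (1 / 4 * Real.log N))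
    (hJL : (J : ℝ) ≤ C₀ * Real.log N) :
    (U.card : ℝ) ≤ (((Finset.Icc 1 N).filter fun n : ℕ => ∃ k : ℕ, 1 ≤ k ∧
      (k : ℝ) ≤ 2 * C₀ * Real.log n ∧ (k : ℝ) < 3 * √(n : ℝ) ∧
      (k * n + ACB.pk k).Prime).card : ℝ) + Real.exp (1 / 2 * Real.log N) := by
  have hN0 : (0 : ℝ) < N := by exact_mod_cast hN
  set L := Real.log (N : ℝ) with hL
  set W := (Finset.Icc 1 N).filter fun n : ℕ => ∃ k : ℕ, 1 ≤ k ∧
      (k : ℝ) ≤ 2 * C₀ * Real.log n ∧ (k : ℝ) < 3 * √(n : ℝ) ∧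
      (k * n + ACB.pk k).Prime with hW
  have hUW : U ⊆ W ∪ Finset.Icc 1 ⌊Real.exp (1 / 2 * L)⌋₊ := by
    intro n hn
    rw [mem_union]
    have hn1 := mem_Icc.1 (hU1 hn)
    by_cases hsm : n ≤ ⌊Real.exp (1 / 2 * L)⌋₊
    · right; exact mem_Icc.2 ⟨hn1.1, hsm⟩
    · left
      have hbig : Real.exp (1 / 2 * L) < n := by
        rw [not_le] at hsm
        exact (Nat.floor_lt (Real.exp_pos _).le).1 hsm
      have hn0 : (0 : ℝ) < n := lt_trans (Real.exp_pos _) hbig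
      obtain ⟨k, hk1, hkJ, hkp⟩ := hU2 n hn
      have hkJR : (k : ℝ) ≤ J := by exact_mod_cast hkJ
      rw [hW, mem_filter, mem_Icc]
      refine ⟨hn1, k, hk1, ?_, ?_, hkp⟩
      · have h1 : 1 / 2 * L ≤ Real.log n := by
          rw [Real.le_log_iff_exp_le hn0]
          exact hbig.le
        have h2 : C₀ * L ≤ C₀ * (2 * Real.log n) := mul_le_mul_of_nonneg_left (by linarith) hC₀.le
        linarith
      · have h1 : Real.exp (1 / 4 * L) ≤ √(n : ℝ) := by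
          apply Real.le_sqrt_of_sq_le
          rw [← Real.exp_nat_mul]
          refine le_trans (Real.exp_le_exp.2 ?_) hbig.le
          push_cast; linarith
        have h2 := Real.exp_pos (1 / 4 * L)
        linarith
  have hcard := (card_le_card hUW).trans (card_union_le _ _)
  rw [Nat.card_Icc] at hcard
  have h1 : (U.card : ℝ) ≤ W.card + (⌊Real.exp (1 / 2 * L)⌋₊ : ℝ) := by
    have : U.card ≤ W.card + ⌊Real.exp (1 / 2 * L)⌋₊ := by omega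
    exact_mod_cast this
  have h2 := Nat.floor_le (Real.exp_pos (1 / 2 * L)).le
  linarith

open Classical in
/-- the form with a constant `B ≤ A` in place of `A` -/
theorem final_aux (havg : AvgBad) (A : ℝ) (hA : 0 < A) :
    ∃ B c : ℝ, 0 < B ∧ B ≤ A ∧ 0 < c ∧ ∃ N₀ : ℕ, ∀ N : ℕ, N₀ ≤ N →
    c * N ≤ (((Icc 1 N).filter fun n : ℕ => ∃ k : ℕ, 1 ≤ k ∧ (k : ℝ) ≤ B * Real.log n ∧
      (k : ℝ) < 3 * Real.sqrt n ∧ (k * n + ACB.pk k).Prime).card : ℝ) := by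
  obtain ⟨δ, c, x₀, hδ0, hδ1, hc, hx₀, hAP⟩ := Lnk.primesAP
  obtain ⟨C, hC, hpair⟩ := pair4
  obtain ⟨C', hC', J₀, havg⟩ := havg
  have hlog4 : 0 < Real.log 4 := Real.log_pos (by norm_num)
  obtain ⟨C₀, hC₀0, hC₀1, hC₀δ, hC₀A⟩ : ∃ C₀ : ℝ, 0 < C₀ ∧ C₀ ≤ 1 ∧
      (Real.log 4 + 4) * C₀ ≤ δ ∧ 2 * C₀ ≤ A := by
    refine ⟨min (min 1 (A / 2)) (δ / (Real.log 4 + 4)),
      lt_min (lt_min one_pos (by positivity)) (by positivity),
      (min_le_left _ _).trans (min_le_left _ _), ?_, ?_⟩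
    · calc (Real.log 4 + 4) * min (min 1 (A / 2)) (δ / (Real.log 4 + 4))
          ≤ (Real.log 4 + 4) * (δ / (Real.log 4 + 4)) :=
            mul_le_mul_of_nonneg_left (min_le_right _ _) (by positivity)
        _ = δ := by field_simp
    · have h1 : min (min 1 (A / 2)) (δ / (Real.log 4 + 4)) ≤ A / 2 :=
        (min_le_left _ _).trans (min_le_right _ _)
      linarith
  set D : ℝ := 1 + C * C' with hD
  have hD0 : 0 < D := by positivity
  set t₀ : ℝ := C₀ / 8 * (c / 4) with ht₀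
  have ht₀0 : 0 < t₀ := by positivity
  set cf : ℝ := t₀ ^ 2 / (t₀ + D) with hcf
  have hcf0 : 0 < cf := by positivity
  refine ⟨2 * C₀, cf / 2, by positivity, hC₀A, by positivity, ?_⟩
  have hT : Tendsto (fun N : ℕ => Real.log (N : ℝ)) atTop atTop :=
    Real.tendsto_log_atTop.comp tendsto_natCast_atTop_atTop
  have F1 : ∀ᶠ L : ℝ in atTop, L ^ (1 : ℝ) ≤ 1 * Real.exp (1 / 4 * L) :=
    rpow_le_exp_ev _ _ _ (by norm_num) one_pos
  have F3 : ∀ᶠ L : ℝ in atTop, L ^ (3 : ℝ) ≤ c / 256 * Real.exp (1 * L) :=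
    rpow_le_exp_ev _ _ _ one_pos (by positivity)
  have F4 : ∀ᶠ L : ℝ in atTop, L ^ (2 : ℝ) ≤ 1 / 3 * Real.exp (1 / 2 * L) :=
    rpow_le_exp_ev _ _ _ (by norm_num) (by norm_num)
  have F7 : ∀ᶠ L : ℝ in atTop, L ^ (0 : ℝ) ≤ cf / 2 * Real.exp (1 / 2 * L) :=
    rpow_le_exp_ev _ _ _ (by norm_num) (by positivity)
  have F9 : ∀ᶠ L : ℝ in atTop, (8 + J₀ + 1) / C₀ + 1 ≤ L := eventually_ge_atTop _
  apply eventually_atTop.1
  filter_upwards [hT.eventually F1, hT.eventually F3, hT.eventually F4, hT.eventually F7,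
    hT.eventually F9, tendsto_natCast_atTop_atTop.eventually_ge_atTop x₀,
    eventually_ge_atTop (4 ^ 16)] with N f1 f3 f4 f7 f9 f10 f11
  have hN2 : 2 ≤ N := le_trans (by norm_num) f11
  have hNR : (2 : ℝ) ≤ N := by exact_mod_cast hN2
  have hN0 : (0 : ℝ) < N := by linarith
  have hNL : Real.exp (Real.log N) = (N : ℝ) := Real.exp_log hN0
  obtain ⟨L, hL⟩ : ∃ L, L = Real.log (N : ℝ) := ⟨_, rfl⟩
  rw [← hL] at f1 f3 f4 f7 f9 hNL
  have h8C : 0 < (8 + (J₀ : ℝ) + 1) / C₀ := by positivity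
  have hL1 : 1 < L := by linarith
  have hL0 : 0 < L := by linarith
  rw [Real.rpow_one, one_mul] at f1
  have f3' : L ^ 3 ≤ c / 256 * N := by
    have e : L ^ (3 : ℝ) = L ^ 3 := by norm_cast
    rw [e, one_mul, hNL] at f3
    exact f3
  have f4' : L ^ 2 ≤ 1 / 3 * Real.exp (1 / 2 * L) := by
    have e : L ^ (2 : ℝ) = L ^ 2 := by norm_cast
    rw [e] at f4
    exact f4
  have hJ1 : ((⌊C₀ * L⌋₊ : ℕ) : ℝ) ≤ C₀ * L := Nat.floor_le (by positivity)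
  have hJ2 : C₀ * L - 1 < (⌊C₀ * L⌋₊ : ℕ) := Nat.sub_one_lt_floor _
  have hC₀L : 8 + (J₀ : ℝ) + 1 ≤ C₀ * L := by
    have h1 : (8 + (J₀ : ℝ) + 1) / C₀ ≤ L := by linarith
    rw [div_le_iff₀ hC₀0] at h1
    linarith
  obtain ⟨J, hJ⟩ : ∃ J, J = ⌊C₀ * L⌋₊ := ⟨_, rfl⟩
  rw [← hJ] at hJ1 hJ2
  have hJ₀0 : (0 : ℝ) ≤ J₀ := Nat.cast_nonneg _
  have hJJ₀ : J₀ ≤ J := by
    have : (J₀ : ℝ) ≤ J := by linarith
    exact_mod_cast this
  have hJL : (J : ℝ) ≤ L := hJ1.trans (mul_le_of_le_one_left hL0.le hC₀1)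
  have hJexp : (J : ℝ) ≤ Real.exp (1 / 4 * L) := hJL.trans f1
  have hJq : C₀ / 8 * L ≤ ((J / 4 : ℕ) : ℝ) := by
    have h1 : J ≤ 4 * (J / 4) + 3 := by omega
    have h2 : (J : ℝ) ≤ 4 * ((J / 4 : ℕ) : ℝ) + 3 := by exact_mod_cast h1
    linarith
  have hJN : J ≤ N := by
    have h1 : (J : ℝ) ≤ N := by
      rw [← hNL]
      exact hJexp.trans (Real.exp_le_exp.2 (by linarith))
    exact_mod_cast h1
  have hMO0 : 0 < MO J := Nat.ordCompl_pos 2 (Nat.lcmUpto_ne_zero J)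
  have hMO : ((MO J : ℕ) : ℝ) ≤ (N : ℝ) ^ δ := by
    rw [Real.rpow_def_of_pos hN0, ← hL, mul_comm]
    have h2 : ((Nat.lcmUpto J : ℕ) : ℝ) ≤ Real.exp (δ * L) := by
      have h3 : (0 : ℝ) < Nat.lcmUpto J := by exact_mod_cast Nat.lcmUpto_pos J
      rw [← Real.exp_log h3, ← Chebyshev.psi_eq_log_lcmUpto]
      apply Real.exp_le_exp.2
      refine (Chebyshev.psi_le_const_mul_self (Nat.cast_nonneg J)).trans ?_
      calc (Real.log 4 + 4) * (J : ℝ) ≤ (Real.log 4 + 4) * (C₀ * L) :=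
            mul_le_mul_of_nonneg_left hJ1 (by linarith)
        _ = ((Real.log 4 + 4) * C₀) * L := by ring
        _ ≤ δ * L := mul_le_mul_of_nonneg_right hC₀δ hL0.le
    refine le_trans ?_ h2
    exact_mod_cast Nat.ordCompl_le _ 2
  obtain ⟨l, hl, hl2, hprog⟩ := hAP N f10 (MO J) hMO0 hMO (not_eight_MO J)
  have h64 : 64 * (J : ℝ) ^ 2 ≤ c * N / (4 * Real.log N) := by
    rw [← hL, le_div_iff₀ (by positivity)]
    calc 64 * (J : ℝ) ^ 2 * (4 * L) = 256 * ((J : ℝ) ^ 2 * L) := by ring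
      _ ≤ 256 * (L ^ 2 * L) := by
          have h1 : (J : ℝ) ^ 2 ≤ L ^ 2 := pow_le_pow_left₀ (Nat.cast_nonneg J) hJL 2
          exact mul_le_mul_of_nonneg_left (mul_le_mul_of_nonneg_right h1 hL0.le) (by norm_num)
      _ = 256 * L ^ 3 := by ring
      _ ≤ 256 * (c / 256 * N) := mul_le_mul_of_nonneg_left f3' (by norm_num)
      _ = c * N := by ring
  have hhalf : (N : ℝ) ^ (1 / 2 : ℝ) = Real.exp (1 / 2 * L) := by
    rw [Real.rpow_def_of_pos hN0, ← hL, mul_comm]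
  have hNN : (N : ℝ) = Real.exp (1 / 2 * L) * Real.exp (1 / 2 * L) := by
    rw [← Real.exp_add, ← hNL]
    congr 1; ring
  have h3 : 3 * (N : ℝ) ^ (1 / 2 : ℝ) ≤ N / L ^ 2 := by
    rw [hhalf, le_div_iff₀ (by positivity)]
    calc 3 * Real.exp (1 / 2 * L) * L ^ 2
        ≤ 3 * Real.exp (1 / 2 * L) * (1 / 3 * Real.exp (1 / 2 * L)) :=
          mul_le_mul_of_nonneg_left f4' (by positivity)
      _ = N := by rw [hNN]; ring
  have hoff := off_bound hC hL hL0 f11 hpair (havg J hJJ₀) h3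
  have hB : (1 + C * C') * N * (J : ℝ) ^ 2 / L ^ 2 ≤ D * N := by
    rw [div_le_iff₀ (by positivity), ← hD]
    have h1 : (J : ℝ) ^ 2 ≤ L ^ 2 := pow_le_pow_left₀ (Nat.cast_nonneg J) hJL 2
    exact mul_le_mul_of_nonneg_left h1 (by positivity)
  have htJ : t₀ * N ≤ ((J / 4 : ℕ) : ℝ) * (c * N / (4 * Real.log N)) := by
    rw [← hL]
    calc t₀ * N = C₀ / 8 * L * (c * N / (4 * L)) := by rw [ht₀]; field_simp
      _ ≤ ((J / 4 : ℕ) : ℝ) * (c * N / (4 * L)) := mul_le_mul_of_nonneg_right hJq (by positivity)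
  obtain ⟨U, hU1, hU2, hU3⟩ := core13 hc hl hl2 hN2 hprog hJN h64 (t := t₀ * N) (B := D * N)
    (by positivity) htJ (hoff.trans hB)
  have hlow : cf * N ≤ U.card := by
    refine le_trans (le_of_eq ?_) hU3
    rw [hcf]
    field_simp
  have hrem := remove_small13 hC₀0 N J (by omega) U hU1 hU2 (by rw [← hL]; exact hJexp)
    (by rw [← hL]; exact hJ1)
  rw [← hL] at hrem
  have hsmall : Real.exp (1 / 2 * L) ≤ cf / 2 * N := by
    rw [Real.rpow_zero] at f7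
    calc Real.exp (1 / 2 * L) = Real.exp (1 / 2 * L) * 1 := (mul_one _).symm
      _ ≤ Real.exp (1 / 2 * L) * (cf / 2 * Real.exp (1 / 2 * L)) :=
          mul_le_mul_of_nonneg_left f7 (Real.exp_pos _).le
      _ = cf / 2 * (Real.exp (1 / 2 * L) * Real.exp (1 / 2 * L)) := by ring
      _ = cf / 2 * N := by rw [← hNN]
  have e : cf * (N : ℝ) = cf / 2 * N + cf / 2 * N := by ring
  linarith

open Classical in
/-- for every `A > 0` -/
theorem final_all (havg : AvgBad) (A : ℝ) (hA : 0 < A) :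
    ∃ c : ℝ, 0 < c ∧ ∃ N₀ : ℕ, ∀ N : ℕ, N₀ ≤ N →
    c * N ≤ (((Icc 1 N).filter fun n : ℕ => ∃ k : ℕ, 1 ≤ k ∧ (k : ℝ) ≤ A * Real.log n ∧
      (k : ℝ) < 3 * Real.sqrt n ∧ (k * n + ACB.pk k).Prime).card : ℝ) := by
  obtain ⟨B, c, hB, hBA, hc, N₀, h⟩ := final_aux havg A hA
  refine ⟨c, hc, N₀, fun N hN => (h N hN).trans ?_⟩
  have hsub : ((Icc 1 N).filter fun n : ℕ => ∃ k : ℕ, 1 ≤ k ∧ (k : ℝ) ≤ B * Real.log n ∧
      (k : ℝ) < 3 * Real.sqrt n ∧ (k * n + ACB.pk k).Prime) ⊆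
      ((Icc 1 N).filter fun n : ℕ => ∃ k : ℕ, 1 ≤ k ∧ (k : ℝ) ≤ A * Real.log n ∧
      (k : ℝ) < 3 * Real.sqrt n ∧ (k * n + ACB.pk k).Prime) := by
    intro n hn
    rw [mem_filter] at hn ⊢
    obtain ⟨hn1, k, hk1, hk2, hk3, hk4⟩ := hn
    refine ⟨hn1, k, hk1, hk2.trans ?_, hk3, hk4⟩
    have h1 : (1 : ℝ) ≤ n := by exact_mod_cast (mem_Icc.1 hn1).1
    exact mul_le_mul_of_nonneg_right hBA (Real.log_nonneg h1)
  exact_mod_cast card_le_card hsub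

open Classical in
theorem final_of (havg : AvgBad) : ∃ A c : ℝ, 0 < A ∧ 0 < c ∧ ∃ N₀ : ℕ, ∀ N : ℕ, N₀ ≤ N →
    c * N ≤ (((Icc 1 N).filter fun n : ℕ => ∃ k : ℕ, 1 ≤ k ∧ (k : ℝ) ≤ A * Real.log n ∧
      (k : ℝ) < 3 * Real.sqrt n ∧ (k * n + ACB.pk k).Prime).card : ℝ) := by
  obtain ⟨c, hc, h⟩ := final_all havg 1 one_pos
  exact ⟨1, c, one_pos, hc, h⟩

end Pool.Agent.ACB13
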