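import Pool.Agent.Lib.MP_acb0a8_nt.H13Avg

/-!
# The classes of `p_j / j` modulo small primes
-/

set_option autoImplicit false

namespace Pool.Agent.ACB13

open Finset Pool.Agent.Lib.MP_0bb3d8_nt

/-- the primes, indexed from zero -/
noncomputable abbrev F (j : ℕ) : ℕ := Nat.nth Nat.Prime j

lemma F_prime (j : ℕ) : (F j).Prime := Nat.prime_nth_prime _

lemma F_strictMono : StrictMono F := Nat.nth_strictMono Nat.infinite_setOfPred_prime

lemma F_le {J : ℕ} (hJ : 200 ≤ J) {j : ℕ} (hj : j ≤ 2 * J) :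
    F j ≤ 200 * J * ⌊Real.log J⌋₊ := by
  have hJr : (200 : ℝ) ≤ J := by exact_mod_cast hJ
  set T := ⌊Real.log (J : ℝ)⌋₊ with hT
  have hl1 : 1 ≤ Real.log (J : ℝ) := by
    rw [Real.le_log_iff_exp_le (by linarith)]
    have := Real.exp_one_lt_d9
    linarith
  have hT1 : 1 ≤ T := Nat.le_floor (by exact_mod_cast hl1)
  have hT1r : (1 : ℝ) ≤ T := by exact_mod_cast hT1
  have hTl : (T : ℝ) ≤ Real.log J := Nat.floor_le (by linarith)
  have hTu : Real.log J < T + 1 := Nat.lt_floor_add_one _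
  have hlJ : Real.log J ≤ J := by
    have := Real.log_le_sub_one_of_pos (show (0 : ℝ) < J by linarith)
    linarith
  set X := 200 * J * T with hX
  have hXr : (X : ℝ) = 200 * J * T := by rw [hX]; push_cast; ring
  have hX4 : 4 ≤ X := by
    rw [hX]
    nlinarith
  have h1 := ACB.pi_lower X hX4
  have hX0 : (0 : ℝ) < X := by exact_mod_cast (by omega : 0 < X)
  have hX1 : (1 : ℝ) < X := by exact_mod_cast (by omega : 1 < X)
  have h2 : Real.log X ≤ 6 * T := by
    have a1 : (X : ℝ) ≤ (J : ℝ) ^ 3 := by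
      rw [hXr]
      have b1 : (T : ℝ) ≤ J := hTl.trans hlJ
      calc 200 * (J : ℝ) * T ≤ J * J * J := by
            have : 200 * (J : ℝ) ≤ J * J := by nlinarith
            exact mul_le_mul this b1 (by positivity) (by positivity)
        _ = (J : ℝ) ^ 3 := by ring
    have a2 := Real.log_le_log hX0 a1
    rw [Real.log_pow] at a2
    push_cast at a2
    linarith
  have h3 : (2 * J + 1 : ℝ) ≤ Nat.primeCounting X := by
    refine le_trans ?_ h1
    have hlX : 0 < Real.log X := Real.log_pos hX1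
    rw [le_div_iff₀ (by positivity), hXr]
    have a3 : (2 * (J : ℝ) + 1) * (4 * Real.log X) ≤ (2 * (J : ℝ) + 1) * (4 * (6 * T)) := by
      gcongr
    rw [hXr] at a3
    nlinarith
  have h4 : 2 * J + 1 ≤ Nat.primeCounting X := by exact_mod_cast h3
  have h5 : j < Nat.count Nat.Prime (X + 1) := by
    unfold Nat.primeCounting Nat.primeCounting' at h4
    omega
  have := Nat.nth_lt_of_lt_count h5
  exact Nat.lt_succ_iff.1 this

lemma gap_sum (J t : ℕ) :
    ∑ j ∈ range J, ((F (j + t) : ℝ) - F j) ≤ (t : ℝ) * F (J + t) := by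
  induction t with
  | zero => simp
  | succ t ih =>
    have h1 : ∑ j ∈ range J, ((F (j + (t + 1)) : ℝ) - F (j + t)) = F (J + t) - F (0 + t) := by
      have := sum_range_sub (fun j => (F (j + t) : ℝ)) J
      rw [← this]
      refine sum_congr rfl fun j _ => ?_
      have : j + (t + 1) = j + 1 + t := by ring
      rw [this]
    have h2 : ∑ j ∈ range J, ((F (j + (t + 1)) : ℝ) - F j) =
        ∑ j ∈ range J, ((F (j + (t + 1)) : ℝ) - F (j + t)) + ∑ j ∈ range J, ((F (j + t) : ℝ) - F j) := by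
      rw [← sum_add_distrib]
      refine sum_congr rfl fun j _ => ?_
      ring
    rw [h2, h1]
    have h3 : (F (J + t) : ℝ) ≤ F (J + (t + 1)) := by
      exact_mod_cast F_strictMono.monotone (by omega)
    have h4 : (0 : ℝ) ≤ F (0 + t) := Nat.cast_nonneg _
    have h5 : (0 : ℝ) ≤ t := Nat.cast_nonneg _
    push_cast
    nlinarith

lemma big_gap (J t G : ℕ) (hG : 0 < G) :
    (((range J).filter fun j => G < F (j + t) - F j).card : ℝ) ≤ (t : ℝ) * F (J + t) / G := by
  have hG0 : (0 : ℝ) < G := by exact_mod_cast hG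
  rw [le_div_iff₀ hG0]
  refine le_trans ?_ (gap_sum J t)
  calc (((range J).filter fun j => G < F (j + t) - F j).card : ℝ) * G
      = ∑ j ∈ (range J).filter (fun j => G < F (j + t) - F j), (G : ℝ) := by
        rw [sum_const, nsmul_eq_mul]
    _ ≤ ∑ j ∈ (range J).filter (fun j => G < F (j + t) - F j), ((F (j + t) : ℝ) - F j) := by
        refine sum_le_sum fun j hj => ?_
        rw [mem_filter] at hj
        have h1 : G + F j ≤ F (j + t) := by omega
        have h2 : (G : ℝ) + F j ≤ F (j + t) := by exact_mod_cast h1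
        linarith
    _ ≤ ∑ j ∈ range J, ((F (j + t) : ℝ) - F j) := by
        refine sum_le_sum_of_subset_of_nonneg (filter_subset _ _) fun j _ _ => ?_
        have : F j ≤ F (j + t) := F_strictMono.monotone (by omega)
        have : (F j : ℝ) ≤ F (j + t) := by exact_mod_cast this
        linarith

/-- blocks -/
lemma block_card (S : Finset ℕ) (J L : ℕ) (hL : 0 < L) (hS : S ⊆ range J) :
    S.card ≤ J / L + 1 + ∑ t ∈ Ico 1 L, (S.filter fun j => j + t ∈ S).card := by
  classical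
  set S' := S.filter (fun j => ∀ t ∈ Ico 1 L, j + t ∉ S) with hS'
  have h1 : S'.card ≤ (range (J / L + 1)).card := by
    refine card_le_card_of_injOn (fun j => j / L) ?_ ?_
    · intro j hj
      rw [mem_coe, hS', mem_filter] at hj
      have := mem_range.1 (hS hj.1)
      simp only [coe_range, Set.mem_Iio]
      exact Nat.lt_succ_of_le (Nat.div_le_div_right this.le)
    · have key : ∀ x ∈ S', ∀ y ∈ S', x < y → x / L ≠ y / L := by
        intro x hx y hy hxy heq
        rw [hS', mem_filter] at hx hy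
        have h2 := Nat.div_add_mod x L
        have h3 := Nat.div_add_mod y L
        have h4 := Nat.mod_lt x hL
        have h5 := Nat.mod_lt y hL
        rw [heq] at h2
        have h6 : y - x < L := by omega
        have h7 := hx.2 (y - x) (mem_Ico.2 ⟨by omega, h6⟩)
        apply h7
        have : x + (y - x) = y := by omega
        rw [this]
        exact hy.1
      intro x hx y hy hxy
      simp only at hxy
      rcases lt_trichotomy x y with h | h | h
      · exact absurd hxy (key x hx y hy h)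
      · exact h
      · exact absurd hxy.symm (key y hy x hx h)
  rw [card_range] at h1
  have h2 : S ⊆ S' ∪ (Ico 1 L).biUnion (fun t => S.filter fun j => j + t ∈ S) := by
    intro j hj
    rw [mem_union, hS', mem_filter, mem_biUnion]
    by_cases h : ∀ t ∈ Ico 1 L, j + t ∉ S
    · left; exact ⟨hj, h⟩
    · right
      push Not at h
      obtain ⟨t, ht, h3⟩ := h
      exact ⟨t, ht, mem_filter.2 ⟨hj, h3⟩⟩
  calc S.card ≤ (S' ∪ (Ico 1 L).biUnion (fun t => S.filter fun j => j + t ∈ S)).card := card_le_card h2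
    _ ≤ S'.card + ((Ico 1 L).biUnion (fun t => S.filter fun j => j + t ∈ S)).card := card_union_le _ _
    _ ≤ _ := Nat.add_le_add h1 card_biUnion_le

open scoped Classical in
lemma shift_card (J p X G t : ℕ) (a : ZMod p) (ht : 1 ≤ t)
    (hX : ∀ j < J, F j ≤ X) (S : Finset ℕ)
    (hS : S = (range J).filter fun j => ((F j : ℕ) : ZMod p) = a * ((j + 1 : ℕ) : ZMod p)) :
    (S.filter fun j => j + t ∈ S).card ≤ ((range J).filter fun j => G < F (j + t) - F j).card +
      ∑ g ∈ (Icc 1 G).filter (fun g : ℕ => (g : ZMod p) = a * t),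
        ((Icc 1 X).filter fun n => (1 * n + 0).Prime ∧ (1 * n + g).Prime).card := by
  have h1 : (S.filter fun j => j + t ∈ S) ⊆ ((range J).filter fun j => G < F (j + t) - F j) ∪
      ((Icc 1 G).filter (fun g : ℕ => (g : ZMod p) = a * t)).biUnion
        (fun g => (range J).filter fun j => (F j + g).Prime) := by
    intro j hj
    rw [mem_filter, hS, mem_filter, mem_filter, mem_range] at hj
    obtain ⟨⟨h2, h3⟩, h4, h5⟩ := hj
    rw [mem_union, mem_filter, mem_range, mem_biUnion]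
    by_cases h6 : G < F (j + t) - F j
    · left; exact ⟨h2, h6⟩
    · right
      have h7 : F j < F (j + t) := F_strictMono (by omega)
      refine ⟨F (j + t) - F j, ?_, ?_⟩
      · rw [mem_filter, mem_Icc]
        refine ⟨⟨by omega, by omega⟩, ?_⟩
        rw [Nat.cast_sub h7.le, h5, h3]
        push_cast
        ring
      · rw [mem_filter, mem_range]
        refine ⟨h2, ?_⟩
        have : F j + (F (j + t) - F j) = F (j + t) := by omega
        rw [this]
        exact F_prime _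
  refine (card_le_card h1).trans ((card_union_le _ _).trans (Nat.add_le_add le_rfl ?_))
  refine card_biUnion_le.trans (sum_le_sum fun g _ => ?_)
  refine card_le_card_of_injOn F ?_ ?_
  · intro j hj
    rw [mem_coe, mem_filter, mem_range] at hj
    rw [mem_coe, mem_filter, mem_Icc]
    simp only [one_mul, add_zero]
    exact ⟨⟨(F_prime j).one_lt.le, hX j hj.1⟩, F_prime j, hj.2⟩
  · intro x _ y _ hxy
    exact F_strictMono.injective hxy

lemma ev_num : ∃ J₀ : ℕ, ∀ J : ℕ, J₀ ≤ J → 720 * Real.log J ^ 7 ≤ Real.sqrt J ∧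
    (4 : ℕ) ^ 16 ≤ J := by
  have h1 := (Real.isLittleO_pow_log_id_atTop (n := 14)).comp_tendsto
    (tendsto_natCast_atTop_atTop (R := ℝ))
  have h2 := h1.def (c := 1 / 720 ^ 2) (by norm_num)
  obtain ⟨J₀, hJ₀⟩ := Filter.eventually_atTop.1 (h2.and (Filter.eventually_ge_atTop (4 ^ 16)))
  refine ⟨J₀, fun J hJ => ?_⟩
  obtain ⟨h3, h4⟩ := hJ₀ J hJ
  refine ⟨?_, h4⟩
  have hJ1 : (1 : ℝ) ≤ J := by
    have : 1 ≤ J := le_trans (by norm_num) h4
    exact_mod_cast this
  have hl : 0 ≤ Real.log J := Real.log_nonneg hJ1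
  simp only [Function.comp, id] at h3
  rw [Real.norm_of_nonneg (by positivity), Real.norm_of_nonneg (by linarith)] at h3
  apply Real.le_sqrt_of_sq_le
  calc (720 * Real.log (J : ℝ) ^ 7) ^ 2 = 720 ^ 2 * Real.log (J : ℝ) ^ 14 := by ring
    _ ≤ 720 ^ 2 * (1 / 720 ^ 2 * (J : ℝ)) := mul_le_mul_of_nonneg_left h3 (by norm_num)
    _ = (J : ℝ) := by ring

/-- row N -/
theorem N_card : ∃ C : ℝ, 0 < C ∧ ∃ J₀ : ℕ, ∀ J : ℕ, J₀ ≤ J → ∀ p : ℕ, p.Prime → Q0 < p →
    (p : ℝ) ^ 2 ≤ Real.log J → ∀ a : ZMod p,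
    (((range J).filter fun j => ((Nat.nth Nat.Prime j : ℕ) : ZMod p) =
      a * ((j + 1 : ℕ) : ZMod p)).card : ℝ) ≤ C * J * (p : ℝ) ^ (-(1 / 8) : ℝ) := by
  classical
  obtain ⟨C, hC, hpair⟩ := pair4
  obtain ⟨J₁, hJ₁⟩ := ev_num
  refine ⟨203 + 12800 * C * CQ, by have := CQ_pos; positivity, J₁, ?_⟩
  intro J hJ p hp hpQ hpJ a
  have := Fact.mk hp
  obtain ⟨hnum, hJ4⟩ := hJ₁ J hJ
  have hJ200 : 200 ≤ J := le_trans (by norm_num) hJ4
  have hJr : (200 : ℝ) ≤ J := by exact_mod_cast hJ200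
  have hJ0 : (0 : ℝ) < J := by linarith
  set T := ⌊Real.log (J : ℝ)⌋₊ with hT
  have hlJ : 0 ≤ Real.log (J : ℝ) := Real.log_nonneg (by linarith)
  have hTl : (T : ℝ) ≤ Real.log J := Nat.floor_le hlJ
  have hpT : p ^ 2 ≤ T := Nat.le_floor (by push_cast; exact hpJ)
  have hp5 : (5 : ℝ) ≤ p := by
    have h1 : (4 : ℝ) < p := lt_of_le_of_lt Q0_ge hpQ
    have h2 : 4 < p := by exact_mod_cast h1
    exact_mod_cast (by omega : 5 ≤ p)
  have hp0 : (0 : ℝ) < p := by linarith
  have hp1 : (1 : ℝ) ≤ p := by linarith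
  have hpTr : (p : ℝ) ^ 2 ≤ T := by exact_mod_cast hpT
  have hpT1 : (p : ℝ) ≤ T := by nlinarith
  have hT1r : (1 : ℝ) ≤ T := by linarith
  have hT0 : (0 : ℝ) < T := by linarith
  set P8 : ℝ := (p : ℝ) ^ (1 / 8 : ℝ) with hP8
  have hP81 : 1 ≤ P8 := Real.one_le_rpow hp1 (by norm_num)
  have hP80 : 0 < P8 := by linarith
  have hPinv : (p : ℝ) ^ (-(1 / 8) : ℝ) = 1 / P8 := by
    rw [Real.rpow_neg hp0.le]
    exact (one_div _).symm
  have hP8T : P8 ≤ T := by
    refine le_trans ?_ hpT1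
    calc P8 ≤ (p : ℝ) ^ (1 : ℝ) := Real.rpow_le_rpow_of_exponent_le hp1 (by norm_num)
      _ = p := Real.rpow_one _
  have hP88 : P8 ^ 8 = p := by
    rw [hP8, ← Real.rpow_natCast, ← Real.rpow_mul hp0.le]; norm_num
  have hsqJ0 : 0 < Real.sqrt J := Real.sqrt_pos.2 hJ0
  have hsqJ : Real.sqrt J * Real.sqrt J = J := Real.mul_self_sqrt hJ0.le
  have hT7 : 720 * (T : ℝ) ^ 7 ≤ Real.sqrt J := by
    refine le_trans ?_ hnum
    gcongr
  -- `1 ≤ J / P8`
  have hone : 1 ≤ J * (1 / P8) := by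
    rw [mul_one_div, le_div_iff₀ hP80, one_mul]
    refine hP8T.trans ?_
    have := Real.log_le_sub_one_of_pos hJ0
    linarith
  rw [hPinv]
  have hCQ := CQ_pos
  set S := (range J).filter fun j => ((Nat.nth Nat.Prime j : ℕ) : ZMod p) =
      a * ((j + 1 : ℕ) : ZMod p) with hS
  by_cases ha : a = 0
  · -- at most one element
    have h1 : S.card ≤ 1 := by
      rw [card_le_one]
      intro x hx y hy
      rw [hS, mem_filter, ha, zero_mul] at hx hy
      have h2 : ∀ j, ((F j : ℕ) : ZMod p) = 0 → F j = p := by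
        intro j hj
        rw [ZMod.natCast_eq_zero_iff] at hj
        exact ((Nat.prime_dvd_prime_iff_eq hp (F_prime j)).1 hj).symm
      exact F_strictMono.injective ((h2 x hx.2).trans (h2 y hy.2).symm)
    have h2 : (S.card : ℝ) ≤ 1 := by exact_mod_cast h1
    have h3 : 0 ≤ 12800 * C * CQ := by positivity
    calc (S.card : ℝ) ≤ J * (1 / P8) := h2.trans hone
      _ = 1 * (J * (1 / P8)) := by ring
      _ ≤ (203 + 12800 * C * CQ) * (J * (1 / P8)) :=
          mul_le_mul_of_nonneg_right (by linarith) (by positivity)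
      _ = _ := by ring
  -- parameters
  set L := ⌈P8⌉₊ with hL
  have hLl : P8 ≤ L := Nat.le_ceil _
  have hLu : (L : ℝ) ≤ 2 * P8 := by
    have := Nat.ceil_lt_add_one hP80.le
    rw [← hL] at this
    linarith
  have hL1 : 1 ≤ L := by
    have : (0 : ℝ) < L := by linarith
    exact_mod_cast this
  have hL0 : (0 : ℝ) < L := by linarith
  have hLp : L ≤ p := by
    have h1 : (L : ℝ) < P8 + 1 := Nat.ceil_lt_add_one hP80.le
    have h2 : P8 + 1 ≤ p := by
      rw [← hP88]
      have hp5' : 5 ≤ P8 ^ 8 := by rw [hP88]; exact hp5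
      by_contra hcon
      push Not at hcon
      by_cases h3 : P8 ≤ 3 / 2
      · linarith
      · push Not at h3
        have h4 : (3 / 2 : ℝ) ^ 7 ≤ P8 ^ 7 := pow_le_pow_left₀ (by norm_num) h3.le 7
        have h5 : P8 ^ 8 = P8 * P8 ^ 7 := by ring
        have h6 : P8 * (3 / 2 : ℝ) ^ 7 ≤ P8 * P8 ^ 7 := mul_le_mul_of_nonneg_left h4 hP80.le
        norm_num at h6
        rw [h5] at hcon
        linarith
    have : (L : ℝ) ≤ p := by linarith
    exact_mod_cast this
  set G := L ^ 3 * T with hG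
  have hGr : (G : ℝ) = (L : ℝ) ^ 3 * T := by rw [hG]; push_cast; ring
  have hT1 : 1 ≤ T := by exact_mod_cast hT1r
  have hG1 : 1 ≤ G := Nat.mul_pos (pow_pos hL1 3) hT1
  have hG0 : (0 : ℝ) < G := by exact_mod_cast hG1
  have hpG : p ^ 2 ≤ G := by
    refine hpT.trans ?_
    rw [hG]
    exact Nat.le_mul_of_pos_left _ (pow_pos hL1 3)
  set X := 200 * J * T with hX
  have hXr : (X : ℝ) = 200 * J * T := by rw [hX]; push_cast; ring
  have hXJ : J ≤ X := by rw [hX]; nlinarith
  have hXJr : (J : ℝ) ≤ X := by exact_mod_cast hXJ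
  have hX0 : (0 : ℝ) < X := by linarith
  have hLJ : L ≤ J := by
    have h1 : (p : ℝ) ≤ J := by
      refine hpT1.trans ?_
      have := Real.log_le_sub_one_of_pos hJ0
      linarith
    exact hLp.trans (by exact_mod_cast h1)
  -- the count
  have hb := block_card S J L hL1 (filter_subset _ _)
  have hs : ∀ t ∈ Ico 1 L, ((S.filter fun j => j + t ∈ S).card : ℝ) ≤
      200 * J / (L : ℝ) ^ 2 + (3 * (G : ℝ) * (X : ℝ) ^ (1 / 2 : ℝ) +
        C * X / Real.log X ^ 2 * (CQ * (4 * (G : ℝ) / p))) := by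
    intro t ht
    rw [mem_Ico] at ht
    have h1 := shift_card J p X G t a ht.1 (fun j hj => F_le hJ200 (by omega)) S hS
    have h2 : ((S.filter fun j => j + t ∈ S).card : ℝ) ≤
        (((range J).filter fun j => G < F (j + t) - F j).card : ℝ) +
        ∑ g ∈ (Icc 1 G).filter (fun g : ℕ => (g : ZMod p) = a * t),
          (((Icc 1 X).filter fun n => (1 * n + 0).Prime ∧ (1 * n + g).Prime).card : ℝ) := by
      exact_mod_cast h1
    have h3 := big_gap J t G hG1
    have h4 : (t : ℝ) * F (J + t) / G ≤ 200 * J / (L : ℝ) ^ 2 := by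
      have a1 : (F (J + t) : ℝ) ≤ X := by exact_mod_cast F_le hJ200 (by omega)
      have a2 : (t : ℝ) ≤ L := by exact_mod_cast ht.2.le
      calc (t : ℝ) * F (J + t) / G ≤ L * X / G := by gcongr
        _ = 200 * J / (L : ℝ) ^ 2 := by
            rw [hXr, hGr]; field_simp
    have hat : a * (t : ZMod p) ≠ 0 := by
      refine mul_ne_zero ha ?_
      rw [Ne, ZMod.natCast_eq_zero_iff]
      intro hd
      have := Nat.le_of_dvd (by omega) hd
      omega
    have h5 := E_sum ((X : ℝ) ^ (1 / 16 : ℝ)) G p hp hpG (a * t) hat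
    have h6 : ∑ g ∈ (Icc 1 G).filter (fun g : ℕ => (g : ZMod p) = a * t),
          (((Icc 1 X).filter fun n => (1 * n + 0).Prime ∧ (1 * n + g).Prime).card : ℝ) ≤
        3 * (G : ℝ) * (X : ℝ) ^ (1 / 2 : ℝ) + C * X / Real.log X ^ 2 * (CQ * (4 * (G : ℝ) / p)) := by
      calc _ ≤ ∑ g ∈ (Icc 1 G).filter (fun g : ℕ => (g : ZMod p) = a * t),
            (3 * (X : ℝ) ^ (1 / 2 : ℝ) + C * X / Real.log X ^ 2 *
              Real.exp (4 * bs ((X : ℝ) ^ (1 / 16 : ℝ)) g)) := by
            refine sum_le_sum fun g _ => ?_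
            have b1 := hpair X 1 0 1 g (hJ4.trans hXJ) one_pos one_pos
            have b2 : 1 * 1 * (((1 : ℕ) : ℤ) * (g : ℤ) - ((1 : ℕ) : ℤ) * ((0 : ℕ) : ℤ)).natAbs = g := by
              push_cast
              simp
            rw [b2] at b1
            convert b1 using 1
        _ = (((Icc 1 G).filter (fun g : ℕ => (g : ZMod p) = a * t)).card : ℝ) *
              (3 * (X : ℝ) ^ (1 / 2 : ℝ)) + C * X / Real.log X ^ 2 *
              ∑ g ∈ (Icc 1 G).filter (fun g : ℕ => (g : ZMod p) = a * t),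
                Real.exp (4 * bs ((X : ℝ) ^ (1 / 16 : ℝ)) g) := by
            rw [sum_add_distrib, sum_const, nsmul_eq_mul, mul_sum]
        _ ≤ _ := by
            refine add_le_add ?_ (mul_le_mul_of_nonneg_left h5 (by positivity))
            have b3 : (((Icc 1 G).filter (fun g : ℕ => (g : ZMod p) = a * t)).card : ℝ) ≤ G := by
              have := card_le_card (filter_subset (fun g : ℕ => (g : ZMod p) = a * t) (Icc 1 G))
              rw [Nat.card_Icc, Nat.add_sub_cancel] at this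
              exact_mod_cast this
            calc _ ≤ (G : ℝ) * (3 * (X : ℝ) ^ (1 / 2 : ℝ)) :=
                  mul_le_mul_of_nonneg_right b3 (by positivity)
              _ = _ := by ring
    linarith
  have hsum : (S.card : ℝ) ≤ (J : ℝ) / L + 1 + L * (200 * J / (L : ℝ) ^ 2 +
      (3 * (G : ℝ) * (X : ℝ) ^ (1 / 2 : ℝ) + C * X / Real.log X ^ 2 * (CQ * (4 * (G : ℝ) / p)))) := by
    have h1 : (S.card : ℝ) ≤ ((J / L : ℕ) : ℝ) + 1 + ∑ t ∈ Ico 1 L, ((S.filter fun j => j + t ∈ S).card : ℝ) := by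
      exact_mod_cast hb
    have h2 : ((J / L : ℕ) : ℝ) ≤ (J : ℝ) / L := Nat.cast_div_le
    set W := 200 * J / (L : ℝ) ^ 2 + (3 * (G : ℝ) * (X : ℝ) ^ (1 / 2 : ℝ) +
      C * X / Real.log X ^ 2 * (CQ * (4 * (G : ℝ) / p))) with hW
    have hW0 : 0 ≤ W := by positivity
    have h3 : ∑ t ∈ Ico 1 L, ((S.filter fun j => j + t ∈ S).card : ℝ) ≤ L * W := by
      calc _ ≤ ∑ t ∈ Ico 1 L, W := sum_le_sum hs
        _ = ((L - 1 : ℕ) : ℝ) * W := by rw [sum_const, Nat.card_Ico, nsmul_eq_mul]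
        _ ≤ L * W := mul_le_mul_of_nonneg_right (by exact_mod_cast Nat.sub_le L 1) hW0
    linarith
  -- bounds
  have k1 : (J : ℝ) / L ≤ J * (1 / P8) := by
    rw [mul_one_div]; gcongr
  have k2 : L * (200 * J / (L : ℝ) ^ 2) ≤ 200 * (J * (1 / P8)) := by
    calc L * (200 * J / (L : ℝ) ^ 2) = 200 * ((J : ℝ) / L) := by field_simp
      _ ≤ _ := by linarith
  have hL2 : (L : ℝ) ^ 4 ≤ 16 * P8 ^ 4 := by
    calc (L : ℝ) ^ 4 ≤ (2 * P8) ^ 4 := pow_le_pow_left₀ hL0.le hLu 4
      _ = 16 * P8 ^ 4 := by ring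
  have k3 : L * (3 * (G : ℝ) * (X : ℝ) ^ (1 / 2 : ℝ)) ≤ J * (1 / P8) := by
    have a1 : (X : ℝ) ^ (1 / 2 : ℝ) ≤ 15 * T * Real.sqrt J := by
      rw [← Real.sqrt_eq_rpow, hXr]
      rw [Real.sqrt_le_left (by positivity)]
      have : (15 * T * Real.sqrt J) ^ 2 = 225 * (T : ℝ) ^ 2 * J := by
        rw [mul_pow, mul_pow, Real.sq_sqrt hJ0.le]; ring
      rw [this]
      have : (T : ℝ) ≤ T ^ 2 := by nlinarith
      nlinarith
    have a2 : L * (3 * (G : ℝ) * (X : ℝ) ^ (1 / 2 : ℝ)) ≤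
        16 * P8 ^ 4 * (3 * T * (15 * T * Real.sqrt J)) := by
      calc L * (3 * (G : ℝ) * (X : ℝ) ^ (1 / 2 : ℝ)) = (L : ℝ) ^ 4 * (3 * T * (X : ℝ) ^ (1 / 2 : ℝ)) := by
            rw [hGr]; ring
        _ ≤ _ := by gcongr
    refine a2.trans ?_
    rw [mul_one_div, le_div_iff₀ hP80]
    have a3 : P8 ^ 5 ≤ (T : ℝ) ^ 5 := pow_le_pow_left₀ hP80.le hP8T 5
    calc 16 * P8 ^ 4 * (3 * T * (15 * T * Real.sqrt J)) * P8
        = 720 * (P8 ^ 5 * (T : ℝ) ^ 2) * Real.sqrt J := by ring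
      _ ≤ 720 * ((T : ℝ) ^ 5 * (T : ℝ) ^ 2) * Real.sqrt J := by gcongr
      _ = (720 * (T : ℝ) ^ 7) * Real.sqrt J := by ring
      _ ≤ Real.sqrt J * Real.sqrt J := mul_le_mul_of_nonneg_right hT7 hsqJ0.le
      _ = J := hsqJ
  have k4 : L * (C * X / Real.log X ^ 2 * (CQ * (4 * (G : ℝ) / p))) ≤
      12800 * C * CQ * (J * (1 / P8)) := by
    have a1 : (T : ℝ) ≤ Real.log X := hTl.trans (Real.log_le_log hJ0 hXJr)
    have a2 : (X : ℝ) / Real.log X ^ 2 ≤ 200 * (J : ℝ) / T := by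
      calc (X : ℝ) / Real.log X ^ 2 ≤ X / (T : ℝ) ^ 2 := by gcongr
        _ = 200 * (J : ℝ) / T := by rw [hXr]; field_simp
    calc L * (C * X / Real.log X ^ 2 * (CQ * (4 * (G : ℝ) / p)))
        = (X / Real.log X ^ 2) * (4 * C * CQ * (L * G / p)) := by ring
      _ ≤ (200 * J / T) * (4 * C * CQ * (L * G / p)) :=
          mul_le_mul_of_nonneg_right a2 (by positivity)
      _ = 800 * C * CQ * J * ((L : ℝ) ^ 4 / p) := by rw [hGr]; field_simp; ring
      _ ≤ 800 * C * CQ * J * (16 * P8 ^ 4 / p) := by gcongr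
      _ = 12800 * C * CQ * (J * (P8 ^ 4 / p)) := by ring
      _ ≤ 12800 * C * CQ * (J * (1 / P8)) := by
          have : P8 ^ 4 / p ≤ 1 / P8 := by
            rw [div_le_div_iff₀ hp0 hP80, ← hP88]
            have h1 : P8 ^ 5 ≤ P8 ^ 8 := pow_le_pow_right₀ hP81 (by norm_num)
            calc P8 ^ 4 * P8 = P8 ^ 5 := by ring
              _ ≤ P8 ^ 8 := h1
              _ = 1 * P8 ^ 8 := (one_mul _).symm
          gcongr
  calc (S.card : ℝ) ≤ _ := hsum
    _ = (J : ℝ) / L + 1 + (L * (200 * J / (L : ℝ) ^ 2) + L * (3 * (G : ℝ) * (X : ℝ) ^ (1 / 2 : ℝ)) +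
        L * (C * X / Real.log X ^ 2 * (CQ * (4 * (G : ℝ) / p)))) := by ring
    _ ≤ J * (1 / P8) + J * (1 / P8) + (200 * (J * (1 / P8)) + J * (1 / P8) +
        12800 * C * CQ * (J * (1 / P8))) := by linarith
    _ = _ := by ring

end Pool.Agent.ACB13
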