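import Mathlib
import Pool.Agent.Lib.MP_0bb3d8_nt.SieveFund
import Pool.Agent.Lib.MP_0bb3d8_nt.HohMertens
import Pool.Agent.Lib.MP_0bb3d8_nt.HohFund
import Pool.Agent.Lib.Burgess.Mertens
import Pool.Agent.Lib.GapSieve.Crt

/-!
# An upper bound sieve for two linear forms (Brun-Hooley)
-/

set_option autoImplicit false

namespace Pool.Agent.ACB13

open Finset Pool.Agent.Lib.MP_0bb3d8_nt

/-- the density of two residue classes -/
noncomputable def g2 (p : ℕ) : ℝ := min (2 / (p : ℝ)) 1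

lemma g2_nonneg (p : ℕ) : 0 ≤ g2 p := le_min (by positivity) zero_le_one

lemma g2_le_one (p : ℕ) : g2 p ≤ 1 := min_le_right _ _

lemma g2_le (p : ℕ) : g2 p ≤ 2 * (1 / (p : ℝ)) := (min_le_left _ _).trans (le_of_eq (by ring))

lemma g2_eq {p : ℕ} (hp : 2 ≤ p) : g2 p = 2 / (p : ℝ) := by
  have h : (2 : ℝ) ≤ p := by exact_mod_cast hp
  exact min_eq_left (by rw [div_le_one (by linarith)]; exact h)

lemma g2_half {p : ℕ} (hp : 5 ≤ p) : g2 p ≤ 1 / 2 := by
  have h : (5 : ℝ) ≤ p := by exact_mod_cast hp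
  rw [g2_eq (by omega), div_le_div_iff₀ (by linarith) (by norm_num)]
  linarith

/-- one sided recursion data -/
structure UStage (P : Finset ℕ) (u : Finset ℕ → ℝ) (B T : ℝ) : Prop where
  u_abs : ∀ S, |u S| ≤ 1
  u_supp : ∀ S ⊆ P, u S ≠ 0 → (∏ p ∈ S, (p : ℝ)) ≤ B
  upper : ∀ x : ℕ → ℝ, (∀ p, 0 ≤ x p) → (∀ p, x p ≤ 1) → ∏ p ∈ P, (1 - x p) ≤ ev P u x
  one_le : 1 ≤ T
  dens : ev P u g2 ≤ T * ∏ p ∈ P, (1 - g2 p)

lemma ustage_empty : UStage ∅ (fun _ => 1) 1 1 where
  u_abs := by simp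
  u_supp := by
    intro S hS _
    rw [Finset.subset_empty.1 hS]; simp
  upper := by intro x _ _; simp [ev]
  one_le := le_rfl
  dens := by simp [ev]

lemma UStage.mono {P : Finset ℕ} {u : Finset ℕ → ℝ} {B T B₁ T₁ : ℝ}
    (h : UStage P u B T) (hB : B ≤ B₁) (hT : T ≤ T₁) : UStage P u B₁ T₁ where
  u_abs := h.u_abs
  u_supp := fun S hS hne => (h.u_supp S hS hne).trans hB
  upper := h.upper
  one_le := h.one_le.trans hT
  dens := h.dens.trans (mul_le_mul_of_nonneg_right hT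
    (Finset.prod_nonneg fun p _ => by linarith [g2_le_one p]))

/-- The block step. -/
lemma ustep {P Q : Finset ℕ} (hPQ : Disjoint P Q) {u : Finset ℕ → ℝ} {B T : ℝ}
    (h : UStage P u B T) {m : ℕ} (hm : Odd m) {z δ : ℝ} (hz : 1 ≤ z) (hB : 0 ≤ B)
    (hQz : ∀ q ∈ Q, (q : ℝ) ≤ z) (hδ : 0 ≤ δ)
    (hE : es m Q g2 ≤ δ * ∏ p ∈ Q, (1 - g2 p)) :
    ∃ u' : Finset ℕ → ℝ, UStage (P ∪ Q) u' (B * z ^ (m - 1)) (T * (1 + δ)) := by
  classical
  have hm1 : 1 ≤ m := hm.pos
  have hpar : (-1 : ℝ) ^ (m + 1) = 1 := by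
    rw [pow_succ, hm.neg_one_pow]; norm_num
  set u' : Finset ℕ → ℝ := fun S => u (S ∩ P) * tr m (S ∩ Q) with hu'
  have evu : ∀ x, ev (P ∪ Q) u' x = ev P u x * ev Q (tr m) x := fun x => ev_mul hPQ u (tr m) x
  have prodS : ∀ S ⊆ P ∪ Q, (∏ p ∈ S, (p : ℝ)) = (∏ p ∈ S ∩ P, (p : ℝ)) * ∏ p ∈ S ∩ Q, (p : ℝ) := by
    intro S hS
    rw [← Finset.prod_union]
    · rw [← Finset.inter_union_distrib_left, Finset.inter_eq_left.2 hS]
    · exact Finset.disjoint_of_subset_left Finset.inter_subset_right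
        (Finset.disjoint_of_subset_right Finset.inter_subset_right hPQ)
  have prodQ : ∀ S k, (S ∩ Q).card ≤ k → (∏ p ∈ S ∩ Q, (p : ℝ)) ≤ z ^ k := by
    intro S k hk
    calc (∏ p ∈ S ∩ Q, (p : ℝ)) ≤ ∏ p ∈ S ∩ Q, z :=
          Finset.prod_le_prod (fun p _ => by positivity)
            (fun p hp => hQz p (Finset.mem_of_mem_inter_right hp))
      _ = z ^ (S ∩ Q).card := by rw [Finset.prod_const]
      _ ≤ z ^ k := pow_le_pow_right₀ hz hk
  have prodP0 : ∀ S : Finset ℕ, 0 ≤ ∏ p ∈ S, (p : ℝ) := fun S => Finset.prod_nonneg fun p _ => by positivity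
  refine ⟨u', ?_⟩
  constructor
  · intro S
    rw [hu', abs_mul]
    calc |u (S ∩ P)| * |tr m (S ∩ Q)| ≤ 1 * 1 :=
        mul_le_mul (h.u_abs _) (tr_abs _ _) (abs_nonneg _) zero_le_one
      _ = 1 := one_mul 1
  · intro S hS hne
    rw [hu'] at hne
    simp only at hne
    have h1 : u (S ∩ P) ≠ 0 := left_ne_zero_of_mul hne
    have h2 : tr m (S ∩ Q) ≠ 0 := right_ne_zero_of_mul hne
    have h3 : (S ∩ Q).card ≤ m - 1 := by
      by_contra hcon
      apply h2
      unfold tr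
      rw [if_neg (by omega)]
    rw [prodS S hS]
    exact mul_le_mul (h.u_supp _ Finset.inter_subset_right h1) (prodQ S _ h3) (prodP0 _) hB
  · intro x hx0 hx1
    rw [evu, Finset.prod_union hPQ]
    obtain ⟨b1, b2⟩ := bonferroni hx0 hx1 Q m
    rw [hpar, one_mul] at b1 b2
    have a1 := h.upper x hx0 hx1
    have p1 := prod_one_sub_mem hx0 hx1 P
    have p2 := prod_one_sub_mem hx0 hx1 Q
    exact mul_le_mul a1 (by linarith) p2.1 (p1.1.trans a1)
  · have := h.one_le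
    nlinarith
  · rw [evu, Finset.prod_union hPQ]
    obtain ⟨b1, b2⟩ := bonferroni g2_nonneg g2_le_one Q m
    rw [hpar, one_mul] at b1 b2
    have p1 := prod_one_sub_mem g2_nonneg g2_le_one P
    have p2 := prod_one_sub_mem g2_nonneg g2_le_one Q
    have a3 := h.dens
    have hT := h.one_le
    set X := ∏ p ∈ P, (1 - g2 p)
    set Y := ∏ p ∈ Q, (1 - g2 p)
    have y1 : ev Q (tr m) g2 ≤ (1 + δ) * Y := by linarith
    have y0 : 0 ≤ ev Q (tr m) g2 := by linarith [p2.1]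
    calc ev P u g2 * ev Q (tr m) g2
        ≤ (T * X) * ((1 + δ) * Y) := mul_le_mul a3 y1 y0 (mul_nonneg (by linarith) p1.1)
      _ = T * (1 + δ) * (X * Y) := by ring

/-- the constant -/
noncomputable def K2 : ℝ := Real.exp (2 * 16 + Real.exp 1 * 16)

lemma K2_pos : 0 < K2 := Real.exp_pos _

/-- block bound -/
lemma es_block2 (Q : Finset ℕ) (hQ : ∀ p ∈ Q, 5 ≤ p) (hL : ∑ p ∈ Q, 1 / (p : ℝ) ≤ 8) (m : ℕ) :
    es m Q g2 ≤ (K2 * Real.exp (-(m : ℝ))) * ∏ p ∈ Q, (1 - g2 p) := by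
  have h1 := es_le g2_nonneg Q m
  have hs : 0 ≤ ∑ p ∈ Q, g2 p := Finset.sum_nonneg fun p _ => g2_nonneg p
  have hs2 : ∑ p ∈ Q, g2 p ≤ 16 := by
    calc ∑ p ∈ Q, g2 p ≤ ∑ p ∈ Q, 2 * (1 / (p : ℝ)) := Finset.sum_le_sum fun p _ => g2_le p
      _ = 2 * ∑ p ∈ Q, 1 / (p : ℝ) := by rw [Finset.mul_sum]
      _ ≤ 16 := by linarith
  have hf : (0 : ℝ) < (m.factorial : ℝ) := by exact_mod_cast Nat.factorial_pos m
  have h2 : (∑ p ∈ Q, g2 p) ^ m / (m.factorial : ℝ) ≤ 16 ^ m / (m.factorial : ℝ) := by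
    gcongr
  have h3 : (16 : ℝ) ^ m / (m.factorial : ℝ) ≤ Real.exp (Real.exp 1 * 16) * Real.exp (-(m : ℝ)) := by
    have h4 := Real.pow_div_factorial_le_exp (x := Real.exp 1 * 16) (by positivity) m
    have h5 : (Real.exp 1 * 16) ^ m / (m.factorial : ℝ) = Real.exp m * (16 ^ m / (m.factorial : ℝ)) := by
      rw [mul_pow, ← Real.exp_nat_mul, mul_one, mul_div_assoc]
    rw [h5] at h4
    rw [Real.exp_neg]
    rw [← div_eq_mul_inv, le_div_iff₀ (Real.exp_pos _), mul_comm]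
    exact h4
  have h6 : Real.exp (-(2 * 16)) ≤ ∏ p ∈ Q, (1 - g2 p) := by
    calc Real.exp (-(2 * 16)) ≤ Real.exp (∑ p ∈ Q, -(2 * g2 p)) := by
          apply Real.exp_le_exp.2
          rw [Finset.sum_neg_distrib, ← Finset.mul_sum]
          linarith
      _ = ∏ p ∈ Q, Real.exp (-(2 * g2 p)) := Real.exp_sum _ _
      _ ≤ ∏ p ∈ Q, (1 - g2 p) := by
          apply Finset.prod_le_prod
          · intro p _; positivity
          · intro p hp
            exact exp_neg_two_mul_le (g2_nonneg p) (g2_half (hQ p hp))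
  calc es m Q g2 ≤ Real.exp (Real.exp 1 * 16) * Real.exp (-(m : ℝ)) :=
        h1.trans (h2.trans h3)
    _ = (K2 * Real.exp (-(m : ℝ))) * Real.exp (-(2 * 16)) := by
        unfold K2
        rw [← Real.exp_add, ← Real.exp_add, ← Real.exp_add]
        congr 1
        ring
    _ ≤ (K2 * Real.exp (-(m : ℝ))) * ∏ p ∈ Q, (1 - g2 p) :=
        mul_le_mul_of_nonneg_left h6 (by have := K2_pos; positivity)

open scoped Classical in
/-- the recursion over the blocks -/
lemma ustages {y : ℝ} (hy : 1 ≤ y) (G : ℕ → Prop) (hG : ∀ p, G p → 5 ≤ p) (k : ℕ) :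
    ∃ u : Finset ℕ → ℝ, UStage ((pr (y ^ ((1 / 2 : ℝ) ^ k)) y).filter G) u (y ^ (expo 0 k))
      (Real.exp (K2 * (1 - Real.exp (-(2 * k))))) := by
  induction k with
  | zero =>
    refine ⟨fun _ => 1, ?_⟩
    have h0 : (pr (y ^ ((1 / 2 : ℝ) ^ 0)) y).filter G = ∅ := by
      rw [Finset.eq_empty_iff_forall_notMem]
      intro p hp
      rw [Finset.mem_filter, pow_zero, Real.rpow_one, mem_pr (by linarith)] at hp
      linarith [hp.1.1, hp.1.2.1]
    rw [h0]
    apply ustage_empty.mono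
    · rw [expo_zero, Real.rpow_zero]
    · simp
  | succ k ih =>
    obtain ⟨u, h⟩ := ih
    set z : ℝ := y ^ ((1 / 2 : ℝ) ^ k) with hz
    set w : ℝ := y ^ ((1 / 2 : ℝ) ^ (k + 1)) with hw
    have hy0 : 0 < y := by linarith
    have hz1 : 1 ≤ z := Real.one_le_rpow hy (by positivity)
    have hw1 : 1 ≤ w := Real.one_le_rpow hy (by positivity)
    have hwz : w ^ 2 = z := by
      rw [hw, hz, ← Real.rpow_natCast, ← Real.rpow_mul hy0.le]
      congr 1
      rw [pow_succ]; push_cast; ring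
    have hwz' : w ≤ z := by rw [← hwz]; nlinarith
    have hzy : z ≤ y := by
      rw [hz]
      calc y ^ ((1 / 2 : ℝ) ^ k) ≤ y ^ (1 : ℝ) := by
            apply Real.rpow_le_rpow_of_exponent_le hy
            exact pow_le_one₀ (by norm_num) (by norm_num)
        _ = y := Real.rpow_one y
    have hsum0 : ∑ p ∈ pr w z, 1 / (p : ℝ) ≤ 8 := by
      rw [← hwz]; exact sum_pr_sq_le hw1
    have hsum : ∑ p ∈ (pr w z).filter G, 1 / (p : ℝ) ≤ 8 :=
      (Finset.sum_le_sum_of_subset_of_nonneg (Finset.filter_subset _ _)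
        (fun p _ _ => by positivity)).trans hsum0
    have hQ : ∀ p ∈ (pr w z).filter G, 5 ≤ p := fun p hp => hG p (Finset.mem_filter.1 hp).2
    have hE := es_block2 ((pr w z).filter G) hQ hsum (2 * k + 1)
    have hodd : Odd (2 * k + 1) := ⟨k, rfl⟩
    have hunion : (pr z y).filter G ∪ (pr w z).filter G = (pr w y).filter G := by
      rw [← Finset.filter_union, pr_union (by linarith) hwz' hzy]
    have hdis : Disjoint ((pr z y).filter G) ((pr w z).filter G) :=
      Finset.disjoint_filter_filter (pr_disjoint (by linarith) hwz')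
    obtain ⟨u', h'⟩ := ustep hdis h hodd hz1 (by positivity)
      (fun q hq => ((mem_pr (by linarith)).1 (Finset.mem_filter.1 hq).1).2.1)
      (by have := K2_pos; positivity) hE
    rw [hunion] at h'
    refine ⟨u', h'.mono ?_ ?_⟩
    · apply le_of_eq
      have e1 : 2 * k + 1 - 1 = 2 * k := by omega
      rw [e1, hz, ← Real.rpow_natCast, ← Real.rpow_mul hy0.le, ← Real.rpow_add hy0, expo_succ]
      congr 1
      push_cast
      ring
    · have hK := K2_pos
      have e1 : K2 * Real.exp (-((2 * k + 1 : ℕ) : ℝ)) = K2 * Real.exp (-(2 * k + 1)) := by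
        congr 2
        push_cast; ring
      rw [e1]
      have e2 : 1 + K2 * Real.exp (-(2 * (k : ℝ) + 1)) ≤ Real.exp (K2 * Real.exp (-(2 * (k : ℝ) + 1))) := by
        rw [add_comm]; exact Real.add_one_le_exp _
      calc Real.exp (K2 * (1 - Real.exp (-(2 * (k : ℝ))))) * (1 + K2 * Real.exp (-(2 * (k : ℝ) + 1)))
          ≤ Real.exp (K2 * (1 - Real.exp (-(2 * (k : ℝ))))) * Real.exp (K2 * Real.exp (-(2 * (k : ℝ) + 1))) :=
            mul_le_mul_of_nonneg_left e2 (Real.exp_pos _).le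
        _ = Real.exp (K2 * ((1 - Real.exp (-(2 * (k : ℝ)))) + Real.exp (-(2 * (k : ℝ) + 1)))) := by
            rw [← Real.exp_add]; congr 1; ring
        _ ≤ Real.exp (K2 * (1 - Real.exp (-(2 * ((k + 1 : ℕ) : ℝ))))) := by
            apply Real.exp_le_exp.2
            apply mul_le_mul_of_nonneg_left _ hK.le
            have f1 : Real.exp (-(2 * (k : ℝ) + 1)) = Real.exp (-(2 * (k : ℝ))) * Real.exp (-1) := by
              rw [← Real.exp_add]; congr 1; ring
            have f2 : Real.exp (-(2 * ((k + 1 : ℕ) : ℝ))) = Real.exp (-(2 * (k : ℝ))) * Real.exp (-1) ^ 2 := by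
              rw [← Real.exp_nat_mul, ← Real.exp_add]; congr 1; push_cast; ring
            rw [f1, f2]
            have f3 : Real.exp (-1) ≤ 1 / 2 := by
              rw [Real.exp_neg, one_div]
              apply inv_anti₀ (by norm_num)
              have := Real.add_one_le_exp (1 : ℝ)
              linarith
            have f4 : 0 < Real.exp (-(2 * (k : ℝ))) := Real.exp_pos _
            have f5 : 0 < Real.exp (-1 : ℝ) := Real.exp_pos _
            nlinarith [mul_pos f4 f5, mul_nonneg f4.le (mul_nonneg (sub_nonneg.2 f3) f5.le)]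

open scoped Classical in
/-- all blocks together -/
lemma ustage_all {z : ℝ} (hz : 1 ≤ z) (G : ℕ → Prop) (hG : ∀ p, G p → 5 ≤ p) :
    ∃ u : Finset ℕ → ℝ, UStage ((pr 0 z).filter G) u (z ^ (4 : ℝ)) (Real.exp K2) := by
  obtain ⟨k, hk⟩ : ∃ k : ℕ, z ^ ((1 / 2 : ℝ) ^ k) < 2 := by
    have h1 : Filter.Tendsto (fun k : ℕ => z ^ ((1 / 2 : ℝ) ^ k)) Filter.atTop (nhds (z ^ (0 : ℝ))) := by
      apply Filter.Tendsto.rpow tendsto_const_nhds
      · exact tendsto_pow_atTop_nhds_zero_of_lt_one (by norm_num) (by norm_num)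
      · left; linarith
    rw [Real.rpow_zero] at h1
    exact (h1.eventually_lt_const (by norm_num)).exists
  obtain ⟨u, h⟩ := ustages hz G hG k
  have hset : pr (z ^ ((1 / 2 : ℝ) ^ k)) z = pr 0 z := by
    have h0 : 0 ≤ z ^ ((1 / 2 : ℝ) ^ k) := by positivity
    ext p
    rw [mem_pr h0, mem_pr le_rfl]
    constructor
    · rintro ⟨h1, h2, h3⟩
      exact ⟨by exact_mod_cast h3.pos, h2, h3⟩
    · rintro ⟨h1, h2, h3⟩
      have : (2 : ℝ) ≤ p := by exact_mod_cast h3.two_le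
      exact ⟨by linarith, h2, h3⟩
  rw [hset] at h
  refine ⟨u, h.mono ?_ ?_⟩
  · apply Real.rpow_le_rpow_of_exponent_le hz
    have := expo_le 0 k
    push_cast at this
    linarith
  · apply Real.exp_le_exp.2
    have : 0 < Real.exp (-(2 * (k : ℝ))) := Real.exp_pos _
    have hK := K2_pos
    nlinarith

/-! ## counting -/

lemma per_sum (f : ℕ → ℝ) (d : ℕ) (hd : 0 < d) (hper : ∀ n, f (n + d) = f n)
    (h0 : ∀ n, 0 ≤ f n) (M : ℕ) :
    |∑ n ∈ range M, f n - (M : ℝ) * ((∑ n ∈ range d, f n) / d)| ≤ ∑ n ∈ range d, f n := by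
  set F := ∑ n ∈ range d, f n with hF
  have hF0 : 0 ≤ F := sum_nonneg fun n _ => h0 n
  have hd' : (0 : ℝ) < d := by exact_mod_cast hd
  induction M using Nat.strong_induction_on with
  | _ M ih =>
    by_cases hM : M < d
    · have h1 : 0 ≤ ∑ n ∈ range M, f n := sum_nonneg fun n _ => h0 n
      have h2 : ∑ n ∈ range M, f n ≤ F :=
        sum_le_sum_of_subset_of_nonneg (range_subset_range.2 hM.le) fun n _ _ => h0 n
      have h3 : 0 ≤ (M : ℝ) * (F / d) := by positivity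
      have h4 : (M : ℝ) * (F / d) ≤ F := by
        rw [mul_div_assoc', div_le_iff₀ hd', mul_comm]
        exact mul_le_mul_of_nonneg_left (by exact_mod_cast hM.le) hF0
      rw [abs_le]; constructor <;> linarith
    · obtain ⟨K, rfl⟩ : ∃ K, M = d + K := ⟨M - d, by omega⟩
      rw [sum_range_add, ← hF]
      have h1 : ∑ x ∈ range K, f (d + x) = ∑ x ∈ range K, f x :=
        sum_congr rfl fun x _ => by rw [add_comm]; exact hper x
      rw [h1]
      have h2 := ih K (by omega)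
      have h3 : F + ∑ x ∈ range K, f x - ((d + K : ℕ) : ℝ) * (F / d) =
          ∑ x ∈ range K, f x - (K : ℝ) * (F / d) := by
        push_cast; field_simp; ring
      rw [h3]; exact h2

lemma sum_range_zmod (N : ℕ) [NeZero N] (F : ZMod N → ℝ) :
    ∑ m ∈ range N, F (m : ZMod N) = ∑ x : ZMod N, F x := by
  refine Finset.sum_nbij' (fun m => (m : ZMod N)) (fun x => x.val) ?_ ?_ ?_ ?_ ?_
  · intro m _; exact mem_univ _
  · intro x _; exact mem_range.2 (ZMod.val_lt x)
  · intro m hm; exact ZMod.val_natCast_of_lt (mem_range.1 hm)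
  · intro x _; exact ZMod.natCast_zmod_val x
  · intro m _; rfl

/-- indicator that `p` divides one of the two forms at `t` -/
noncomputable def X2 (k r k' r' p t : ℕ) : ℝ :=
  if p ∣ (k * t + r) * (k' * t + r') then 1 else 0

lemma X2_nonneg (k r k' r' p t : ℕ) : 0 ≤ X2 k r k' r' p t := by
  unfold X2; split_ifs <;> norm_num

lemma X2_le_one (k r k' r' p t : ℕ) : X2 k r k' r' p t ≤ 1 := by
  unfold X2; split_ifs <;> norm_num

lemma X2_congr (k r k' r' : ℕ) {p s t : ℕ} (h : s ≡ t [MOD p]) :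
    X2 k r k' r' p s = X2 k r k' r' p t := by
  have h1 : (k * s + r) * (k' * s + r') ≡ (k * t + r) * (k' * t + r') [MOD p] :=
    Nat.ModEq.mul ((h.mul_left k).add_right r) ((h.mul_left k').add_right r')
  unfold X2
  have h2 := h1.dvd_iff (dvd_refl p)
  by_cases h3 : p ∣ (k * t + r) * (k' * t + r')
  · rw [if_pos h3, if_pos (h2.2 h3)]
  · rw [if_neg h3, if_neg (fun h4 => h3 (h2.1 h4))]

lemma local_count {p : ℕ} (hp : p.Prime) {k r k' r' : ℕ} (hk : ¬ p ∣ k) (hk' : ¬ p ∣ k')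
    (hh : ¬ (p : ℤ) ∣ (k : ℤ) * r' - k' * r) :
    ∑ a ∈ range p, X2 k r k' r' p a = 2 := by
  classical
  have := Fact.mk hp
  have hk0 : (k : ZMod p) ≠ 0 := by rwa [Ne, ZMod.natCast_eq_zero_iff]
  have hk0' : (k' : ZMod p) ≠ 0 := by rwa [Ne, ZMod.natCast_eq_zero_iff]
  have hdvd : ∀ a : ℕ, p ∣ (k * a + r) * (k' * a + r') ↔
      ((a : ZMod p) = -r / k ∨ (a : ZMod p) = -r' / k') := by
    intro a
    rw [← ZMod.natCast_eq_zero_iff]
    push_cast
    rw [mul_eq_zero]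
    constructor
    · rintro (h | h)
      · left; rw [eq_div_iff hk0]; linear_combination h
      · right; rw [eq_div_iff hk0']; linear_combination h
    · rintro (h | h)
      · left; rw [eq_div_iff hk0] at h; linear_combination h
      · right; rw [eq_div_iff hk0'] at h; linear_combination h
  have hne : (-r / k : ZMod p) ≠ -r' / k' := by
    intro h
    rw [div_eq_div_iff hk0 hk0'] at h
    apply hh
    rw [← ZMod.intCast_zmod_eq_zero_iff_dvd]
    push_cast
    linear_combination h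
  have h1 : ∀ a : ℕ, X2 k r k' r' p a =
      (fun x : ZMod p => if x = -r / k ∨ x = -r' / k' then (1 : ℝ) else 0) (a : ZMod p) := by
    intro a
    unfold X2
    by_cases h3 : p ∣ (k * a + r) * (k' * a + r')
    · rw [if_pos h3]; simp only; rw [if_pos ((hdvd a).1 h3)]
    · rw [if_neg h3]; simp only; rw [if_neg (fun h4 => h3 ((hdvd a).2 h4))]
  have : NeZero p := ⟨hp.ne_zero⟩
  rw [sum_congr rfl fun a _ => h1 a, sum_range_zmod p
    (fun x : ZMod p => if x = -r / k ∨ x = -r' / k' then (1 : ℝ) else 0)]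
  rw [sum_boole]
  have h2 : (univ.filter fun x : ZMod p => x = -r / k ∨ x = -r' / k') =
      {(-r / k : ZMod p), (-r' / k' : ZMod p)} := by
    ext x; simp
  rw [h2, card_pair hne]
  norm_num

/-- good primes -/
def Gd (y : ℝ) (k r k' r' p : ℕ) : Prop :=
  y < p ∧ ¬ p ∣ k ∧ ¬ p ∣ k' ∧ ¬ (p : ℤ) ∣ (k : ℤ) * r' - k' * r

lemma count_S (N k r k' r' : ℕ) (y : ℝ) (S : Finset ℕ)
    (hS : ∀ p ∈ S, p.Prime ∧ Gd y k r k' r' p) :
    |∑ n ∈ range N, ∏ p ∈ S, X2 k r k' r' p n - (N : ℝ) * ∏ p ∈ S, g2 p| ≤ 2 ^ S.card := by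
  have hpos : ∀ p ∈ S, 0 < p := fun p hp => (hS p hp).1.pos
  have h1 := Pool.Agent.GapSieve.crt_prod S hpos
    (fun q hq q' hq' hne => (Nat.coprime_primes (hS q hq).1 (hS q' hq').1).2 hne)
    (fun p t => X2 k r k' r' p t)
    (fun q _ t => X2_congr k r k' r' (by simp [Nat.ModEq]))
  have h2 : ∏ p ∈ S, ∑ a ∈ range p, X2 k r k' r' p a = 2 ^ S.card := by
    rw [prod_congr rfl fun p hp => local_count (hS p hp).1 (hS p hp).2.2.1 (hS p hp).2.2.2.1
      (hS p hp).2.2.2.2, prod_const]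
  rw [h2] at h1
  have hd : 0 < ∏ p ∈ S, p := prod_pos hpos
  have h3 := per_sum (fun t => ∏ p ∈ S, X2 k r k' r' p t) (∏ p ∈ S, p) hd
    (fun n => prod_congr rfl fun p hp => X2_congr k r k' r' (by
      have : p ∣ ∏ p ∈ S, p := dvd_prod_of_mem _ hp
      have h4 : (∏ p ∈ S, p) ≡ 0 [MOD p] := (Nat.modEq_zero_iff_dvd).2 this
      simpa using h4.add_left n))
    (fun n => prod_nonneg fun p _ => X2_nonneg _ _ _ _ _ _) N
  rw [h1] at h3
  have h4 : ∏ p ∈ S, g2 p = 2 ^ S.card / ((∏ p ∈ S, p : ℕ) : ℝ) := by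
    rw [prod_congr rfl fun p hp => g2_eq (hS p hp).1.two_le, prod_div_distrib, prod_const]
    push_cast
    rfl
  rw [h4]
  exact h3

open scoped Classical in
theorem pair_range (N k r k' r' : ℕ) (y z : ℝ) (hy : 4 ≤ y) (hz : 1 ≤ z) (hk : 0 < k)
    (hk' : 0 < k') :
    (((range N).filter fun n => (k * n + r).Prime ∧ (k' * n + r').Prime).card : ℝ) ≤
      (z + 1) + (z ^ (4 : ℝ)) ^ 2 +
        N * (Real.exp K2 * ∏ p ∈ (pr 0 z).filter (Gd y k r k' r'), (1 - g2 p)) := by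
  obtain ⟨u, hu⟩ := ustage_all hz (Gd y k r k' r') (by
    intro p hp
    have h1 : (4 : ℝ) < p := lt_of_le_of_lt hy hp.1
    have h2 : 4 < p := by exact_mod_cast h1
    omega)
  set P := (pr 0 z).filter (Gd y k r k' r') with hP
  set D : ℝ := z ^ (4 : ℝ) with hD
  have hz0 : 0 < z := by linarith
  have hD1 : 1 ≤ D := Real.one_le_rpow hz (by norm_num)
  have hPp : ∀ p ∈ P, p.Prime ∧ (p : ℝ) ≤ z ∧ Gd y k r k' r' p := by
    intro p hp
    rw [hP, mem_filter, mem_pr le_rfl] at hp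
    exact ⟨hp.1.2.2, hp.1.2.1, hp.2⟩
  -- (1)
  have s1 : (((range N).filter fun n => (k * n + r).Prime ∧ (k' * n + r').Prime).card : ℝ) ≤
      (z + 1) + ∑ n ∈ range N, ∏ p ∈ P, (1 - X2 k r k' r' p n) := by
    have a1 : ((range N).filter fun n => (k * n + r).Prime ∧ (k' * n + r').Prime) ⊆
        range (⌊z⌋₊ + 1) ∪ (range N).filter fun n => ∀ p ∈ P, ¬ p ∣ (k * n + r) * (k' * n + r') := by
      intro n hn
      rw [mem_filter] at hn
      rw [mem_union, mem_range, mem_filter]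
      by_cases hnz : (n : ℝ) ≤ z
      · left
        have := Nat.le_floor hnz
        omega
      · right
        push Not at hnz
        refine ⟨hn.1, fun p hp hd => ?_⟩
        obtain ⟨hpp, hpz, _⟩ := hPp p hp
        have hlt : p < n := by
          have : (p : ℝ) < n := lt_of_le_of_lt hpz hnz
          exact_mod_cast this
        rcases (Nat.Prime.dvd_mul hpp).1 hd with h | h
        · have h5 := (Nat.prime_dvd_prime_iff_eq hpp hn.2.1).1 h
          nlinarith
        · have h5 := (Nat.prime_dvd_prime_iff_eq hpp hn.2.2).1 h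
          nlinarith
    have a2 := (card_le_card a1).trans (card_union_le _ _)
    rw [card_range] at a2
    have a3 : (((range N).filter fun n => ∀ p ∈ P, ¬ p ∣ (k * n + r) * (k' * n + r')).card : ℝ) ≤
        ∑ n ∈ range N, ∏ p ∈ P, (1 - X2 k r k' r' p n) := by
      rw [card_filter]
      push_cast
      refine sum_le_sum fun n _ => ?_
      split_ifs with h
      · rw [prod_eq_one]
        intro p hp
        unfold X2
        rw [if_neg (h p hp), sub_zero]
      · exact prod_nonneg fun p _ => by linarith [X2_le_one k r k' r' p n]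
    have a4 : ((⌊z⌋₊ + 1 : ℕ) : ℝ) ≤ z + 1 := by
      push_cast
      linarith [Nat.floor_le hz0.le]
    have a5 : (((range N).filter fun n => (k * n + r).Prime ∧ (k' * n + r').Prime).card : ℝ) ≤
        ((⌊z⌋₊ + 1 : ℕ) : ℝ) +
        (((range N).filter fun n => ∀ p ∈ P, ¬ p ∣ (k * n + r) * (k' * n + r')).card : ℝ) := by
      exact_mod_cast a2
    linarith
  -- (2)
  have s2 : ∑ n ∈ range N, ∏ p ∈ P, (1 - X2 k r k' r' p n) ≤
      ∑ S ∈ P.powerset, u S * ∑ n ∈ range N, ∏ p ∈ S, X2 k r k' r' p n := by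
    calc ∑ n ∈ range N, ∏ p ∈ P, (1 - X2 k r k' r' p n)
        ≤ ∑ n ∈ range N, ev P u (fun p => X2 k r k' r' p n) :=
          sum_le_sum fun n _ => hu.upper _ (fun p => X2_nonneg _ _ _ _ _ _)
            (fun p => X2_le_one _ _ _ _ _ _)
      _ = _ := by
          unfold ev
          rw [sum_comm]
          refine sum_congr rfl fun S _ => ?_
          rw [mul_sum]
  -- (3)
  have s3 : ∀ S ∈ P.powerset, u S * ∑ n ∈ range N, ∏ p ∈ S, X2 k r k' r' p n ≤
      N * (u S * ∏ p ∈ S, g2 p) + (if u S ≠ 0 then D else 0) := by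
    intro S hS
    rw [mem_powerset] at hS
    have hSp : ∀ p ∈ S, p.Prime ∧ Gd y k r k' r' p := fun p hp =>
      ⟨(hPp p (hS hp)).1, (hPp p (hS hp)).2.2⟩
    by_cases h0 : u S = 0
    · rw [if_neg (by simpa using h0), h0]; simp
    · rw [if_pos h0]
      have c1 := count_S N k r k' r' y S hSp
      have c2 := hu.u_abs S
      have c3 : (2 : ℝ) ^ S.card ≤ D := by
        refine le_trans ?_ (hu.u_supp S hS h0)
        rw [← prod_const]
        refine prod_le_prod (fun _ _ => by norm_num) fun p hp => ?_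
        exact_mod_cast (hSp p hp).1.two_le
      have c4 : |u S * (∑ n ∈ range N, ∏ p ∈ S, X2 k r k' r' p n - (N : ℝ) * ∏ p ∈ S, g2 p)| ≤
          1 * 2 ^ S.card := by
        rw [abs_mul]
        exact mul_le_mul c2 c1 (abs_nonneg _) zero_le_one
      have c5 := (abs_le.1 c4).2
      have c6 : u S * (∑ n ∈ range N, ∏ p ∈ S, X2 k r k' r' p n - (N : ℝ) * ∏ p ∈ S, g2 p) =
        u S * (∑ n ∈ range N, ∏ p ∈ S, X2 k r k' r' p n) - N * (u S * ∏ p ∈ S, g2 p) := by ring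
      rw [c6] at c5
      linarith
  -- (4)
  have s4 : ∑ S ∈ P.powerset, (if u S ≠ 0 then D else 0) ≤ D ^ 2 := by
    rw [← sum_filter, sum_const, nsmul_eq_mul, sq]
    refine mul_le_mul_of_nonneg_right ?_ (by linarith)
    have b1 : (P.powerset.filter fun S => u S ≠ 0).card ≤ (Icc 1 ⌊D⌋₊).card := by
      refine card_le_card_of_injOn (fun S => ∏ p ∈ S, p) ?_ ?_
      · intro S hS
        rw [mem_coe, mem_filter, mem_powerset] at hS
        simp only [coe_Icc, Set.mem_Icc]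
        refine ⟨prod_pos fun p hp => (hPp p (hS.1 hp)).1.pos, Nat.le_floor ?_⟩
        push_cast
        exact hu.u_supp S hS.1 hS.2
      · intro S hS S' hS' heq
        rw [mem_coe, mem_filter, mem_powerset] at hS hS'
        simp only at heq
        rw [← Nat.primeFactors_prod (fun p hp => (hPp p (hS.1 hp)).1), heq,
          Nat.primeFactors_prod (fun p hp => (hPp p (hS'.1 hp)).1)]
    rw [Nat.card_Icc, Nat.add_sub_cancel] at b1
    calc ((P.powerset.filter fun S => u S ≠ 0).card : ℝ) ≤ (⌊D⌋₊ : ℝ) := by exact_mod_cast b1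
      _ ≤ D := Nat.floor_le (by linarith)
  have s5 : ∑ S ∈ P.powerset, u S * ∑ n ∈ range N, ∏ p ∈ S, X2 k r k' r' p n ≤
      N * ev P u g2 + D ^ 2 := by
    calc _ ≤ ∑ S ∈ P.powerset, (N * (u S * ∏ p ∈ S, g2 p) + (if u S ≠ 0 then D else 0)) :=
          sum_le_sum s3
      _ = N * ev P u g2 + ∑ S ∈ P.powerset, (if u S ≠ 0 then D else 0) := by
          rw [sum_add_distrib]
          unfold ev
          rw [mul_sum]
      _ ≤ _ := by linarith
  have s6 : (N : ℝ) * ev P u g2 ≤ N * (Real.exp K2 * ∏ p ∈ P, (1 - g2 p)) :=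
    mul_le_mul_of_nonneg_left hu.dens (Nat.cast_nonneg N)
  linarith

/-! ## the product -/

lemma exp_lower {t : ℝ} (h0 : 0 ≤ t) (h1 : t ≤ 1 / 2) : Real.exp (-(t + t ^ 2)) ≤ 1 - t := by
  rw [Real.exp_neg, inv_eq_one_div, div_le_iff₀ (Real.exp_pos _)]
  have h2 : 1 + (t + t ^ 2) + (t + t ^ 2) ^ 2 / 2 ≤ Real.exp (t + t ^ 2) :=
    Real.quadratic_le_exp_of_nonneg (by positivity)
  have h3 : 0 ≤ 1 - t := by linarith
  have h4 : 1 ≤ (1 - t) * (1 + (t + t ^ 2) + (t + t ^ 2) ^ 2 / 2) := by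
    have e : (1 - t) * (1 + (t + t ^ 2) + (t + t ^ 2) ^ 2 / 2) =
      1 + t ^ 2 * ((1 - t) * (1 + t) ^ 2 / 2 - t) := by ring
    rw [e]
    have h5 : 0 ≤ (1 - t) * (1 + t) ^ 2 / 2 - t := by nlinarith [mul_nonneg h0 h0, mul_nonneg h0 (sub_nonneg.2 h1)]
    have := mul_nonneg (sq_nonneg t) h5
    linarith
  exact h4.trans (mul_le_mul_of_nonneg_left h2 h3)

lemma VV_lower : ∃ c : ℝ, 0 < c ∧ ∀ y : ℝ, 2 ≤ y → c / Real.log y ≤ VV y := by
  have hl2 : 0 < Real.log 2 := Real.log_pos (by norm_num)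
  refine ⟨Real.exp (-(1 / 2 + 7 / Real.log 2 + 2)) * Real.log 2, by positivity, fun y hy => ?_⟩
  have hly : 0 < Real.log y := Real.log_pos (by linarith)
  have hf2 : 2 ≤ ⌊y⌋₊ := Nat.le_floor (by exact_mod_cast hy)
  have hprime : ∀ p ∈ pr 0 y, p.Prime := fun p hp => ((mem_pr le_rfl).1 hp).2.2
  have h1 : ∑ p ∈ pr 0 y, 1 / (p : ℝ) ≤
      1 / 2 + (Real.log (Real.log y) - Real.log (Real.log 2) + 7 / Real.log 2) := by
    have a1 : pr 0 y ⊆ insert 2 ((Ioc 2 ⌊y⌋₊).filter Nat.Prime) := by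
      intro p hp
      rw [mem_pr le_rfl] at hp
      rw [mem_insert, mem_filter, mem_Ioc]
      rcases eq_or_lt_of_le hp.2.2.two_le with h | h
      · left; exact h.symm
      · right; exact ⟨⟨h, Nat.le_floor hp.2.1⟩, hp.2.2⟩
    calc ∑ p ∈ pr 0 y, 1 / (p : ℝ) ≤ ∑ p ∈ insert 2 ((Ioc 2 ⌊y⌋₊).filter Nat.Prime), 1 / (p : ℝ) :=
          sum_le_sum_of_subset_of_nonneg a1 fun p _ _ => by positivity
      _ = 1 / 2 + ∑ p ∈ (Ioc 2 ⌊y⌋₊).filter Nat.Prime, 1 / (p : ℝ) := by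
          rw [sum_insert (by simp)]; norm_num
      _ ≤ _ := by
          have a2 := Pool.Agent.Lib.Burgess.recip_primes_le 2 ⌊y⌋₊ le_rfl hf2
          have a3 : Real.log ((⌊y⌋₊ : ℕ) : ℝ) ≤ Real.log y :=
            Real.log_le_log (by exact_mod_cast (by omega : 0 < ⌊y⌋₊)) (Nat.floor_le (by linarith))
          have a4 : 0 < Real.log ((⌊y⌋₊ : ℕ) : ℝ) :=
            Real.log_pos (by exact_mod_cast (by omega : 1 < ⌊y⌋₊))
          have a5 : Real.log (Real.log ((⌊y⌋₊ : ℕ) : ℝ) / Real.log ((2 : ℕ) : ℝ)) ≤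
              Real.log (Real.log y) - Real.log (Real.log 2) := by
            rw [← Real.log_div hly.ne' hl2.ne']
            push_cast
            exact Real.log_le_log (by positivity) (by gcongr)
          push_cast at a2 a5
          linarith
  have h2 : ∑ p ∈ pr 0 y, (1 / (p : ℝ)) ^ 2 ≤ 2 := by
    have a1 : pr 0 y ⊆ Ioo 0 (⌊y⌋₊ + 1) := by
      intro p hp
      rw [mem_pr le_rfl] at hp
      rw [mem_Ioo]
      exact ⟨hp.2.2.pos, Nat.lt_succ_of_le (Nat.le_floor hp.2.1)⟩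
    calc ∑ p ∈ pr 0 y, (1 / (p : ℝ)) ^ 2 ≤ ∑ p ∈ Ioo 0 (⌊y⌋₊ + 1), (1 / (p : ℝ)) ^ 2 :=
          sum_le_sum_of_subset_of_nonneg a1 fun p _ _ => by positivity
      _ = ∑ p ∈ Ioo 0 (⌊y⌋₊ + 1), ((p : ℝ) ^ 2)⁻¹ :=
          sum_congr rfl fun p _ => by rw [one_div, inv_pow]
      _ ≤ 2 / ((0 : ℕ) + 1) := sum_Ioo_inv_sq_le 0 _
      _ = 2 := by norm_num
  have h3 : Real.exp (-(1 / 2 + (Real.log (Real.log y) - Real.log (Real.log 2) + 7 / Real.log 2) + 2)) ≤
      VV y := by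
    unfold VV
    calc _ ≤ Real.exp (∑ p ∈ pr 0 y, -(1 / (p : ℝ) + (1 / (p : ℝ)) ^ 2)) := by
          apply Real.exp_le_exp.2
          rw [sum_neg_distrib, sum_add_distrib]
          linarith
      _ = ∏ p ∈ pr 0 y, Real.exp (-(1 / (p : ℝ) + (1 / (p : ℝ)) ^ 2)) := Real.exp_sum _ _
      _ ≤ _ := by
          refine prod_le_prod (fun _ _ => (Real.exp_pos _).le) fun p hp => ?_
          have : (2 : ℝ) ≤ p := by exact_mod_cast (hprime p hp).two_le
          exact exp_lower (by positivity) (one_div_le_one_div_of_le (by norm_num) this)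
  refine le_trans (le_of_eq ?_) h3
  have e1 : -(1 / 2 + (Real.log (Real.log y) - Real.log (Real.log 2) + 7 / Real.log 2) + 2) =
      -(1 / 2 + 7 / Real.log 2 + 2) + Real.log (Real.log 2) - Real.log (Real.log y) := by ring
  rw [e1, Real.exp_sub, Real.exp_add, Real.exp_log hl2, Real.exp_log hly]

open scoped Classical in
lemma prod_good : ∃ C : ℝ, 0 < C ∧ ∀ (k r k' r' : ℕ) (y z : ℝ), 4 ≤ y → y ≤ z →
    ∏ p ∈ (pr 0 z).filter (Gd y k r k' r'), (1 - g2 p) ≤
      C * (Real.log y / Real.log z) ^ 2 *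
        Real.exp (4 * ∑ p ∈ (pr y z).filter (fun p => ¬ Gd y k r k' r' p), 1 / (p : ℝ)) := by
  obtain ⟨c, hc, hlow⟩ := VV_lower
  obtain ⟨C1, hC1, hup⟩ := Hoh.vUpper
  refine ⟨(C1 / c) ^ 2, by positivity, fun k r k' r' y z hy hyz => ?_⟩
  have hly : 0 < Real.log y := Real.log_pos (by linarith)
  have hlz : 0 < Real.log z := Real.log_pos (by linarith)
  have hsub : (pr 0 z).filter (Gd y k r k' r') = (pr y z).filter (Gd y k r k' r') := by
    ext p
    rw [mem_filter, mem_filter, mem_pr le_rfl, mem_pr (by linarith)]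
    constructor
    · rintro ⟨⟨_, h2, h3⟩, h4⟩; exact ⟨⟨h4.1, h2, h3⟩, h4⟩
    · rintro ⟨⟨_, h2, h3⟩, h4⟩; exact ⟨⟨by exact_mod_cast h3.pos, h2, h3⟩, h4⟩
  rw [hsub]
  set A := (pr y z).filter (Gd y k r k' r') with hA
  set B := (pr y z).filter (fun p => ¬ Gd y k r k' r' p) with hB
  have hpr : ∀ p ∈ pr y z, p.Prime ∧ y < p := fun p hp =>
    ⟨((mem_pr (by linarith)).1 hp).2.2, ((mem_pr (by linarith)).1 hp).1⟩
  have hp5 : ∀ p ∈ pr y z, 5 ≤ p := by
    intro p hp
    have h1 : (4 : ℝ) < p := lt_of_le_of_lt hy (hpr p hp).2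
    have h2 : 4 < p := by exact_mod_cast h1
    omega
  have hf : ∀ p ∈ pr y z, (0 : ℝ) < 1 - 1 / (p : ℝ) := by
    intro p hp
    have h1 : (5 : ℝ) ≤ p := by exact_mod_cast hp5 p hp
    rw [sub_pos, div_lt_one (by linarith)]
    linarith
  have h1 : ∏ p ∈ A, (1 - g2 p) ≤ (∏ p ∈ A, (1 - 1 / (p : ℝ))) ^ 2 := by
    rw [← prod_pow]
    refine prod_le_prod (fun p _ => by linarith [g2_le_one p]) fun p hp => ?_
    have h5 : 5 ≤ p := hp5 p (mem_filter.1 hp).1
    rw [g2_eq (by omega)]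
    have : (1 - 1 / (p : ℝ)) ^ 2 = 1 - 2 / p + (1 / (p : ℝ)) ^ 2 := by ring
    rw [this]
    have := sq_nonneg (1 / (p : ℝ))
    linarith
  have h2 : (∏ p ∈ A, (1 - 1 / (p : ℝ))) * ∏ p ∈ B, (1 - 1 / (p : ℝ)) = VV z / VV y := by
    rw [hA, hB, prod_filter_mul_prod_filter_not, eq_div_iff (VV_pos y).ne']
    unfold VV
    rw [mul_comm, ← prod_union, union_comm, pr_union le_rfl (by linarith) hyz]
    · rw [disjoint_comm]; exact pr_disjoint le_rfl (by linarith)
  have h3 : Real.exp (-(2 * ∑ p ∈ B, 1 / (p : ℝ))) ≤ ∏ p ∈ B, (1 - 1 / (p : ℝ)) :=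
    exp_le_prod B (fun p hp => (hpr p (mem_filter.1 hp).1).1) le_rfl
  have hA0 : 0 < ∏ p ∈ A, (1 - 1 / (p : ℝ)) := prod_pos fun p hp => hf p (mem_filter.1 hp).1
  have h4 : VV z / VV y ≤ (C1 / c) * (Real.log y / Real.log z) := by
    have a1 : VV z ≤ C1 / Real.log z := by rw [← Hoh.V_eq_VV]; exact hup z (by linarith)
    have a2 := hlow y (by linarith)
    calc VV z / VV y ≤ (C1 / Real.log z) / (c / Real.log y) := by
          apply div_le_div₀ (by positivity) a1 (by positivity) a2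
      _ = _ := by field_simp
  have h5 : ∏ p ∈ A, (1 - 1 / (p : ℝ)) ≤
      (C1 / c) * (Real.log y / Real.log z) * Real.exp (2 * ∑ p ∈ B, 1 / (p : ℝ)) := by
    have a1 : (∏ p ∈ A, (1 - 1 / (p : ℝ))) * Real.exp (-(2 * ∑ p ∈ B, 1 / (p : ℝ))) ≤
        (C1 / c) * (Real.log y / Real.log z) :=
      (mul_le_mul_of_nonneg_left h3 hA0.le).trans (h2.le.trans h4)
    rw [Real.exp_neg, ← div_eq_mul_inv, div_le_iff₀ (Real.exp_pos _)] at a1
    exact a1
  calc ∏ p ∈ A, (1 - g2 p) ≤ (∏ p ∈ A, (1 - 1 / (p : ℝ))) ^ 2 := h1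
    _ ≤ ((C1 / c) * (Real.log y / Real.log z) * Real.exp (2 * ∑ p ∈ B, 1 / (p : ℝ))) ^ 2 :=
        pow_le_pow_left₀ hA0.le h5 2
    _ = _ := by
        rw [mul_pow, mul_pow, ← Real.exp_nat_mul]
        congr 2
        push_cast
        ring

lemma card_pf_le (H : ℕ) (hH : H ≠ 0) : (H.primeFactors.card : ℝ) * Real.log 2 ≤ Real.log H := by
  have h1 : 2 ^ H.primeFactors.card ≤ H := by
    calc 2 ^ H.primeFactors.card = ∏ _p ∈ H.primeFactors, 2 := by rw [prod_const]
      _ ≤ ∏ p ∈ H.primeFactors, p :=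
          prod_le_prod' fun p hp => (Nat.prime_of_mem_primeFactors hp).two_le
      _ ≤ H := Nat.le_of_dvd (Nat.pos_of_ne_zero hH) (Nat.prod_primeFactors_dvd H)
  rw [← Real.log_pow]
  exact Real.log_le_log (by positivity) (by exact_mod_cast h1)

open scoped Classical in
lemma bad_sum (k r k' r' : ℕ) (y z : ℝ) (hy : 4 ≤ y) (hk : 0 < k) (hk' : 0 < k')
    (hne : k * r' ≠ k' * r) :
    ∑ p ∈ (pr y z).filter (fun p => ¬ Gd y k r k' r' p), 1 / (p : ℝ) ≤
      2 * Real.log ((k : ℝ) * k' * |(k : ℝ) * r' - k' * r|) / y := by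
  set h : ℕ := ((k : ℤ) * r' - k' * r).natAbs with hh
  have hne' : ((k : ℤ) * r' - k' * r) ≠ 0 := by
    intro h0
    apply hne
    have : (k : ℤ) * r' = k' * r := by linarith
    exact_mod_cast this
  have hh0 : h ≠ 0 := by rw [hh]; exact Int.natAbs_ne_zero.2 hne'
  have hH : k * k' * h ≠ 0 := mul_ne_zero (mul_ne_zero hk.ne' hk'.ne') hh0
  have h1 : (pr y z).filter (fun p => ¬ Gd y k r k' r' p) ⊆ (k * k' * h).primeFactors := by
    intro p hp
    rw [mem_filter, mem_pr (by linarith)] at hp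
    obtain ⟨⟨h2, _, h3⟩, h4⟩ := hp
    rw [Nat.mem_primeFactors]
    refine ⟨h3, ?_, hH⟩
    by_contra hcon
    apply h4
    refine ⟨h2, fun h5 => hcon ?_, fun h5 => hcon ?_, fun h5 => hcon ?_⟩
    · exact Dvd.dvd.mul_right (Dvd.dvd.mul_right h5 _) _
    · exact Dvd.dvd.mul_right (Dvd.dvd.mul_left h5 _) _
    · exact Dvd.dvd.mul_left (Int.natCast_dvd.1 h5) _
  have h2 : ∑ p ∈ (pr y z).filter (fun p => ¬ Gd y k r k' r' p), 1 / (p : ℝ) ≤
      ((k * k' * h).primeFactors.card : ℝ) * (1 / y) := by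
    calc _ ≤ ∑ p ∈ (pr y z).filter (fun p => ¬ Gd y k r k' r' p), 1 / y := by
          refine sum_le_sum fun p hp => ?_
          rw [mem_filter, mem_pr (by linarith)] at hp
          exact one_div_le_one_div_of_le (by linarith) hp.1.1.le
      _ = (((pr y z).filter (fun p => ¬ Gd y k r k' r' p)).card : ℝ) * (1 / y) := by
          rw [sum_const, nsmul_eq_mul]
      _ ≤ _ := by
          refine mul_le_mul_of_nonneg_right ?_ (by positivity)
          exact_mod_cast card_le_card h1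
  have h3 := card_pf_le (k * k' * h) hH
  have h4 : ((k * k' * h : ℕ) : ℝ) = (k : ℝ) * k' * |(k : ℝ) * r' - k' * r| := by
    have h5 : ((h : ℤ) : ℝ) = |(k : ℝ) * r' - k' * r| := by
      rw [hh, Int.natCast_natAbs]
      push_cast
      rfl
    push_cast at h5 ⊢
    rw [h5]
  rw [h4] at h3
  have hl2 : (1 / 2 : ℝ) ≤ Real.log 2 := by linarith [Real.log_two_gt_d9]
  have h6 : ((k * k' * h).primeFactors.card : ℝ) ≤
      2 * Real.log ((k : ℝ) * k' * |(k : ℝ) * r' - k' * r|) := by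
    have h7 : (0 : ℝ) ≤ ((k * k' * h).primeFactors.card : ℝ) := Nat.cast_nonneg _
    nlinarith
  calc _ ≤ ((k * k' * h).primeFactors.card : ℝ) * (1 / y) := h2
    _ ≤ 2 * Real.log ((k : ℝ) * k' * |(k : ℝ) * r' - k' * r|) * (1 / y) :=
        mul_le_mul_of_nonneg_right h6 (by positivity)
    _ = _ := by ring

open scoped Classical in
/-- **The pair sieve.** -/
theorem pair_sieve : ∃ C : ℝ, 0 < C ∧ ∀ (N k r k' r' : ℕ) (y : ℝ), 4 ≤ y →
    y ≤ (N : ℝ) ^ (1 / 16 : ℝ) → 0 < k → 0 < k' → k * r' ≠ k' * r →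
    (((Icc 1 N).filter fun n => (k * n + r).Prime ∧ (k' * n + r').Prime).card : ℝ) ≤
      3 * (N : ℝ) ^ (1 / 2 : ℝ) + C * N * (Real.log y / Real.log N) ^ 2 *
        Real.exp (8 * Real.log ((k : ℝ) * k' * |(k : ℝ) * r' - k' * r|) / y) := by
  obtain ⟨C, hC, hprod⟩ := prod_good
  refine ⟨Real.exp K2 * (C * 256), by positivity, fun N k r k' r' y hy hyN hk hk' hne => ?_⟩
  set z : ℝ := (N : ℝ) ^ (1 / 16 : ℝ) with hz
  have hz4 : 4 ≤ z := hy.trans hyN
  have hN1 : 1 ≤ N := by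
    by_contra hcon
    have : N = 0 := by omega
    rw [this, Nat.cast_zero, Real.zero_rpow (by norm_num)] at hz
    linarith
  have hN1' : (1 : ℝ) ≤ N := by exact_mod_cast hN1
  have hlogz : Real.log z = Real.log N / 16 := by
    rw [hz, Real.log_rpow (by linarith)]; ring
  have hne' : k * (r' + k') ≠ k' * (r + k) := by
    intro h; apply hne
    have : k * r' + k * k' = k' * r + k * k' := by rw [mul_add, mul_add] at h; linarith [mul_comm k k']
    omega
  -- shift to `range N`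
  have hcard : ((Icc 1 N).filter fun n => (k * n + r).Prime ∧ (k' * n + r').Prime).card ≤
      ((range N).filter fun n => (k * n + (r + k)).Prime ∧ (k' * n + (r' + k')).Prime).card := by
    refine card_le_card_of_injOn (fun n => n - 1) ?_ ?_
    · intro n hn
      rw [mem_coe, mem_filter, mem_Icc] at hn
      obtain ⟨⟨h1, h2⟩, h3, h4⟩ := hn
      obtain ⟨m, rfl⟩ : ∃ m, n = m + 1 := ⟨n - 1, by omega⟩
      rw [mem_coe, mem_filter, mem_range]
      simp only [Nat.add_sub_cancel]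
      refine ⟨by omega, ?_, ?_⟩
      · convert h3 using 1; ring
      · convert h4 using 1; ring
    · intro a ha b hb hab
      rw [mem_coe, mem_filter, mem_Icc] at ha hb
      simp only at hab
      omega
  have h1 := pair_range N k (r + k) k' (r' + k') y z hy (by linarith) hk hk'
  have h2 := hprod k (r + k) k' (r' + k') y z hy hyN
  have h3 := bad_sum k (r + k) k' (r' + k') y z hy hk hk' hne'
  have h4 : (k : ℝ) * ((r' + k' : ℕ) : ℝ) - k' * ((r + k : ℕ) : ℝ) = (k : ℝ) * r' - k' * r := by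
    push_cast; ring
  rw [h4] at h3
  set L := Real.log ((k : ℝ) * k' * |(k : ℝ) * r' - k' * r|) with hL
  set Bs := ∑ p ∈ (pr y z).filter (fun p => ¬ Gd y k (r + k) k' (r' + k') p), 1 / (p : ℝ) with hBs
  have h5 : Real.exp (4 * Bs) ≤ Real.exp (8 * L / y) := by
    apply Real.exp_le_exp.2
    have : 8 * L / y = 4 * (2 * L / y) := by ring
    rw [this]
    linarith
  have h6 : ∏ p ∈ (pr 0 z).filter (Gd y k (r + k) k' (r' + k')), (1 - g2 p) ≤
      C * (Real.log y / Real.log z) ^ 2 * Real.exp (8 * L / y) :=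
    h2.trans (mul_le_mul_of_nonneg_left h5 (by positivity))
  have h7 : (N : ℝ) * (Real.exp K2 * ∏ p ∈ (pr 0 z).filter (Gd y k (r + k) k' (r' + k')), (1 - g2 p)) ≤
      Real.exp K2 * (C * 256) * N * (Real.log y / Real.log N) ^ 2 * Real.exp (8 * L / y) := by
    calc _ ≤ (N : ℝ) * (Real.exp K2 * (C * (Real.log y / Real.log z) ^ 2 * Real.exp (8 * L / y))) := by
          gcongr
      _ = _ := by
          rw [hlogz]
          have : Real.log y / (Real.log N / 16) = 16 * (Real.log y / Real.log N) := by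
            rw [div_div_eq_mul_div]; ring
          rw [this]; ring
  have h8 : (z + 1) + (z ^ (4 : ℝ)) ^ 2 ≤ 3 * (N : ℝ) ^ (1 / 2 : ℝ) := by
    have a1 : (z ^ (4 : ℝ)) ^ 2 = (N : ℝ) ^ (1 / 2 : ℝ) := by
      rw [hz, ← Real.rpow_mul (by linarith), ← Real.rpow_natCast, ← Real.rpow_mul (by linarith)]
      norm_num
    have a2 : z ≤ (N : ℝ) ^ (1 / 2 : ℝ) := by
      rw [hz]; exact Real.rpow_le_rpow_of_exponent_le hN1' (by norm_num)
    have a3 : (1 : ℝ) ≤ z := by linarith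
    rw [a1]
    linarith
  have h9 : (((Icc 1 N).filter fun n => (k * n + r).Prime ∧ (k' * n + r').Prime).card : ℝ) ≤
      (((range N).filter fun n => (k * n + (r + k)).Prime ∧ (k' * n + (r' + k')).Prime).card : ℝ) := by
    exact_mod_cast hcard
  linarith

end Pool.Agent.ACB13
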