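import Pool.Agent.Lib.PTg.Defs

/-!
# Primes `n` for which many given linear forms are composite at `n`

From Theorem G (`PTg.GoodGStmt`): the count of primes `n ≤ X` for which all the numbers `u n + v`,
`(u, v) ∈ F`, have a prime factor at most `√X`.
-/

set_option autoImplicit false

namespace Pool.Agent.NoSmall

open Finset Pool.Agent.GapSieve Pool.Agent.PosProp Pool.Agent.PTr Pool.Agent.PTa Pool.Agent.PTg

/-- `a / φ(a)` as a product -/
private lemma Surv_ratio (a : ℕ) (ha : a ≠ 0) :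
    (a : ℝ) / a.totient = ∏ p ∈ a.primeFactors, (1 + 1 / ((p : ℝ) - 1)) := by
  have h1 := LPAP.totient_div a ha
  have h2 : (a : ℝ) / a.totient = ((a.totient : ℝ) / a)⁻¹ := (inv_div _ _).symm
  rw [h2, h1, ← Finset.prod_inv_distrib]
  refine Finset.prod_congr rfl fun p hp => ?_
  have hp2 : (2 : ℝ) ≤ p := by exact_mod_cast (Nat.prime_of_mem_primeFactors hp).two_le
  have h3 : (p : ℝ) ≠ 0 := by linarith
  have h4 : (p : ℝ) - 1 ≠ 0 := by linarith
  have h5 : 1 - 1 / (p : ℝ) ≠ 0 := by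
    have : (1 : ℝ) / p ≤ 1 / 2 := one_div_le_one_div_of_le (by norm_num) hp2
    linarith
  field_simp
  ring

private lemma Surv_tele (K : ℕ) :
    ∑ n ∈ Finset.Ico 2 (K + 2), 1 / ((n : ℝ) * ((n : ℝ) - 1)) ≤ 1 := by
  have h : ∑ n ∈ Finset.Ico 2 (K + 2), 1 / ((n : ℝ) * ((n : ℝ) - 1)) = 1 - 1 / ((K : ℝ) + 1) := by
    induction K with
    | zero => simp
    | succ K ih =>
      rw [Finset.sum_Ico_succ_top (by omega), ih]
      have h1 : ((K : ℝ) + 1) ≠ 0 := by positivity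
      have h2 : ((K : ℝ) + 2) ≠ 0 := by positivity
      push_cast
      have h3 : ((K : ℝ) + 1 + 1) ≠ 0 := by positivity
      have h4 : ((K : ℝ) + 2 - 1) ≠ 0 := by
        have : ((K : ℝ) + 2 - 1) = K + 1 := by ring
        rw [this]; exact h1
      field_simp
      ring
  rw [h]
  have : (0 : ℝ) ≤ 1 / ((K : ℝ) + 1) := by positivity
  linarith

/-- `∑_{s ≤ K} s / φ(s) ≤ e K` -/
lemma Surv_sum (K : ℕ) :
    ∑ s ∈ Finset.Icc 1 K, (s : ℝ) / (s.totient : ℝ) ≤ Real.exp 1 * K := by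
  set PP := (Finset.Icc 1 K).filter Nat.Prime with hPP
  have hpr : ∀ p ∈ PP, p.Prime := fun p hp => (Finset.mem_filter.mp hp).2
  have hsub : ∀ s ∈ Finset.Icc 1 K, s.primeFactors ⊆ PP := by
    intro s hs p hp
    obtain ⟨h1, h2⟩ := Finset.mem_Icc.mp hs
    have hp1 := Nat.prime_of_mem_primeFactors hp
    have hp2 := Nat.le_of_dvd (by omega) (Nat.dvd_of_mem_primeFactors hp)
    exact Finset.mem_filter.mpr ⟨Finset.mem_Icc.mpr ⟨hp1.pos, by omega⟩, hp1⟩
  have hfn : ∀ p ∈ PP, (0 : ℝ) ≤ 1 / ((p : ℝ) - 1) := by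
    intro p hp
    have hp2 : (2 : ℝ) ≤ p := by exact_mod_cast (hpr p hp).two_le
    have : (0 : ℝ) < (p : ℝ) - 1 := by linarith
    positivity
  have h1 : ∀ s ∈ Finset.Icc 1 K, (s : ℝ) / (s.totient : ℝ) =
      ∑ T ∈ PP.powerset, (if T ⊆ s.primeFactors then ∏ p ∈ T, 1 / ((p : ℝ) - 1) else 0) := by
    intro s hs
    rw [Surv_ratio s (by have := (Finset.mem_Icc.mp hs).1; omega), Finset.prod_one_add,
      ← Finset.sum_filter]
    refine Finset.sum_congr ?_ fun _ _ => rfl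
    ext T
    rw [Finset.mem_filter, Finset.mem_powerset, Finset.mem_powerset]
    exact ⟨fun h => ⟨h.trans (hsub s hs), h⟩, fun h => h.2⟩
  rw [Finset.sum_congr rfl h1, Finset.sum_comm]
  have h2 : ∀ T ∈ PP.powerset, ∑ s ∈ Finset.Icc 1 K,
      (if T ⊆ s.primeFactors then ∏ p ∈ T, 1 / ((p : ℝ) - 1) else 0) ≤
      K * ∏ p ∈ T, 1 / ((p : ℝ) * ((p : ℝ) - 1)) := by
    intro T hT
    rw [Finset.mem_powerset] at hT
    have hT0 : ∀ p ∈ T, (0 : ℝ) < p := fun p hp => by exact_mod_cast (hpr p (hT hp)).pos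
    rw [← Finset.sum_filter, Finset.sum_const, nsmul_eq_mul]
    have hDpos : 0 < ∏ p ∈ T, p := Finset.prod_pos fun p hp => (hpr p (hT hp)).pos
    have hcard : (((Finset.Icc 1 K).filter (fun s => T ⊆ s.primeFactors)).card : ℝ) ≤
        (K : ℝ) / (∏ p ∈ T, p : ℕ) := by
      have h3 : (Finset.Icc 1 K).filter (fun s => T ⊆ s.primeFactors) ⊆
          (Finset.Ioc 0 K).filter (fun s => (∏ p ∈ T, p) ∣ s) := by
        intro s hs
        obtain ⟨h4, h5⟩ := Finset.mem_filter.mp hs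
        obtain ⟨h6, h7⟩ := Finset.mem_Icc.mp h4
        refine Finset.mem_filter.mpr ⟨Finset.mem_Ioc.mpr ⟨by omega, h7⟩, ?_⟩
        refine Finset.prod_primes_dvd s (fun p hp => (hpr p (hT hp)).prime) fun p hp => ?_
        exact Nat.dvd_of_mem_primeFactors (h5 hp)
      have h8 := Finset.card_le_card h3
      rw [Nat.Ioc_filter_dvd_card_eq_div] at h8
      calc (((Finset.Icc 1 K).filter (fun s => T ⊆ s.primeFactors)).card : ℝ)
          ≤ ((K / ∏ p ∈ T, p : ℕ) : ℝ) := by exact_mod_cast h8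
        _ ≤ (K : ℝ) / (∏ p ∈ T, p : ℕ) := Nat.cast_div_le
    have hnn : (0 : ℝ) ≤ ∏ p ∈ T, 1 / ((p : ℝ) - 1) := Finset.prod_nonneg fun p hp => hfn p (hT hp)
    refine (mul_le_mul_of_nonneg_right hcard hnn).trans (le_of_eq ?_)
    rw [Nat.cast_prod, div_mul_eq_mul_div, mul_div_assoc, ← Finset.prod_div_distrib]
    congr 1
    refine Finset.prod_congr rfl fun p hp => ?_
    have := hT0 p hp
    have hp2 : (2 : ℝ) ≤ p := by exact_mod_cast (hpr p (hT hp)).two_le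
    have h4 : (p : ℝ) - 1 ≠ 0 := by linarith
    field_simp
  refine (Finset.sum_le_sum h2).trans ?_
  rw [← Finset.mul_sum, ← Finset.prod_one_add, mul_comm]
  refine mul_le_mul_of_nonneg_right ?_ (Nat.cast_nonneg K)
  have h5 : ∏ p ∈ PP, (1 + 1 / ((p : ℝ) * ((p : ℝ) - 1))) ≤
      ∏ p ∈ PP, Real.exp (1 / ((p : ℝ) * ((p : ℝ) - 1))) := by
    refine Finset.prod_le_prod ?_ ?_
    · intro p hp
      have hp2 : (2 : ℝ) ≤ p := by exact_mod_cast (hpr p hp).two_le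
      have h4 : (0 : ℝ) < (p : ℝ) - 1 := by linarith
      positivity
    · intro p _
      rw [add_comm]
      exact Real.add_one_le_exp _
  refine h5.trans ?_
  rw [← Real.exp_sum]
  refine Real.exp_le_exp.mpr ?_
  refine le_trans ?_ (Surv_tele K)
  refine Finset.sum_le_sum_of_subset_of_nonneg ?_ ?_
  · intro p hp
    obtain ⟨h6, h7⟩ := Finset.mem_filter.mp hp
    exact Finset.mem_Ico.mpr ⟨h7.two_le, by have := (Finset.mem_Icc.mp h6).2; omega⟩
  · intro p hp _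
    have hp2 : (2 : ℝ) ≤ p := by exact_mod_cast (Finset.mem_Ico.mp hp).1
    have h4 : (0 : ℝ) < (p : ℝ) - 1 := by linarith
    positivity

private lemma ratio_mul (m n : ℕ) (hm : 0 < m) (hn : 0 < n) :
    ((m * n : ℕ) : ℝ) / ((m * n).totient : ℝ) ≤
      ((m : ℝ) / (m.totient : ℝ)) * ((n : ℝ) / (n.totient : ℝ)) := by
  have h1 : (0 : ℝ) < (m.totient : ℝ) := by exact_mod_cast Nat.totient_pos.2 hm
  have h2 : (0 : ℝ) < (n.totient : ℝ) := by exact_mod_cast Nat.totient_pos.2 hn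
  have h3 : (m.totient : ℝ) * (n.totient : ℝ) ≤ ((m * n).totient : ℝ) := by
    exact_mod_cast Nat.totient_super_multiplicative _ _
  rw [div_mul_div_comm, Nat.cast_mul]
  exact div_le_div_of_nonneg_left (by positivity) (by positivity) h3

open Classical in
/-- the count of good primes for a family of linear forms -/
theorem family (h1 : GoodGStmt) (h2 : NBexStmt) (lam C : ℝ) (hlam : 1 ≤ lam) (hC : 1 ≤ C) :
    ∃ c : ℝ, 0 < c ∧ ∃ X0 : ℝ, ∀ X : ℝ, X0 ≤ X → ∀ F : Finset (ℤ × ℤ), Adm F (X ^ C) →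
      sF F ≤ lam * Real.log X →
      c * X / Real.log X ≤ (((Icc 1 ⌊X⌋₊).filter (fun n : ℕ => n.Prime ∧ X / 16 < n ∧
        gdg F (√X) n)).card : ℝ) := by
  obtain ⟨g, hg⟩ := h2 (1 / 20) (1 / 10) le_rfl (by norm_num) le_rfl
  obtain ⟨c, X0, hc, H⟩ := h1 (1 / 20) (1 / 10) g le_rfl le_rfl hg (2 * lam) (C + 1)
    (by linarith) (by linarith)
  refine ⟨c / 4, by positivity, max (4 * X0) (max (4 ^ (C + 1)) 16), fun X hX F hF hs => ?_⟩
  have hX1 : X0 ≤ X / 4 := by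
    have := (le_max_left _ _).trans hX
    linarith
  have hX2 : (4 : ℝ) ^ (C + 1) ≤ X := (le_max_left _ _).trans ((le_max_right _ _).trans hX)
  have hX3 : (16 : ℝ) ≤ X := (le_max_right _ _).trans ((le_max_right _ _).trans hX)
  have hX0 : 0 < X := by linarith
  have hpow : X ^ C ≤ (X / 4) ^ (C + 1) := by
    rw [Real.div_rpow hX0.le (by norm_num), le_div_iff₀ (by positivity), Real.rpow_add hX0,
      Real.rpow_one]
    exact mul_le_mul_of_nonneg_left hX2 (by positivity)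
  have hF' : Adm F ((X / 4) ^ (C + 1)) :=
    ⟨hF.ne1, hF.ne2, fun f hf => (hF.le1 f hf).trans hpow, fun f hf => (hF.le2 f hf).trans hpow,
      hF.det⟩
  have hlog4 : Real.log 4 ≤ Real.log X / 2 := by
    have h3 : Real.log 16 ≤ Real.log X := Real.log_le_log (by norm_num) hX3
    have h4 : Real.log 16 = 2 * Real.log 4 := by
      rw [show (16 : ℝ) = 4 ^ 2 by norm_num, Real.log_pow]
      norm_num
    linarith
  have hlog0 : 0 < Real.log X := Real.log_pos (by linarith)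
  have hs' : sF F ≤ 2 * lam * Real.log (X / 4) := by
    rw [Real.log_div hX0.ne' (by norm_num)]
    nlinarith
  have hG := H (X / 4) hX1 F hF' hs'
  have hsq : √(X / 4) ≤ √X := Real.sqrt_le_sqrt (by linarith)
  set G0 := (PA (X / 4)).filter (fun n => gdg F (√(X / 4)) n) with hG0
  have hsub : G0 ⊆ (Icc 1 ⌊X⌋₊).filter (fun n : ℕ => n.Prime ∧ X / 16 < n ∧ gdg F (√X) n) := by
    intro n hn
    obtain ⟨hn1, hn2⟩ := mem_filter.1 hn
    unfold PA NX at hn1
    obtain ⟨hn3, hn4, hn5⟩ := mem_filter.1 hn1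
    rw [show 4 * (X / 4) = X by ring] at hn3
    refine mem_filter.2 ⟨hn3, hn4, by linarith, fun f hf => ?_⟩
    obtain ⟨q, hq, hq1, hq2⟩ := hn2 f hf
    exact ⟨q, hq, hq1.trans hsq, hq2⟩
  have hw : ∀ n ∈ G0, wp g (X / 4) n ≤ Real.log X := by
    intro n hn
    have hn1 := (mem_filter.1 hn).1
    unfold PA NX at hn1
    obtain ⟨hn3, hn4, hn5⟩ := mem_filter.1 hn1
    rw [show 4 * (X / 4) = X by ring] at hn3
    have hn6 : (n : ℝ) ≤ X := (Nat.cast_le.2 (mem_Icc.1 hn3).2).trans (Nat.floor_le hX0.le)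
    unfold wp
    rw [if_pos hn4]
    calc Real.log n * g (Real.log (n / (X / 4))) ≤ Real.log n * 1 :=
          mul_le_mul_of_nonneg_left (hg.le_one _) (Real.log_natCast_nonneg n)
      _ ≤ Real.log X := by
          rw [mul_one]
          exact Real.log_le_log (by exact_mod_cast hn4.pos) hn6
  have hsum : ∑ n ∈ G0, wp g (X / 4) n ≤ (G0.card : ℝ) * Real.log X := by
    rw [← nsmul_eq_mul]
    exact Finset.sum_le_card_nsmul _ _ _ hw
  have hcard : (G0.card : ℝ) ≤ (((Icc 1 ⌊X⌋₊).filter (fun n : ℕ => n.Prime ∧ X / 16 < n ∧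
      gdg F (√X) n)).card : ℝ) := by exact_mod_cast card_le_card hsub
  refine le_trans ?_ hcard
  rw [div_le_iff₀ hlog0]
  have h5 := hG.trans hsum
  linarith

/-- `p_k ≤ 2 ^ k` -/
private lemma nth_prime_le (k : ℕ) : Nat.nth Nat.Prime k ≤ 2 ^ (k + 1) := by
  induction k with
  | zero => rw [Nat.nth_prime_zero_eq_two]; norm_num
  | succ k ih =>
    have h0 : Nat.nth Nat.Prime k ≠ 0 := (Nat.prime_nth_prime k).ne_zero
    obtain ⟨p, hp, h1, h2⟩ := Nat.exists_prime_lt_and_le_two_mul _ h0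
    have h3 : Nat.nth Nat.Prime (Nat.count Nat.Prime p) = p := Nat.nth_count hp
    have h4 : k < Nat.count Nat.Prime p := by
      by_contra h5
      push Not at h5
      have h6 : Nat.nth Nat.Prime (Nat.count Nat.Prime p) ≤ Nat.nth Nat.Prime k :=
        (Nat.nth_strictMono Nat.infinite_setOfPred_prime).monotone h5
      rw [h3] at h6
      omega
    have h5 : Nat.nth Nat.Prime (k + 1) ≤ Nat.nth Nat.Prime (Nat.count Nat.Prime p) :=
      (Nat.nth_strictMono Nat.infinite_setOfPred_prime).monotone h4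
    rw [h3] at h5
    calc _ ≤ p := h5
      _ ≤ 2 * Nat.nth Nat.Prime k := h2
      _ ≤ 2 * 2 ^ (k + 1) := by omega
      _ = 2 ^ (k + 1 + 1) := by ring

/-- the forms `k n + p_k`, `1 ≤ k ≤ K` -/
private noncomputable def FK (K : ℕ) : Finset (ℤ × ℤ) :=
  (Icc 1 K).image (fun k : ℕ => ((k : ℤ), ((Nat.nth Nat.Prime (k - 1) : ℕ) : ℤ)))

private lemma lt_pk {k : ℕ} (hk : 1 ≤ k) : k < Nat.nth Nat.Prime (k - 1) := by
  have := Nat.add_two_le_nth_prime (k - 1)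
  omega

private lemma sF_FK (K : ℕ) : sF (FK K) ≤ 2 * Real.exp 1 * K := by
  unfold sF FK
  rw [Finset.sum_image]
  swap
  · intro k _ k' _ h
    have h1 : (k : ℤ) = k' := (Prod.ext_iff.1 h).1
    exact_mod_cast h1
  have h1 : ∀ k ∈ Icc 1 K,
      (((((k : ℕ) : ℤ), ((Nat.nth Nat.Prime (k - 1) : ℕ) : ℤ)).1 *
        (((k : ℕ) : ℤ), ((Nat.nth Nat.Prime (k - 1) : ℕ) : ℤ)).2).natAbs : ℝ) /
      ((((((k : ℕ) : ℤ), ((Nat.nth Nat.Prime (k - 1) : ℕ) : ℤ)).1 *
        (((k : ℕ) : ℤ), ((Nat.nth Nat.Prime (k - 1) : ℕ) : ℤ)).2).natAbs.totient : ℕ) : ℝ) ≤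
      2 * ((k : ℝ) / (k.totient : ℝ)) := by
    intro k hk
    obtain ⟨hk1, hk2⟩ := mem_Icc.1 hk
    have hp := Nat.prime_nth_prime (k - 1)
    have h2 : ((((k : ℕ) : ℤ), ((Nat.nth Nat.Prime (k - 1) : ℕ) : ℤ)).1 *
        (((k : ℕ) : ℤ), ((Nat.nth Nat.Prime (k - 1) : ℕ) : ℤ)).2).natAbs =
        k * Nat.nth Nat.Prime (k - 1) := by
      show ((k : ℤ) * (Nat.nth Nat.Prime (k - 1) : ℤ)).natAbs = _
      rw [Int.natAbs_mul, Int.natAbs_natCast, Int.natAbs_natCast]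
    rw [h2]
    refine (ratio_mul _ _ hk1 hp.pos).trans ?_
    rw [mul_comm]
    refine mul_le_mul_of_nonneg_right ?_ (by positivity)
    rw [Nat.totient_prime hp, div_le_iff₀]
    · have h3 := hp.two_le
      rw [Nat.cast_sub hp.one_le]
      have : (2 : ℝ) ≤ (Nat.nth Nat.Prime (k - 1) : ℝ) := by exact_mod_cast h3
      push_cast
      linarith
    · have h3 := hp.two_le
      have : 0 < Nat.nth Nat.Prime (k - 1) - 1 := by omega
      exact_mod_cast this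
  refine (Finset.sum_le_sum h1).trans ?_
  rw [← Finset.mul_sum]
  have := Surv_sum K
  linarith

private lemma adm_FK {K : ℕ} {B : ℝ} (hB : (2 : ℝ) ^ K ≤ B) : Adm (FK K) B := by
  have hmem : ∀ f ∈ FK K, ∃ k : ℕ, 1 ≤ k ∧ k ≤ K ∧
      f = ((k : ℤ), ((Nat.nth Nat.Prime (k - 1) : ℕ) : ℤ)) := by
    intro f hf
    unfold FK at hf
    rw [mem_image] at hf
    obtain ⟨k, hk, rfl⟩ := hf
    exact ⟨k, (mem_Icc.1 hk).1, (mem_Icc.1 hk).2, rfl⟩
  have hpk : ∀ k : ℕ, 1 ≤ k → k ≤ K → ((Nat.nth Nat.Prime (k - 1) : ℕ) : ℝ) ≤ B := by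
    intro k hk1 hk2
    have h1 := nth_prime_le (k - 1)
    rw [show k - 1 + 1 = k by omega] at h1
    have h2 : (2 : ℕ) ^ k ≤ 2 ^ K := Nat.pow_le_pow_right (by norm_num) hk2
    have h3 : ((Nat.nth Nat.Prime (k - 1) : ℕ) : ℝ) ≤ (2 : ℝ) ^ K := by exact_mod_cast h1.trans h2
    exact h3.trans hB
  refine ⟨?_, ?_, ?_, ?_, ?_⟩
  · intro f hf
    obtain ⟨k, hk1, hk2, rfl⟩ := hmem f hf
    show (k : ℤ) ≠ 0
    omega
  · intro f hf
    obtain ⟨k, hk1, hk2, rfl⟩ := hmem f hf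
    show ((Nat.nth Nat.Prime (k - 1) : ℕ) : ℤ) ≠ 0
    have := lt_pk hk1
    omega
  · intro f hf
    obtain ⟨k, hk1, hk2, rfl⟩ := hmem f hf
    show |((k : ℤ) : ℝ)| ≤ B
    rw [Int.cast_natCast, abs_of_nonneg (Nat.cast_nonneg k)]
    have h1 : (k : ℝ) ≤ ((Nat.nth Nat.Prime (k - 1) : ℕ) : ℝ) := by exact_mod_cast (lt_pk hk1).le
    exact h1.trans (hpk k hk1 hk2)
  · intro f hf
    obtain ⟨k, hk1, hk2, rfl⟩ := hmem f hf
    show |((((Nat.nth Nat.Prime (k - 1) : ℕ) : ℤ)) : ℝ)| ≤ B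
    rw [Int.cast_natCast, abs_of_nonneg (Nat.cast_nonneg _)]
    exact hpk k hk1 hk2
  · intro f hf f' hf' hne
    obtain ⟨k, hk1, hk2, rfl⟩ := hmem f hf
    obtain ⟨k', hk1', hk2', rfl⟩ := hmem f' hf'
    intro he
    apply hne
    have h1 : (k : ℤ) * ((Nat.nth Nat.Prime (k' - 1) : ℕ) : ℤ) =
        (k' : ℤ) * ((Nat.nth Nat.Prime (k - 1) : ℕ) : ℤ) := by
      have h2 : (k : ℤ) * ((Nat.nth Nat.Prime (k' - 1) : ℕ) : ℤ) -
        (k' : ℤ) * ((Nat.nth Nat.Prime (k - 1) : ℕ) : ℤ) = 0 := he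
      linarith
    have h2 : k * Nat.nth Nat.Prime (k' - 1) = k' * Nat.nth Nat.Prime (k - 1) := by
      exact_mod_cast h1
    have hp := Nat.prime_nth_prime (k - 1)
    have hp' := Nat.prime_nth_prime (k' - 1)
    have h3 : Nat.nth Nat.Prime (k - 1) ∣ k * Nat.nth Nat.Prime (k' - 1) :=
      h2 ▸ Dvd.intro_left _ rfl
    have h4 : ¬ Nat.nth Nat.Prime (k - 1) ∣ k := fun h =>
      absurd (Nat.le_of_dvd (by omega) h) (not_le.2 (lt_pk hk1))
    have h5 := (hp.dvd_mul.1 h3).resolve_left h4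
    have h6 : Nat.nth Nat.Prime (k - 1) = Nat.nth Nat.Prime (k' - 1) :=
      (Nat.prime_dvd_prime_iff_eq hp hp').1 h5
    have h7 : k - 1 = k' - 1 := Nat.nth_injective Nat.infinite_setOfPred_prime h6
    have h8 : k = k' := by omega
    rw [h8]

open Classical in
/-- **Main theorem.** -/
theorem main (h1 : GoodGStmt) (h2 : NBexStmt) (lam : ℝ) (hlam : 0 < lam) :
    ∃ c : ℝ, 0 < c ∧ ∃ X0 : ℝ, ∀ X : ℝ, X0 ≤ X →
      c * X / Real.log X ≤ (((Icc 1 ⌊X⌋₊).filter (fun n : ℕ => n.Prime ∧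
        ∀ k : ℕ, 1 ≤ k → (k : ℝ) ≤ lam * Real.log n →
          ¬ (k * n + Nat.nth Nat.Prime (k - 1)).Prime)).card : ℝ) := by
  classical
  obtain ⟨c, hc, X0, H⟩ := family h1 h2 (2 * Real.exp 1 * lam + 1) (lam + 1)
    (by have := Real.exp_pos 1; nlinarith [mul_pos this hlam]) (by linarith)
  refine ⟨c, hc, max X0 257, fun X hX => ?_⟩
  have hX1 : X0 ≤ X := (le_max_left _ _).trans hX
  have hX2 : (257 : ℝ) ≤ X := (le_max_right _ _).trans hX
  have hX0 : 0 < X := by linarith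
  have hlog0 : 0 < Real.log X := Real.log_pos (by linarith)
  set K : ℕ := ⌊lam * Real.log X⌋₊ with hK
  have hKle : (K : ℝ) ≤ lam * Real.log X := Nat.floor_le (by positivity)
  have hB : (2 : ℝ) ^ K ≤ X ^ (lam + 1) := by
    rw [← Real.rpow_natCast, Real.rpow_def_of_pos (by norm_num), Real.rpow_def_of_pos hX0,
      Real.exp_le_exp]
    have h3 : Real.log 2 ≤ 1 := by
      have := Real.log_two_lt_d9
      linarith
    calc Real.log 2 * (K : ℝ) ≤ 1 * (K : ℝ) := mul_le_mul_of_nonneg_right h3 (Nat.cast_nonneg K)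
      _ ≤ lam * Real.log X := by linarith
      _ ≤ Real.log X * (lam + 1) := by nlinarith
  have hs : sF (FK K) ≤ (2 * Real.exp 1 * lam + 1) * Real.log X := by
    refine (sF_FK K).trans ?_
    have h3 : 2 * Real.exp 1 * (K : ℝ) ≤ 2 * Real.exp 1 * (lam * Real.log X) :=
      mul_le_mul_of_nonneg_left hKle (by positivity)
    nlinarith
  refine (H X hX1 (FK K) (adm_FK hB) hs).trans ?_
  have hsub : (Icc 1 ⌊X⌋₊).filter (fun n : ℕ => n.Prime ∧ X / 16 < n ∧ gdg (FK K) (√X) n) ⊆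
      (Icc 1 ⌊X⌋₊).filter (fun n : ℕ => n.Prime ∧ ∀ k : ℕ, 1 ≤ k → (k : ℝ) ≤ lam * Real.log n →
          ¬ (k * n + Nat.nth Nat.Prime (k - 1)).Prime) := by
    intro n hn
    obtain ⟨hn1, hn2, hn3, hn4⟩ := mem_filter.1 hn
    refine mem_filter.2 ⟨hn1, hn2, fun k hk1 hk2 hpr => ?_⟩
    have hnX : (n : ℝ) ≤ X := (Nat.cast_le.2 (mem_Icc.1 hn1).2).trans (Nat.floor_le hX0.le)
    have hkK : k ≤ K := by
      rw [hK]
      refine Nat.le_floor (hk2.trans ?_)
      exact mul_le_mul_of_nonneg_left (Real.log_le_log (by exact_mod_cast hn2.pos) hnX) hlam.le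
    have hmem : ((k : ℤ), ((Nat.nth Nat.Prime (k - 1) : ℕ) : ℤ)) ∈ FK K := by
      unfold FK
      exact mem_image.2 ⟨k, mem_Icc.2 ⟨hk1, hkK⟩, rfl⟩
    obtain ⟨q, hq, hqX, hqd⟩ := hn4 _ hmem
    have h3 : (q : ℤ) ∣ ((k * n + Nat.nth Nat.Prime (k - 1) : ℕ) : ℤ) := by
      push_cast
      exact hqd
    have h4 : q ∣ k * n + Nat.nth Nat.Prime (k - 1) := Int.natCast_dvd_natCast.1 h3
    have h5 : q = k * n + Nat.nth Nat.Prime (k - 1) := (Nat.prime_dvd_prime_iff_eq hq hpr).1 h4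
    have h6 : n ≤ q := by
      rw [h5]
      nlinarith [Nat.zero_le (Nat.nth Nat.Prime (k - 1))]
    have h7 : (n : ℝ) ≤ √X := (Nat.cast_le.2 h6).trans hqX
    have h8 : √X < X / 16 := by
      rw [Real.sqrt_lt' (by linarith)]
      nlinarith
    linarith
  exact_mod_cast card_le_card hsub

end Pool.Agent.NoSmall
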