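import Pool.Agent.Lib.MP_acb0a8_nt.Sieve2

/-!
# The number of `n ≤ X` for which two linear forms are both prime
-/

open Finset Pool.Agent.GapSieve Pool.Agent.PosProp

namespace Pool.Agent.ACB

/-- one residue class for a linear form -/
lemma exists_class {q k a : ℕ} (hq : q.Prime) (hk : ¬ q ∣ k) :
    ∃ r < q, ∀ t, q ∣ k * t + a ↔ t % q = r := by
  have : Fact q.Prime := ⟨hq⟩
  have hk0 : (k : ZMod q) ≠ 0 := by
    rwa [Ne, ZMod.natCast_eq_zero_iff]
  refine ⟨(-(a : ZMod q) * (k : ZMod q)⁻¹).val, ZMod.val_lt _, fun t => ?_⟩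
  rw [← ZMod.natCast_eq_zero_iff]
  push_cast
  constructor
  · intro h
    have h1 : (t : ZMod q) = -(a : ZMod q) * (k : ZMod q)⁻¹ := by
      field_simp
      linear_combination h
    rw [← h1, ZMod.val_natCast]
  · intro h
    have h1 : (t : ZMod q) = -(a : ZMod q) * (k : ZMod q)⁻¹ := by
      have h2 : ((t % q : ℕ) : ZMod q) = (((-(a : ZMod q) * (k : ZMod q)⁻¹).val : ℕ) : ZMod q) := by
        rw [h]
      rw [ZMod.natCast_mod, ZMod.natCast_zmod_val] at h2
      exact h2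
    rw [h1]
    field_simp
    ring

/-- the hits of a pair of forms -/
def hitP (k a k' a' : ℕ) : ℕ → ℕ → Prop := fun q t => q ∣ k * t + a ∨ q ∣ k' * t + a'

lemma hitP_per {k a k' a' q : ℕ} (t : ℕ) :
    hitP k a k' a' q (t + q) ↔ hitP k a k' a' q t := by
  unfold hitP
  have h1 : ∀ b c : ℕ, q ∣ b * (t + q) + c ↔ q ∣ b * t + c := by
    intro b c
    have : b * (t + q) + c = (b * t + c) + q * b := by ring
    rw [this]
    exact (Nat.dvd_add_left (Dvd.intro _ rfl))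
  rw [h1, h1]

lemma hitP_cnt {k a k' a' q : ℕ} (hq : q.Prime) (hk : ¬ q ∣ k) (hk' : ¬ q ∣ k')
    (hne : ¬ (q : ℤ) ∣ (k' : ℤ) * a - k * a') :
    hitCount (hit1 (hitP k a k' a')) q 0 = 2 := by
  classical
  obtain ⟨r, hr, h1⟩ := exists_class (a := a) hq hk
  obtain ⟨r', hr', h2⟩ := exists_class (a := a') hq hk'
  have hrr : r ≠ r' := by
    rintro rfl
    apply hne
    have e1 : q ∣ k * r + a := (h1 r).2 (Nat.mod_eq_of_lt hr)
    have e2 : q ∣ k' * r + a' := (h2 r).2 (Nat.mod_eq_of_lt hr)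
    have e3 : (q : ℤ) ∣ (k * r + a : ℤ) := by exact_mod_cast e1
    have e4 : (q : ℤ) ∣ (k' * r + a' : ℤ) := by exact_mod_cast e2
    have e5 : (k' : ℤ) * a - k * a' = k' * (k * r + a) - k * (k' * r + a') := by ring
    rw [e5]
    exact dvd_sub (Dvd.dvd.mul_left e3 _) (Dvd.dvd.mul_left e4 _)
  have hset : (range q).filter (fun t => hit1 (hitP k a k' a') q 0 t) = {r, r'} := by
    ext t
    rw [mem_filter, mem_range, mem_insert, mem_singleton]
    unfold hit1 hitP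
    rw [h1, h2]
    constructor
    · rintro ⟨ht, h⟩
      rw [Nat.mod_eq_of_lt ht] at h
      exact h
    · rintro (h | h)
      · subst h; exact ⟨hr, Or.inl (Nat.mod_eq_of_lt hr)⟩
      · subst h; exact ⟨hr', Or.inr (Nat.mod_eq_of_lt hr')⟩
  unfold hitCount
  have h3 : ((range q).filter (fun t => hit1 (hitP k a k' a') q 0 t)).card = 2 := by
    rw [hset, card_pair hrr]
  convert h3

/-- the bad primes of a pair -/
lemma card_primeFactors_le {m y : ℕ} (hy : 2 ≤ y) (hm : m ≠ 0) (F : Finset ℕ)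
    (hF : ∀ q ∈ F, q.Prime ∧ q ∣ m ∧ y ≤ q) :
    (F.card : ℝ) ≤ Real.log m / Real.log y := by
  have hyR : (2 : ℝ) ≤ y := by exact_mod_cast hy
  have h2 : 0 < Real.log y := Real.log_pos (by linarith)
  rw [le_div_iff₀ h2]
  have h1 : ∏ q ∈ F, q ∣ m := Finset.prod_primes_dvd m (fun q hq => (hF q hq).1.prime)
    fun q hq => (hF q hq).2.1
  have h3 : y ^ F.card ≤ m := by
    refine le_trans ?_ (Nat.le_of_dvd (Nat.pos_of_ne_zero hm) h1)
    rw [← prod_const]
    exact prod_le_prod' fun q hq => (hF q hq).2.2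
  have h4 : ((y : ℝ) ^ F.card) ≤ m := by exact_mod_cast h3
  have h5 := Real.log_le_log (by positivity) h4
  rw [Real.log_pow] at h5
  exact h5

open Classical in
/-- the pair bound -/
lemma pair_bound {bs : ℕ} (hbs : Real.exp (66 * 8) ≤ 4 ^ bs) {k a k' a' : ℕ} (hk : 0 < k)
    (hk' : 0 < k') (hne : (k' : ℤ) * a - k * a' ≠ 0) {y z : ℕ} (hy : 4 ≤ y) (hyz : y ≤ z)
    (X : ℕ) :
    (((Finset.Icc 1 X).filter fun n => (k * n + a).Prime ∧ (k' * n + a').Prime).card : ℝ) ≤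
      z + (4 * (X + 1) * (((∏ q ∈ (Finset.Ioc 0 z).filter Nat.Prime, (1 - 1 / (q : ℝ))) /
        (∏ q ∈ (Finset.Ioc 0 y).filter Nat.Prime, (1 - 1 / (q : ℝ)))) ^ 2 *
        Real.exp (4 * (Real.log (k * k' * ((k' : ℤ) * a - k * a').natAbs : ℕ) / Real.log y / y))) +
      Real.exp (12 * (bs + 1) * Real.log z + 1)) := by
  set h := ((k' : ℤ) * a - k * a').natAbs with hh
  have hh0 : h ≠ 0 := Int.natAbs_ne_zero.2 hne
  set m := k * k' * h with hm
  have hm0 : m ≠ 0 := by positivity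
  set R := (Finset.Ioc y z).filter Nat.Prime with hR
  set Q := R.filter (fun q => ¬ q ∣ m) with hQdef
  set B := R.filter (fun q => q ∣ m) with hB
  have hRp : ∀ q ∈ R, q.Prime ∧ y < q ∧ q ≤ z := by
    intro q hq
    rw [hR, mem_filter, mem_Ioc] at hq
    exact ⟨hq.2, hq.1.1, hq.1.2⟩
  have hQp : ∀ q ∈ Q, q ∈ R ∧ ¬ q ∣ m := fun q hq => by
    rw [hQdef, mem_filter] at hq; exact hq
  set S := (Finset.Icc 1 X).filter fun n => (k * n + a).Prime ∧ (k' * n + a').Prime with hS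
  set G := S.filter fun n => z < n with hG
  have hcard : (S.card : ℝ) ≤ z + G.card := by
    have h1 : S ⊆ Finset.Icc 1 z ∪ G := by
      intro n hn
      rw [mem_union]
      by_cases hz : n ≤ z
      · left
        rw [hS, mem_filter, mem_Icc] at hn
        exact mem_Icc.2 ⟨hn.1.1, hz⟩
      · right
        rw [hG, mem_filter]
        exact ⟨hn, by omega⟩
    have h2 := (card_le_card h1).trans (card_union_le _ _)
    rw [Nat.card_Icc] at h2
    have h3 : S.card ≤ z + G.card := by omega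
    exact_mod_cast h3
  have hz2 : (2 : ℝ) ≤ (z : ℝ) := by
    have : 2 ≤ z := by omega
    exact_mod_cast this
  have hG1 : G ⊆ range (X + 1) := by
    intro n hn
    rw [hG, mem_filter, hS, mem_filter, mem_Icc] at hn
    rw [mem_range]; omega
  have hG2 : ∀ t ∈ G, ∀ q ∈ Q, ¬ hitP k a k' a' q t := by
    intro t ht q hq hcon
    rw [hG, mem_filter, hS, mem_filter, mem_Icc] at ht
    obtain ⟨⟨⟨_, _⟩, p1, p2⟩, hzt⟩ := ht
    obtain ⟨hqR, _⟩ := hQp q hq
    obtain ⟨hqp, _, hqz⟩ := hRp q hqR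
    rcases hcon with h | h
    · have h1 := (Nat.prime_dvd_prime_iff_eq hqp p1).1 h
      have : t ≤ k * t := Nat.le_mul_of_pos_left t hk
      omega
    · have h1 := (Nat.prime_dvd_prime_iff_eq hqp p2).1 h
      have : t ≤ k' * t := Nat.le_mul_of_pos_left t hk'
      omega
  have hQ5 : ∀ q ∈ Q, q.Prime ∧ 5 ≤ q ∧ (q : ℝ) ≤ (z : ℝ) := by
    intro q hq
    obtain ⟨hqR, _⟩ := hQp q hq
    obtain ⟨hqp, h1, h2⟩ := hRp q hqR
    exact ⟨hqp, by omega, by exact_mod_cast h2⟩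
  have hcnt : ∀ q ∈ Q, hitCount (hit1 (hitP k a k' a')) q 0 = 2 := by
    intro q hq
    obtain ⟨hqR, hqm⟩ := hQp q hq
    obtain ⟨hqp, _, _⟩ := hRp q hqR
    refine hitP_cnt hqp ?_ ?_ ?_
    · intro h1; exact hqm ((h1.mul_right k').mul_right h)
    · intro h1; exact hqm ((h1.mul_left k).mul_right h)
    · intro h1
      apply hqm
      have : q ∣ h := Int.natCast_dvd.1 h1
      exact this.mul_left _
  have hsv := sieve2_aux hbs z hz2 Q (hitP k a k' a') hQ5 (fun q _ t => hitP_per t) hcnt (X + 1)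
    G hG1 hG2
  -- the product
  have hprod : ∏ q ∈ Q, (1 - 2 / (q : ℝ)) ≤
      ((∏ q ∈ (Finset.Ioc 0 z).filter Nat.Prime, (1 - 1 / (q : ℝ))) /
        (∏ q ∈ (Finset.Ioc 0 y).filter Nat.Prime, (1 - 1 / (q : ℝ)))) ^ 2 *
        Real.exp (4 * (Real.log m / Real.log y / y)) := by
    have hpos : ∀ q : ℕ, q.Prime → (0 : ℝ) < 1 - 1 / (q : ℝ) := by
      intro q hq
      have h2 : (2 : ℝ) ≤ q := by exact_mod_cast hq.two_le
      have : 1 / (q : ℝ) ≤ 1 / 2 := one_div_le_one_div_of_le (by norm_num) h2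
      linarith
    have e1 : ∏ q ∈ Q, (1 - 2 / (q : ℝ)) ≤ ∏ q ∈ Q, (1 - 1 / (q : ℝ)) ^ 2 := by
      refine prod_le_prod (fun q hq => ?_) fun q hq => ?_
      · have h5 : (5 : ℝ) ≤ q := by exact_mod_cast (hQ5 q hq).2.1
        have : 2 / (q : ℝ) ≤ 1 := by rw [div_le_one (by linarith)]; linarith
        linarith
      · have : (1 - 1 / (q : ℝ)) ^ 2 = 1 - 2 / q + (1 / (q : ℝ)) ^ 2 := by ring
        rw [this]
        have : 0 ≤ (1 / (q : ℝ)) ^ 2 := by positivity
        linarith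
    have e2 : (∏ q ∈ Q, (1 - 1 / (q : ℝ))) * ∏ q ∈ B, (1 - 1 / (q : ℝ)) =
        ∏ q ∈ R, (1 - 1 / (q : ℝ)) := by
      rw [mul_comm]
      exact prod_filter_mul_prod_filter_not R (fun q => q ∣ m) _
    have e3 : (∏ q ∈ (Finset.Ioc 0 y).filter Nat.Prime, (1 - 1 / (q : ℝ))) *
        ∏ q ∈ R, (1 - 1 / (q : ℝ)) =
        ∏ q ∈ (Finset.Ioc 0 z).filter Nat.Prime, (1 - 1 / (q : ℝ)) := by
      rw [hR, ← prod_union]
      · congr 1
        rw [← filter_union, Finset.Ioc_union_Ioc_eq_Ioc (Nat.zero_le _) hyz]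
      · rw [disjoint_left]
        intro q h1 h2
        rw [mem_filter, mem_Ioc] at h1 h2
        omega
    have hPy : 0 < ∏ q ∈ (Finset.Ioc 0 y).filter Nat.Prime, (1 - 1 / (q : ℝ)) :=
      prod_pos fun q hq => hpos q (mem_filter.1 hq).2
    have hQpos : 0 < ∏ q ∈ Q, (1 - 1 / (q : ℝ)) := prod_pos fun q hq => hpos q (hQ5 q hq).1
    have hBcard : (B.card : ℝ) ≤ Real.log m / Real.log y :=
      card_primeFactors_le (by omega) hm0 B fun q hq => by
        rw [hB, mem_filter] at hq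
        exact ⟨(hRp q hq.1).1, hq.2, (hRp q hq.1).2.1.le⟩
    have hyR : (0 : ℝ) < y := by
      have : 0 < y := by omega
      exact_mod_cast this
    have e4 : Real.exp (-(2 * (Real.log m / Real.log y / y))) ≤ ∏ q ∈ B, (1 - 1 / (q : ℝ)) := by
      refine Pool.Agent.Lib.MP_0bb3d8_nt.exp_le_prod B (fun q hq => ?_) ?_
      · rw [hB, mem_filter] at hq
        exact (hRp q hq.1).1
      · calc ∑ q ∈ B, 1 / (q : ℝ) ≤ ∑ q ∈ B, 1 / (y : ℝ) := by
              refine sum_le_sum fun q hq => ?_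
              rw [hB, mem_filter] at hq
              have : (y : ℝ) ≤ q := by exact_mod_cast (hRp q hq.1).2.1.le
              exact one_div_le_one_div_of_le hyR this
          _ = B.card / y := by rw [sum_const, nsmul_eq_mul]; ring
          _ ≤ _ := div_le_div_of_nonneg_right hBcard hyR.le
    set PQ := ∏ q ∈ Q, (1 - 1 / (q : ℝ)) with hPQ
    set PB := ∏ q ∈ B, (1 - 1 / (q : ℝ)) with hPB
    set PR := ∏ q ∈ R, (1 - 1 / (q : ℝ)) with hPR
    have hPBpos : 0 < PB := lt_of_lt_of_le (Real.exp_pos _) e4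
    have e5 : (∏ q ∈ (Finset.Ioc 0 z).filter Nat.Prime, (1 - 1 / (q : ℝ))) /
        (∏ q ∈ (Finset.Ioc 0 y).filter Nat.Prime, (1 - 1 / (q : ℝ))) = PR := by
      rw [← e3]; field_simp
    rw [e5, ← e2]
    have e6 : ∏ q ∈ Q, (1 - 1 / (q : ℝ)) ^ 2 = PQ ^ 2 := by rw [hPQ, prod_pow]
    have e7 : 1 ≤ PB ^ 2 * Real.exp (4 * (Real.log m / Real.log y / y)) := by
      have e8 : Real.exp (-(2 * (Real.log m / Real.log y / y))) ^ 2 ≤ PB ^ 2 :=
        pow_le_pow_left₀ (Real.exp_pos _).le e4 2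
      calc (1 : ℝ) = Real.exp (-(2 * (Real.log m / Real.log y / y))) ^ 2 *
            Real.exp (4 * (Real.log m / Real.log y / y)) := by
            rw [← Real.exp_nat_mul, ← Real.exp_add]
            push_cast
            rw [show 2 * -(2 * (Real.log m / Real.log y / y)) +
              4 * (Real.log m / Real.log y / y) = 0 by ring, Real.exp_zero]
        _ ≤ _ := mul_le_mul_of_nonneg_right e8 (Real.exp_pos _).le
    calc ∏ q ∈ Q, (1 - 2 / (q : ℝ)) ≤ PQ ^ 2 := by rw [← e6]; exact e1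
      _ = PQ ^ 2 * 1 := (mul_one _).symm
      _ ≤ PQ ^ 2 * (PB ^ 2 * Real.exp (4 * (Real.log m / Real.log y / y))) :=
          mul_le_mul_of_nonneg_left e7 (by positivity)
      _ = (PQ * PB) ^ 2 * Real.exp (4 * (Real.log m / Real.log y / y)) := by ring
  have h9 : 4 * ((X + 1 : ℕ) : ℝ) * ∏ q ∈ Q, (1 - 2 / (q : ℝ)) ≤
      4 * ((X + 1 : ℕ) : ℝ) * (((∏ q ∈ (Finset.Ioc 0 z).filter Nat.Prime, (1 - 1 / (q : ℝ))) /
        (∏ q ∈ (Finset.Ioc 0 y).filter Nat.Prime, (1 - 1 / (q : ℝ)))) ^ 2 *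
        Real.exp (4 * (Real.log m / Real.log y / y))) :=
    mul_le_mul_of_nonneg_left hprod (by positivity)
  push_cast at h9 hsv ⊢
  linarith

end Pool.Agent.ACB
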